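import Pool.Agent.Run7.h439.DC.Dig
import Pool.Agent.Y965.PL.Hei

/-! Laws in the classes for the Collatz function and for the heights of odd integers. -/

set_option autoImplicit false

namespace Pool.Agent.Run7.h439.DC

open Finset Filter Topology Pool.Agent.Y965.PL
open Pool.Agent.H499R2.HL (H H_unique)
open Pool.Agent.H499R2.LT (odn)
open Pool.Agent.H499R2.ND (Phi Phi_continuous)

theorem nat2_law {δ : ℝ} (hδ : Nat2 δ) (x : ℝ) :
    Mn (ind (fun n => True ∧ Lv valL (fun _ _ => True) (th (3 / Real.log (4 / 3)) bL x) n)) (δ * Phi x) := by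
  have h1 := hδ.lawL 1 0 0 le_rfl x
  rw [Nat.cast_one, one_pow, div_one] at h1
  have e : ind (fun n => True ∧ Lv valL (clsL 1 0 0) (th (3 / Real.log (4 / 3)) bL x) n) =
      ind (fun n => True ∧ Lv valL (fun _ _ => True) (th (3 / Real.log (4 / 3)) bL x) n) := by
    funext n
    apply ind_congr
    refine and_congr_right fun _ => exists_congr fun k => and_congr_right fun _ => and_congr_right fun _ => ?_
    unfold clsL
    simp [Int.ModEq]
  rw [← e]; exact h1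

/-- classes of odd integers -/
def CTO (E : ℕ → Prop) (ρ C c : ℝ) : Prop := ∀ F : ℤ → ℝ, ASync 1 F →
  CT E ρ C c (fun n : ℕ => if n % 2 = 1 then F (n : ℤ) else 0)

theorem CTO.fg {E : ℕ → Prop} {ρ C c : ℝ} (h : CTO E ρ C c) {g : ℕ → ℕ → ℝ} {g0 : ℝ} (hg : ∀ k o, |g k o| ≤ 1)
    (hg0 : |g0| ≤ 1) : CT E ρ C c (fun n => if n % 2 = 1 then Fg g g0 n else 0) := by
  refine (h _ (async_Fg hg hg0)).congr fun n => ?_
  simp only [Int.toNat_natCast]

open Classical in
theorem CTO.lv {E : ℕ → Prop} {ρ C c : ℝ} (h : CTO E ρ C c) (val : ℕ → ℕ → ℝ) (cls : ℕ → ℕ → Prop) (t : ℝ) :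
    CT E ρ C c (ind (fun n => n % 2 = 1 ∧ Lv val cls (fun _ => t) n)) := by
  refine (h.fg (g := fun k o => if val k o ≤ t ∧ cls k o then 1 else 0) (g0 := 0) ?_ (by simp)).congr fun n => ?_
  · intro k o
    split_ifs <;> simp
  · rw [← ind_Lv_Fg]
    by_cases hn : n % 2 = 1
    · rw [if_pos hn]
      exact ind_congr (by simp [hn])
    · rw [if_neg hn]
      symm
      apply ind_neg
      rintro ⟨h1, _⟩
      exact hn h1

theorem CTO.fin {E : ℕ → Prop} {ρ C c : ℝ} (h : CTO E ρ C c) : CT E ρ C c (ind (fun n => n % 2 = 1 ∧ ∃ k, H k n)) := by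
  refine (h.lv (fun _ _ => 0) (fun _ _ => True) 0).congr fun n => ?_
  apply ind_congr
  unfold Lv
  simp

theorem CTO.one {E : ℕ → Prop} {ρ C c : ℝ} (h : CTO E ρ C c) : CT E ρ C c (ind (fun n => n % 2 = 1)) := by
  refine (h.fg (g := fun _ _ => 1) (g0 := 1) (by simp) (by simp)).congr fun n => ?_
  by_cases hn : n % 2 = 1
  · rw [if_pos hn, ind_pos (P := fun n => n % 2 = 1) hn]
    by_cases hf : ∃ k, H k n
    · obtain ⟨k, hk⟩ := hf
      rw [Fg_H hk]
    · rw [Fg_not hf]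
  · rw [if_neg hn, ind_neg (P := fun n => n % 2 = 1) hn]

/-- the laws of the heights in the class -/
theorem CTO.Law {E : ℕ → Prop} {ρ C c : ℝ} (h : CTO E ρ C c) (hρ0 : 0 ≤ ρ) (hρ1 : ρ ≤ 1) (hc : 0 < c) {δ : ℝ}
    (hδ : Nat3 δ) : Pool.Agent.Y965.PL.Law id (fun n => E n ∧ n % 2 = 1) valH (1 / Real.log (4 / 3)) bO
      (ρ * (δ / 2)) (ρ * (1 / 2)) ∧
    ∀ (q : ℕ) (b : ℤ), 1 ≤ q → ∀ x, MnS id (ind (fun n => (E n ∧ n % 2 = 1) ∧ Lv valH (clsH q b)
      (th (1 / Real.log (4 / 3)) bO x) n)) (ρ * (δ / q * Phi x / 2)) := by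
  have hν := nu_pos'
  have key : ∀ (q : ℕ) (b : ℤ), 1 ≤ q → ∀ x, MnS id (ind (fun n => (E n ∧ n % 2 = 1) ∧ Lv valH (clsH q b)
      (th (1 / Real.log (4 / 3)) bO x) n)) (ρ * (δ / q * Phi x / 2)) := by
    intro q b hq x
    exact cls_law hρ0 hρ1 hc (fun t => h.lv valH (clsH q b) t) (A := 1 / Real.log (4 / 3)) (b := bO) (by positivity) bO_pos
      (dd := fun x => δ / q * Phi x / 2) ((Phi_continuous.const_mul _).div_const _) (fun y => hδ.law q b hq y) x
  refine ⟨⟨?_, ?_, fun x => ?_⟩, key⟩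
  · exact cls_set hρ0 hρ1 hc h.one Mn_odd
  · have h1 := cls_set hρ0 hρ1 hc h.fin hδ.fin
    have e : ind (fun n => E n ∧ (n % 2 = 1 ∧ ∃ k, H k n)) = ind (fun n => (E n ∧ n % 2 = 1) ∧ ∃ k, H k n) := by
      funext n; exact ind_congr and_assoc.symm
    rw [← e]; exact h1
  · have h1 := key 1 0 le_rfl x
    have e : ind (fun n => (E n ∧ n % 2 = 1) ∧ Lv valH (clsH 1 0) (th (1 / Real.log (4 / 3)) bO x) n) =
        ind (fun n => (E n ∧ n % 2 = 1) ∧ Lv valH (fun _ _ => True) (th (1 / Real.log (4 / 3)) bO x) n) := by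
      funext n
      apply ind_congr
      refine and_congr_right fun _ => exists_congr fun k => and_congr_right fun _ => and_congr_right fun _ => ?_
      unfold clsH
      simp [Int.ModEq]
    rw [e, Nat.cast_one, div_one] at h1
    have e2 : ρ * (δ * Phi x / 2) = ρ * (δ / 2) * Phi x := by ring
    rw [e2] at h1
    exact h1

/-- a set of values has its share in the class -/
theorem share_fin {E P : ℕ → Prop} {ρ C c : ℝ} (h : CT E ρ C c (ind P)) {X : ℕ} (hX : 1 ≤ X) :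
    |∑ n ∈ Icc 1 X, ind (fun n => E n ∧ P n) n - ρ * ∑ n ∈ Icc 1 X, ind P n| ≤ C * (X : ℝ) ^ (1 - c) := by
  have h1 := h.tr X hX
  have e : ∑ n ∈ Icc 1 X, ind (fun n => E n ∧ P n) n = ∑ n ∈ Icc 1 X, ind E n * ind P n :=
    sum_congr rfl fun n _ => ind_and E P n
  rw [e]; exact h1

end Pool.Agent.Run7.h439.DC
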