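import Pool.Agent.Run7.h439.DC.Poly3
import Pool.Agent.Run7.h439.DC.Dig2

/-! The classes of polynomials and the hitting times of the `3x+1` map. -/

set_option autoImplicit false

namespace Pool.Agent.Run7.h439.DC

open Finset Pool.Agent.Y55.DS Pool.Agent.H319R3.GC
open Pool.Agent.Y965.PL

/-- hitting times in the classes of polynomials -/
theorem cta_poly {k : ℕ} (hk : 1 ≤ k) {α : ℝ} (hα : Dioph α) : ∃ C c : ℝ, 0 ≤ C ∧ 0 < c ∧ c < 1 ∧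
    ∀ (P : Polynomial ℝ) (u v : ℝ), PD k α P u v → (∀ M b : ℕ, 1 ≤ M → ∀ F : ℤ → ℝ, ASync 1 F →
      CT (Ep P u v) (v - u) C c (Rs M b (fun n => F (n : ℤ)))) ∧
      CTA (Ep P u v) (v - u) C c ∧ CTO (Ep P u v) (v - u) C c := by
  obtain ⟨C, c, hC, hc, hc1, H⟩ := ct_poly (adm3 (k := 1) odd_one) 1 0 hk hα
  refine ⟨C, c, hC, hc, hc1, fun P u v hP => ?_⟩
  have key : ∀ M b : ℕ, 1 ≤ M → ∀ F : ℤ → ℝ, ASync 1 F → CT (Ep P u v) (v - u) C c (Rs M b (fun n => F (n : ℤ))) :=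
    fun M b hM F hF => H 1 (Or.inl rfl) _ (ksync_async hF) P hP.deg hP.lead u v hP.u0 hP.uv hP.v1 M b hM
  refine ⟨key, fun F hF => ?_, fun F hF => ?_⟩
  · have h1 := key 1 0 le_rfl F hF
    rw [Rs_one] at h1
    exact h1
  · refine (key 2 1 (by norm_num) F hF).congr fun n => ?_
    unfold Rs
    norm_num

theorem Fg_Rs {E : ℕ → Prop} {ρ C c : ℝ} {M b : ℕ}
    (h : ∀ F : ℤ → ℝ, ASync 1 F → CT E ρ C c (Rs M b (fun n => F (n : ℤ)))) {g : ℕ → ℕ → ℝ} {g0 : ℝ}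
    (hg : ∀ k o, |g k o| ≤ 1) (hg0 : |g0| ≤ 1) : CT E ρ C c (Rs M b (Fg g g0)) := by
  refine (h _ (async_Fg hg hg0)).congr fun n => ?_
  unfold Rs
  simp only [Int.toNat_natCast]

end Pool.Agent.Run7.h439.DC
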