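import Pool.Agent.Run7.h439.DC.Tr

/-! The classes defined by digits, for the `3x+1` function. -/

set_option autoImplicit false

namespace Pool.Agent.Run7.h439.DC

open Finset Pool.Agent.Y965.PL
open Pool.Agent.H319R3.GC (Adm)

/-- admissible data of digit classes -/
structure DD (d : ℕ) {l : ℕ} (q m : Fin l → ℕ) (W : Fin l → ℕ → ℤ) : Prop where
  three : ∀ i, 3 ≤ q i
  copd : ∀ i, Nat.Coprime d (q i)
  cop : ∀ i j, i ≠ j → Nat.Coprime (q i) (q j)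
  add : ∀ i, Pool.Agent.Y55.DS.SA (q i) (W i)
  pos : ∀ i, 1 ≤ m i
  free : ∀ i, ∀ p : ℕ, p.Prime → p ∣ m i → ∃ r : ℕ, r ≤ q i ∧ ¬ W i r ≡ r * W i 1 [ZMOD p]

theorem cta_digits {l : ℕ} {q m : Fin l → ℕ} {W : Fin l → ℕ → ℤ} (h : DD 2 q m W) : ∃ C c : ℝ, 0 ≤ C ∧ 0 < c ∧ c ≤ 1 ∧
    ∀ a : Fin l → ℤ, CTA (Ed m W a) (∏ i, (1 / (m i : ℝ))) C c := by
  obtain ⟨C, c, hC, hc, H⟩ := ct_digits (adm3 (k := 1) odd_one) 1 0 q h.three h.copd h.cop W h.add m h.pos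
    (fun i => obs_one (h.free i))
  refine ⟨C, min c 1, hC, lt_min hc one_pos, min_le_right _ _, fun a F hF => ?_⟩
  exact (H 1 (Or.inl rfl) _ (ksync_async hF) a).mono hC (min_le_left _ _)

theorem cto_digits {l : ℕ} {q m : Fin l → ℕ} {W : Fin l → ℕ → ℤ} (h : DD 2 q m W) : ∃ C c : ℝ, 0 ≤ C ∧ 0 < c ∧ c ≤ 1 ∧
    ∀ a : Fin l → ℤ, ∀ F : ℤ → ℝ, ASync 1 F →
      CT (Ed m W a) (∏ i, (1 / (m i : ℝ))) C c (fun n : ℕ => if n % 2 = 1 then F n else 0) := by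
  obtain ⟨C, c, hC, hc, H⟩ := ct_digits_odd (adm3 (k := 1) odd_one) 1 0 q h.three h.copd h.cop W h.add m h.pos
    (fun i => obs_one (h.free i))
  refine ⟨C, min c 1, hC, lt_min hc one_pos, min_le_right _ _, fun a F hF => ?_⟩
  exact (H 1 (Or.inl rfl) _ (ksync_async hF) a).mono hC (min_le_left _ _)

theorem Ed_iff {l : ℕ} {m : Fin l → ℕ} {W : Fin l → ℕ → ℤ} {a : Fin l → ℤ} {n : ℕ} :
    (∀ i, W i n ≡ a i [ZMOD m i]) ↔ Ed m W a n := by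
  unfold Ed
  refine forall_congr' fun i => ?_
  constructor
  · intro h; exact Int.modEq_iff_dvd.1 h.symm
  · intro h; exact (Int.modEq_iff_dvd.2 h).symm

end Pool.Agent.Run7.h439.DC
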