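import Pool.Agent.Run7.h439.DC.Cls

/-! The limit laws in classes, for events which grow with a threshold. -/

set_option autoImplicit false

namespace Pool.Agent.Run7.h439.DC

open Finset Filter Topology Pool.Agent.Y965.PL

/-- THE LAW IN THE CLASS, for events growing with the threshold -/
theorem cls_law' {E : ℕ → Prop} {ρ C c : ℝ} (hρ0 : 0 ≤ ρ) (hρ1 : ρ ≤ 1) (hc : 0 < c) {L : ℝ → ℕ → Prop}
    (hL : ∀ t t' : ℝ, t ≤ t' → ∀ n, L t n → L t' n) (hT : ∀ t : ℝ, CT E ρ C c (ind (L t)))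
    {A b : ℝ} (hA : 0 ≤ A) (hb : 0 < b) {dd : ℝ → ℝ} (hd : Continuous dd)
    (hlaw : ∀ x, Mn (ind (fun n => L (th A b x n) n)) (dd x)) (x : ℝ) :
    MnS id (ind (fun n => E n ∧ L (th A b x n) n)) (ρ * dd x) := by
  apply MnS_of
  intro ε hε hε1
  obtain ⟨r, hr, hr'⟩ := Metric.continuousAt_iff.1 (hd.continuousAt (x := x)) (ε / 4) (by positivity)
  set θ : ℝ := r / 4 with hθ
  have hθ0 : 0 < θ := by positivity
  have d1 := hr' (x := x + 2 * θ) (by rw [Real.dist_eq, add_sub_cancel_left, abs_of_pos (by positivity)]; linarith)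
  have d2 := hr' (x := x - 2 * θ) (by
    rw [Real.dist_eq, sub_sub_cancel_left, abs_neg, abs_of_pos (by positivity)]; linarith)
  rw [Real.dist_eq, abs_lt] at d1 d2
  set W : ℝ → ℕ → Prop := fun y n => L (th A b y n) n with hW
  have hκ : 0 < ε / 2 / 6 := by positivity
  filter_upwards [half_up (E := E) (C := C) hρ0 hρ1 hc (fun n => ind_nonneg (W (x + 2 * θ)) n) (hlaw (x + 2 * θ))
      (show 0 < ε / 2 by positivity) hκ.le le_rfl,
    half_dn (E := E) (C := C) hρ0 hρ1 hc (fun n => ind_le_one (W (x - 2 * θ)) n) (hlaw (x - 2 * θ))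
      (show 0 < ε / 2 by positivity) hκ.le le_rfl,
    th_cmp hA hb (show x - θ < x by linarith) hκ, th_cmp hA hb (show x < x + θ by linarith) hκ,
    th_cmp hA hb (show x - 2 * θ < x - θ by linarith) hκ, th_cmp hA hb (show x + θ < x + 2 * θ by linarith) hκ]
    with N h1 h2 c1 c2 c3 c4
  have g1 := h1 (ind (W x)) (ind (L (th A b (x + θ) N))) (ind_le_one _) (hT _) (by
    intro n hn1 hn2
    exact ⟨ind_mono (hL _ _ (c2 n hn1 hn2).1 n), ind_mono (hL _ _ (c4 n hn1 hn2).2 n)⟩)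
  have g2 := h2 (ind (W x)) (ind (L (th A b (x - θ) N))) (ind_nonneg _) (hT _) (by
    intro n hn1 hn2
    exact ⟨ind_mono (hL _ _ (c3 n hn1 hn2).1 n), ind_mono (hL _ _ (c1 n hn1 hn2).2 n)⟩)
  have e : ∑ n ∈ Icc 1 N, ind (fun n => E n ∧ L (th A b x n) n) (id n) = ∑ n ∈ Icc 1 N, ind E n * ind (W x) n := by
    apply sum_congr rfl
    intro n _
    rw [← ind_and]; rfl
  rw [e]
  have hN0 : (0 : ℝ) ≤ N := Nat.cast_nonneg _
  have u1 : ρ * dd (x + 2 * θ) * N ≤ ρ * dd x * N + ε / 4 * N := by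
    have : ρ * (dd (x + 2 * θ) - dd x) ≤ 1 * (ε / 4) := by
      rcases le_or_gt 0 (dd (x + 2 * θ) - dd x) with hh | hh
      · exact mul_le_mul hρ1 d1.2.le hh zero_le_one
      · have := mul_nonpos_of_nonneg_of_nonpos hρ0 hh.le
        linarith
    nlinarith
  have u2 : ρ * dd x * N - ε / 4 * N ≤ ρ * dd (x - 2 * θ) * N := by
    have : ρ * (dd x - dd (x - 2 * θ)) ≤ 1 * (ε / 4) := by
      rcases le_or_gt 0 (dd x - dd (x - 2 * θ)) with hh | hh
      · exact mul_le_mul hρ1 (by linarith) hh zero_le_one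
      · have := mul_nonpos_of_nonneg_of_nonpos hρ0 hh.le
        linarith
    nlinarith
  rw [abs_le]
  constructor <;> nlinarith

end Pool.Agent.Run7.h439.DC
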