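import Pool.Agent.Run7.h439.DC.Inv
import Pool.Agent.Run7.h439.DC.Dig
import Pool.Agent.Run7.h439.DC.Gen
import Pool.Agent.H499R2.LT.R4

/-! First entrances of the `3x+d` maps into bounded sets, for the classes defined by digits. -/

set_option autoImplicit false

namespace Pool.Agent.Run7.h439.DC

open Finset Filter Topology Pool.Agent.H319R3.GC Pool.Agent.Y965.GP Pool.Agent.Y965.PS
open Pool.Agent.Y965.PL (Mn MnS th ind ind_pos ind_neg ind_congr Mn_of_Dn)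

/-- functions of the time, of the place, and of the number of the odd terms before, of the first entrance -/
structure OfH (d : ℤ) (A : ℤ → Prop) (f : ℤ → ℝ) : Prop where
  bd : ∀ x, |f x| ≤ 1
  hit : ∀ k x y, FE (Tz d) A k x → FE (Tz d) A k y → (Tz d)^[k] x = (Tz d)^[k] y → ac d k x = ac d k y → f x = f y
  miss : ∀ x y, (∀ k, ¬ FE (Tz d) A k x) → (∀ k, ¬ FE (Tz d) A k y) → f x = f y

theorem OfH.ef {d : ℤ} {A : ℤ → Prop} {f : ℤ → ℝ} (h : OfH d A f) (s : ℤ) : EF 2 m3 (r3 d) s A (fun n => f (s * n)) := by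
  refine ⟨fun n => h.bd _, fun k n n' h1 h2 h3 h4 => ?_, fun n n' h1 h2 => ?_⟩
  · rw [Tm3] at h1 h2 h4
    rw [Mw3, Mw3] at h3
    exact h.hit k _ _ h1 h2 h4 (Int.pow_right_injective (by norm_num) h3)
  · rw [Tm3] at h1 h2
    exact h.miss _ _ h1 h2

/-- THE SUMS IN THE CLASSES of functions of first entrances into sets in `[-R, R]` -/
theorem ofH_ct {d : ℤ} (hd : Odd d) (R : ℕ) {l : ℕ} {q m : Fin l → ℕ} {W : Fin l → ℕ → ℤ} (h : DD 2 q m W) :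
    ∃ C c : ℝ, 0 ≤ C ∧ 0 < c ∧ c ≤ 1 ∧ ∀ s : ℤ, (s = 1 ∨ s = -1) → ∀ A : ℤ → Prop, (∀ x, A x → |x| ≤ (R : ℤ)) →
    ∀ f : ℤ → ℝ, OfH d A f → ∀ a : Fin l → ℤ, CT (Ed m W a) (∏ i, (1 / (m i : ℝ))) C c (fun n => f (s * n)) := by
  obtain ⟨k0, hk0⟩ := ksync_fe (adm3 hd) R
  obtain ⟨C, c, hC, hc, H⟩ := ct_digits (adm3 hd) 2 k0 q h.three h.copd h.cop W h.add m h.pos
    (fun i => obs_one (h.free i))
  refine ⟨C, min c 1, hC, lt_min hc one_pos, min_le_right _ _, fun s hs A hA f hf a => ?_⟩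
  exact (H s hs _ (hk0 s hs A hA _ (hf.ef s)) a).mono hC (min_le_left _ _)

theorem od_ac (d : ℤ) (k : ℕ) (x : ℤ) : Pool.Agent.H499R2.LT.od d k x = (ac d k x : ℤ) := by
  induction k with
  | zero => rfl
  | succ k ih =>
    rw [Pool.Agent.H499R2.LT.od_add, ih, ac_succ]
    have h1 : Pool.Agent.H499R2.LT.od d 1 ((Tz d)^[k] x) = if (Tz d)^[k] x % 2 = 0 then 0 else 1 := by
      rw [Pool.Agent.H499R2.LT.od, Pool.Agent.H499R2.LT.od, add_zero]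
    change _ + Pool.Agent.H499R2.LT.od d 1 ((Tz d)^[k] x) = _
    rw [h1]
    push_cast
    rfl

/-- the constants of the normal law of the first entrances -/
noncomputable def bH : ℝ := Real.log 3 * Real.sqrt (2 / Real.log (4 / 3) ^ 3)

theorem bH_pos : 0 < bH := by
  unfold bH
  have h3 := Real.log_pos (by norm_num : (1 : ℝ) < 3)
  have h4 := Real.log_pos (by norm_num : (1 : ℝ) < 4 / 3)
  positivity

theorem th_H (x : ℝ) (n : ℕ) (hn : 1 ≤ n) : th (2 / Real.log (4 / 3)) bH x n =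
    Real.log n / Pool.Agent.H319R2.Lln.mu + x * Pool.Agent.H499R2.ND.sg * Real.sqrt (Real.log n) := by
  have h4 := Real.log_pos (by norm_num : (1 : ℝ) < 4 / 3)
  rw [Pool.Agent.H499R2.LT.tb2 x n hn]
  unfold th bH
  have e : Real.sqrt (2 * Real.log n / Real.log (4 / 3) ^ 3) = Real.sqrt (2 / Real.log (4 / 3) ^ 3) * Real.sqrt (Real.log n) := by
    rw [← Real.sqrt_mul (by positivity)]
    congr 1
    ring
  rw [e]
  ring

/-- the event: a first entrance into `F` after at most `t` steps, with residues -/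
def LH (d s : ℤ) (F : Finset ℤ) (r : ℕ) (u v : ℤ) (t : ℝ) (n : ℕ) : Prop :=
  ∃ k : ℕ, (k : ℝ) ≤ t ∧ FE (Tz d) (fun x => x ∈ F) k (s * n) ∧ (k : ℤ) ≡ u [ZMOD r] ∧ (ac d k (s * n) : ℤ) ≡ v [ZMOD r]

/-- THE LAW OF THE FIRST ENTRANCES IN THE CLASS -/
theorem hit_law {d : ℤ} (hd : Odd d) (hd3 : ¬ (3 : ℤ) ∣ d) {s : ℤ} (hs : s = 1 ∨ s = -1) (F : Finset ℤ) {δ : ℝ}
    (hδ : ∀ (x : ℝ) (r : ℕ) (u v : ℤ), 1 ≤ r → Pool.Agent.H499R2.ND.Dn (fun n : ℕ => ∃ j : ℕ,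
      (j : ℝ) ≤ Real.log n / Pool.Agent.H319R2.Lln.mu + x * Pool.Agent.H499R2.ND.sg * Real.sqrt (Real.log n) ∧
      ((Pool.Agent.H499R2.ND.Td d)^[j] (s * n) ∈ F ∧ ∀ i < j, (Pool.Agent.H499R2.ND.Td d)^[i] (s * n) ∉ F) ∧
      (j : ℤ) ≡ u [ZMOD r] ∧ Pool.Agent.H499R2.LT.od d j (s * n) ≡ v [ZMOD r]) (δ / r ^ 2 * Pool.Agent.H499R2.ND.Phi x))
    {E : ℕ → Prop} {ρ C c : ℝ} (hρ0 : 0 ≤ ρ) (hρ1 : ρ ≤ 1) (hc : 0 < c)
    (hT : ∀ f : ℤ → ℝ, OfH d (fun x => x ∈ F) f → CT E ρ C c (fun n => f (s * n)))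
    (x : ℝ) {r : ℕ} (u v : ℤ) (hr : 1 ≤ r) :
    MnS id (ind (fun n => E n ∧ LH d s F r u v (th (2 / Real.log (4 / 3)) bH x n) n)) (ρ * (δ / r ^ 2 * Pool.Agent.H499R2.ND.Phi x)) := by
  classical
  have h4 := Real.log_pos (by norm_num : (1 : ℝ) < 4 / 3)
  refine cls_law' (C := C) (L := LH d s F r u v) (dd := fun x => δ / r ^ 2 * Pool.Agent.H499R2.ND.Phi x) hρ0 hρ1 hc ?_ ?_ (by positivity) bH_pos
    (Pool.Agent.H499R2.ND.Phi_continuous.const_mul _) ?_ x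
  · rintro t t' htt n ⟨k, h1, h2⟩
    exact ⟨k, h1.trans htt, h2⟩
  · intro t
    have h1 : OfH d (fun x => x ∈ F) (fun y => if ∃ k : ℕ, (k : ℝ) ≤ t ∧ FE (Tz d) (fun x => x ∈ F) k y ∧ (k : ℤ) ≡ u [ZMOD r] ∧
        (ac d k y : ℤ) ≡ v [ZMOD r] then 1 else 0) := by
      refine ⟨fun y => ?_, fun k y z hy hz _ hyz => ?_, fun y z hy hz => ?_⟩
      · split_ifs <;> simp
      · have e : (∃ k : ℕ, (k : ℝ) ≤ t ∧ FE (Tz d) (fun x => x ∈ F) k y ∧ (k : ℤ) ≡ u [ZMOD r] ∧ (ac d k y : ℤ) ≡ v [ZMOD r]) ↔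
            (∃ k : ℕ, (k : ℝ) ≤ t ∧ FE (Tz d) (fun x => x ∈ F) k z ∧ (k : ℤ) ≡ u [ZMOD r] ∧ (ac d k z : ℤ) ≡ v [ZMOD r]) := by
          constructor
          · rintro ⟨j, h1, h2, h3, h4⟩
            have hj := FE_unique h2 hy
            subst hj
            exact ⟨j, h1, hz, h3, by rw [← hyz]; exact h4⟩
          · rintro ⟨j, h1, h2, h3, h4⟩
            have hj := FE_unique h2 hz
            subst hj
            exact ⟨j, h1, hy, h3, by rw [hyz]; exact h4⟩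
        simp only [e]
      · rw [if_neg, if_neg]
        · rintro ⟨j, _, h2, _⟩; exact hz j h2
        · rintro ⟨j, _, h2, _⟩; exact hy j h2
    exact (hT _ h1).congr fun n => by unfold Pool.Agent.Y965.PL.ind LH; rfl
  · intro y
    refine Mn_of_Dn (Pool.Agent.H499R2.LT.Dn_iff (fun n hn => ?_) (hδ y r u v hr))
    unfold LH
    refine exists_congr fun k => ?_
    rw [th_H y n hn, od_ac]
    rfl

end Pool.Agent.Run7.h439.DC
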