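import Pool.Agent.Run7.h439.DC.Kim
import Pool.Agent.Y965.PL.Inp

/-! Limit laws in classes over which the sums of the functions of the trajectory are proportional. -/

set_option autoImplicit false

namespace Pool.Agent.Run7.h439.DC

open Finset Filter Topology Pool.Agent.Y965.PL
open Pool.Agent.H499R2.HL (H H_unique)
open Pool.Agent.H499R2.LT (odn)
open Pool.Agent.H499R2.ND (Phi Phi_continuous)

/-- the sums of `F` over the class `E` are `ρ` times the sums over all integers -/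
structure CT (E : ℕ → Prop) (ρ C c : ℝ) (F : ℕ → ℝ) : Prop where
  bd : ∀ n, |F n| ≤ 1
  tr : ∀ N : ℕ, 1 ≤ N → |∑ n ∈ Icc 1 N, ind E n * F n - ρ * ∑ n ∈ Icc 1 N, F n| ≤ C * (N : ℝ) ^ (1 - c)

theorem ind_and (P Q : ℕ → Prop) (n : ℕ) : ind (fun n => P n ∧ Q n) n = ind P n * ind Q n := by
  by_cases h1 : P n
  · by_cases h2 : Q n
    · rw [ind_pos h1, ind_pos h2, ind_pos (P := fun n => P n ∧ Q n) ⟨h1, h2⟩, one_mul]
    · rw [ind_pos h1, ind_neg h2, ind_neg (P := fun n => P n ∧ Q n) (fun h => h2 h.2), one_mul]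
  · rw [ind_neg h1, ind_neg (P := fun n => P n ∧ Q n) (fun h => h1 h.1), zero_mul]

theorem few_le (N : ℕ) {κ a : ℝ} (hκ : 0 ≤ κ) (ha : 0 ≤ a) :
    ∑ n ∈ Icc 1 N, (if (n : ℝ) ≤ κ * N then a else 0) ≤ a * (κ * N) := by
  rw [← sum_filter, sum_const, nsmul_eq_mul, mul_comm]
  apply mul_le_mul_of_nonneg_left _ ha
  have h2 : (Icc 1 N).filter (fun n : ℕ => (n : ℝ) ≤ κ * N) ⊆ Icc 1 ⌊κ * N⌋₊ := by
    intro n hn
    rw [mem_filter, mem_Icc] at hn
    rw [mem_Icc]
    exact ⟨hn.1.1, Nat.le_floor hn.2⟩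
  have h3 := card_le_card h2
  rw [Nat.card_Icc, Nat.add_sub_cancel] at h3
  have h4 : (((Icc 1 N).filter (fun n : ℕ => (n : ℝ) ≤ κ * N)).card : ℝ) ≤ ⌊κ * N⌋₊ := by exact_mod_cast h3
  exact h4.trans (Nat.floor_le (by positivity))

theorem small_err (C : ℝ) {c ε : ℝ} (hc : 0 < c) (hε : 0 < ε) : ∀ᶠ N : ℕ in atTop, C * (N : ℝ) ^ (1 - c) ≤ ε * N := by
  have hlim : Tendsto (fun X : ℕ => C * (X : ℝ) ^ (-c)) atTop (𝓝 0) := by
    have h1 := (tendsto_rpow_neg_atTop hc).comp tendsto_natCast_atTop_atTop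
    have h2 := h1.const_mul C
    rw [mul_zero] at h2
    exact h2
  filter_upwards [hlim.eventually (gt_mem_nhds hε), eventually_ge_atTop 1] with X h1 h2
  have hXpos : (0 : ℝ) < X := by exact_mod_cast h2
  have e : (X : ℝ) ^ (1 - c) = (X : ℝ) ^ (-c) * X := by
    rw [sub_eq_neg_add, Real.rpow_add hXpos, Real.rpow_one]
  rw [e, ← mul_assoc]
  exact mul_le_mul_of_nonneg_right h1.le hXpos.le

theorem half_up {E : ℕ → Prop} {ρ C c : ℝ} (hρ0 : 0 ≤ ρ) (hρ1 : ρ ≤ 1) (hc : 0 < c) {u : ℕ → ℝ} (hu0 : ∀ n, 0 ≤ u n)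
    {du : ℝ} (hu : Mn u du) {ε κ : ℝ} (hε : 0 < ε) (hκ : 0 ≤ κ) (hκε : κ ≤ ε / 6) :
    ∀ᶠ N : ℕ in atTop, ∀ w F : ℕ → ℝ, (∀ n, w n ≤ 1) → CT E ρ C c F →
      (∀ n : ℕ, κ * N < n → n ≤ N → w n ≤ F n ∧ F n ≤ u n) →
      ∑ n ∈ Icc 1 N, ind E n * w n ≤ ρ * du * N + ε * N := by
  have hu' : MnS id u du := hu
  filter_upwards [hu'.ev (show 0 < ε / 6 by positivity), small_err C hc (show 0 < ε / 6 by positivity),
    eventually_ge_atTop 1] with N h1 h2 h3 w F hw hF h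
  have hN0 : (0 : ℝ) ≤ N := Nat.cast_nonneg _
  have e1 : ∑ n ∈ Icc 1 N, ind E n * w n ≤ ∑ n ∈ Icc 1 N, (ind E n * F n + (if (n : ℝ) ≤ κ * N then 2 else 0)) := by
    apply sum_le_sum
    intro n hn
    rw [mem_Icc] at hn
    have i0 := ind_nonneg E n
    have i1 := ind_le_one E n
    split_ifs with hk
    · have a1 := (abs_le.1 (hF.bd n)).1
      have a2 := hw n
      nlinarith
    · rw [add_zero]
      exact mul_le_mul_of_nonneg_left (h n (not_le.1 hk) hn.2).1 i0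
  rw [sum_add_distrib] at e1
  have e2 := few_le N hκ (show (0 : ℝ) ≤ 2 by norm_num)
  have e3 := (abs_le.1 (hF.tr N h3)).2
  have e4 : ∑ n ∈ Icc 1 N, F n ≤ ∑ n ∈ Icc 1 N, (u n + (if (n : ℝ) ≤ κ * N then 1 else 0)) := by
    apply sum_le_sum
    intro n hn
    rw [mem_Icc] at hn
    split_ifs with hk
    · have a1 := (abs_le.1 (hF.bd n)).2
      have := hu0 n
      linarith
    · rw [add_zero]
      exact (h n (not_le.1 hk) hn.2).2
  rw [sum_add_distrib] at e4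
  have e5 := few_le N hκ (show (0 : ℝ) ≤ 1 by norm_num)
  have e6 := (abs_le.1 h1).2
  simp only [id_eq] at e6
  have e7 : κ * N ≤ ε / 6 * N := mul_le_mul_of_nonneg_right hκε hN0
  have e8 : ∑ n ∈ Icc 1 N, F n ≤ du * N + 2 * (ε / 6 * N) := by linarith
  have e9 : ρ * ∑ n ∈ Icc 1 N, F n ≤ ρ * du * N + 2 * (ε / 6 * N) := by
    calc ρ * ∑ n ∈ Icc 1 N, F n ≤ ρ * (du * N + 2 * (ε / 6 * N)) := mul_le_mul_of_nonneg_left e8 hρ0
      _ = ρ * du * N + ρ * (2 * (ε / 6 * N)) := by ring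
      _ ≤ ρ * du * N + 1 * (2 * (ε / 6 * N)) := by
          have : 0 ≤ 2 * (ε / 6 * N) := by positivity
          have := mul_le_mul_of_nonneg_right hρ1 this
          linarith
      _ = _ := by ring
  have hεN : 0 ≤ ε * N := by positivity
  linarith

theorem half_dn {E : ℕ → Prop} {ρ C c : ℝ} (hρ0 : 0 ≤ ρ) (hρ1 : ρ ≤ 1) (hc : 0 < c) {u : ℕ → ℝ} (hu1 : ∀ n, u n ≤ 1)
    {du : ℝ} (hu : Mn u du) {ε κ : ℝ} (hε : 0 < ε) (hκ : 0 ≤ κ) (hκε : κ ≤ ε / 6) :
    ∀ᶠ N : ℕ in atTop, ∀ w F : ℕ → ℝ, (∀ n, 0 ≤ w n) → CT E ρ C c F →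
      (∀ n : ℕ, κ * N < n → n ≤ N → u n ≤ F n ∧ F n ≤ w n) →
      ρ * du * N - ε * N ≤ ∑ n ∈ Icc 1 N, ind E n * w n := by
  have hu' : MnS id u du := hu
  filter_upwards [hu'.ev (show 0 < ε / 6 by positivity), small_err C hc (show 0 < ε / 6 by positivity),
    eventually_ge_atTop 1] with N h1 h2 h3 w F hw hF h
  have hN0 : (0 : ℝ) ≤ N := Nat.cast_nonneg _
  have e1 : ∑ n ∈ Icc 1 N, ind E n * F n ≤ ∑ n ∈ Icc 1 N, (ind E n * w n + (if (n : ℝ) ≤ κ * N then 1 else 0)) := by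
    apply sum_le_sum
    intro n hn
    rw [mem_Icc] at hn
    have i0 := ind_nonneg E n
    have i1 := ind_le_one E n
    split_ifs with hk
    · have a1 := (abs_le.1 (hF.bd n)).2
      have a2 := hw n
      nlinarith
    · rw [add_zero]
      exact mul_le_mul_of_nonneg_left (h n (not_le.1 hk) hn.2).2 i0
  rw [sum_add_distrib] at e1
  have e2 := few_le N hκ (show (0 : ℝ) ≤ 1 by norm_num)
  have e3 := (abs_le.1 (hF.tr N h3)).1
  have e4 : ∑ n ∈ Icc 1 N, u n ≤ ∑ n ∈ Icc 1 N, (F n + (if (n : ℝ) ≤ κ * N then 2 else 0)) := by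
    apply sum_le_sum
    intro n hn
    rw [mem_Icc] at hn
    split_ifs with hk
    · have a1 := (abs_le.1 (hF.bd n)).1
      have := hu1 n
      linarith
    · rw [add_zero]
      exact (h n (not_le.1 hk) hn.2).1
  rw [sum_add_distrib] at e4
  have e5 := few_le N hκ (show (0 : ℝ) ≤ 2 by norm_num)
  have e6 := (abs_le.1 h1).1
  simp only [id_eq] at e6
  have e7 : κ * N ≤ ε / 6 * N := mul_le_mul_of_nonneg_right hκε hN0
  have e8 : du * N - 3 * (ε / 6 * N) ≤ ∑ n ∈ Icc 1 N, F n := by linarith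
  have e9 : ρ * du * N - 3 * (ε / 6 * N) ≤ ρ * ∑ n ∈ Icc 1 N, F n := by
    calc ρ * du * N - 3 * (ε / 6 * N) ≤ ρ * (du * N - 3 * (ε / 6 * N)) := by
          have : 0 ≤ 3 * (ε / 6 * N) := by positivity
          have := mul_le_mul_of_nonneg_right hρ1 this
          linarith
      _ ≤ _ := mul_le_mul_of_nonneg_left e8 hρ0
  have hεN : 0 ≤ ε * N := by positivity
  linarith

/-- THE LAW IN THE CLASS -/
theorem cls_law {E P : ℕ → Prop} {ρ C c : ℝ} (hρ0 : 0 ≤ ρ) (hρ1 : ρ ≤ 1) (hc : 0 < c) {val : ℕ → ℕ → ℝ}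
    {cls : ℕ → ℕ → Prop} (hT : ∀ t : ℝ, CT E ρ C c (ind (fun n => P n ∧ Lv val cls (fun _ => t) n)))
    {A b : ℝ} (hA : 0 ≤ A) (hb : 0 < b) {dd : ℝ → ℝ} (hd : Continuous dd)
    (hlaw : ∀ x, Mn (ind (fun n => P n ∧ Lv val cls (th A b x) n)) (dd x)) (x : ℝ) :
    MnS id (ind (fun n => (E n ∧ P n) ∧ Lv val cls (th A b x) n)) (ρ * dd x) := by
  apply MnS_of
  intro ε hε hε1
  obtain ⟨r, hr, hr'⟩ := Metric.continuousAt_iff.1 (hd.continuousAt (x := x)) (ε / 4) (by positivity)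
  set θ : ℝ := r / 4 with hθ
  have hθ0 : 0 < θ := by positivity
  have d1 := hr' (x := x + 2 * θ) (by rw [Real.dist_eq, add_sub_cancel_left, abs_of_pos (by positivity)]; linarith)
  have d2 := hr' (x := x - 2 * θ) (by
    rw [Real.dist_eq, sub_sub_cancel_left, abs_neg, abs_of_pos (by positivity)]; linarith)
  rw [Real.dist_eq, abs_lt] at d1 d2
  set W : ℝ → ℕ → Prop := fun y n => P n ∧ Lv val cls (th A b y) n with hW
  have hκ : 0 < ε / 2 / 6 := by positivity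
  filter_upwards [half_up (E := E) (C := C) hρ0 hρ1 hc (fun n => ind_nonneg (W (x + 2 * θ)) n) (hlaw (x + 2 * θ))
      (show 0 < ε / 2 by positivity) hκ.le le_rfl,
    half_dn (E := E) (C := C) hρ0 hρ1 hc (fun n => ind_le_one (W (x - 2 * θ)) n) (hlaw (x - 2 * θ))
      (show 0 < ε / 2 by positivity) hκ.le le_rfl,
    th_cmp hA hb (show x - θ < x by linarith) hκ, th_cmp hA hb (show x < x + θ by linarith) hκ,
    th_cmp hA hb (show x - 2 * θ < x - θ by linarith) hκ, th_cmp hA hb (show x + θ < x + 2 * θ by linarith) hκ]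
    with N h1 h2 c1 c2 c3 c4
  have g1 := h1 (ind (W x)) (ind (fun n => P n ∧ Lv val cls (fun _ => th A b (x + θ) N) n)) (ind_le_one _) (hT _) (by
    intro n hn1 hn2
    constructor
    · apply ind_mono
      rintro ⟨g0, k, g1, g2, g3⟩
      exact ⟨g0, k, g1, g2.trans (c2 n hn1 hn2).1, g3⟩
    · apply ind_mono
      rintro ⟨g0, k, g1, g2, g3⟩
      exact ⟨g0, k, g1, g2.trans (c4 n hn1 hn2).2, g3⟩)
  have g2 := h2 (ind (W x)) (ind (fun n => P n ∧ Lv val cls (fun _ => th A b (x - θ) N) n)) (ind_nonneg _) (hT _) (by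
    intro n hn1 hn2
    constructor
    · apply ind_mono
      rintro ⟨g0, k, g1, g2, g3⟩
      exact ⟨g0, k, g1, g2.trans (c3 n hn1 hn2).1, g3⟩
    · apply ind_mono
      rintro ⟨g0, k, g1, g2, g3⟩
      exact ⟨g0, k, g1, g2.trans (c1 n hn1 hn2).2, g3⟩)
  have e : ∑ n ∈ Icc 1 N, ind (fun n => (E n ∧ P n) ∧ Lv val cls (th A b x) n) (id n) = ∑ n ∈ Icc 1 N, ind E n * ind (W x) n := by
    apply sum_congr rfl
    intro n _
    rw [← ind_and]
    exact ind_congr and_assoc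
  rw [e]
  have hN0 : (0 : ℝ) ≤ N := Nat.cast_nonneg _
  have u1 : ρ * dd (x + 2 * θ) * N ≤ ρ * dd x * N + ε / 4 * N := by
    have : ρ * (dd (x + 2 * θ) - dd x) ≤ 1 * (ε / 4) := by
      rcases le_or_gt 0 (dd (x + 2 * θ) - dd x) with hh | hh
      · exact mul_le_mul hρ1 d1.2.le hh zero_le_one
      · have := mul_nonpos_of_nonneg_of_nonpos hρ0 hh.le
        linarith
    nlinarith
  have u2 : ρ * dd x * N - ε / 4 * N ≤ ρ * dd (x - 2 * θ) * N := by
    have : ρ * (dd x - dd (x - 2 * θ)) ≤ 1 * (ε / 4) := by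
      rcases le_or_gt 0 (dd x - dd (x - 2 * θ)) with hh | hh
      · exact mul_le_mul hρ1 (by linarith) hh zero_le_one
      · have := mul_nonpos_of_nonneg_of_nonpos hρ0 hh.le
        linarith
    nlinarith
  rw [abs_le]
  constructor <;> nlinarith

/-- a fixed set -/
theorem cls_set {E P : ℕ → Prop} {ρ C c : ℝ} (hρ0 : 0 ≤ ρ) (hρ1 : ρ ≤ 1) (hc : 0 < c) (hT : CT E ρ C c (ind P)) {δ : ℝ}
    (h : Mn (ind P) δ) : MnS id (ind (fun n => E n ∧ P n)) (ρ * δ) := by
  apply MnS_of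
  intro ε hε hε1
  filter_upwards [half_up (E := E) (C := C) hρ0 hρ1 hc (fun n => ind_nonneg P n) h hε (κ := 0) le_rfl (by positivity),
    half_dn (E := E) (C := C) hρ0 hρ1 hc (fun n => ind_le_one P n) h hε (κ := 0) le_rfl (by positivity)] with N h1 h2
  have g1 := h1 (ind P) (ind P) (ind_le_one _) hT (fun _ _ _ => ⟨le_rfl, le_rfl⟩)
  have g2 := h2 (ind P) (ind P) (ind_nonneg _) hT (fun _ _ _ => ⟨le_rfl, le_rfl⟩)
  have e : ∑ n ∈ Icc 1 N, ind (fun n => E n ∧ P n) (id n) = ∑ n ∈ Icc 1 N, ind E n * ind P n := by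
    apply sum_congr rfl
    intro n _
    rw [← ind_and]; rfl
  rw [e, abs_le]
  constructor <;> linarith

open Classical in
/-- TRUNCATED AVERAGES along a sequence whose logarithms are `c log n + O(1)` -/
theorem avg {s : ℕ → ℕ} (hs : ∀ n, n ≤ s n) {c : ℝ} (hc0 : 0 < c) (hlog : ∀ η : ℝ, 0 < η → ∃ D : ℝ, 0 < D ∧ ∀ X n : ℕ,
      1 ≤ n → n ≤ X → η * X ≤ n → |Real.log (s n) - c * Real.log X| ≤ D)
    {E : ℕ → Prop} {val : ℕ → ℕ → ℝ} (hv : ∀ k o, 0 ≤ val k o) {A b δ e : ℝ}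
    (hA : 0 < A) (hb : 0 < b) (hL : Law s E val A b δ e) {f : ℝ → ℕ → ℝ} (hf : IsTr val f) {Λ : ℝ}
    (hΛ : A * c < Λ) :
    Tendsto (fun X : ℕ => (∑ n ∈ Icc 1 X, (if E (s n) then f (Λ * Real.log X) (s n) else 0)) / (X * Real.log X))
      atTop (𝓝 (δ * (A * c) + (e - δ) * Λ)) := by
  have hAc : 0 < A * c := by positivity
  have hΛ0 : 0 < Λ := by linarith
  rw [Metric.tendsto_atTop]
  intro ε hε
  -- parameters
  set κ' : ℝ := min (ε / 8) ((Λ - A * c) / 2) with hκ'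
  have hκ'0 : 0 < κ' := lt_min (by positivity) (by linarith)
  have hκ'1 : κ' ≤ ε / 8 := min_le_left _ _
  have hκ'2 : κ' ≤ (Λ - A * c) / 2 := min_le_right _ _
  set κ : ℝ := κ' / (4 * c) with hκ
  have hκ0 : 0 < κ := by positivity
  set η : ℝ := min 1 (ε / (8 * Λ)) with hη
  have hη0 : 0 < η := lt_min one_pos (by positivity)
  have hη1 : η ≤ 1 := min_le_left _ _
  have hη2 : η * Λ ≤ ε / 8 := by
    have h1 : η ≤ ε / (8 * Λ) := min_le_right _ _
    calc η * Λ ≤ ε / (8 * Λ) * Λ := mul_le_mul_of_nonneg_right h1 hΛ0.le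
      _ = ε / 8 := by field_simp
  obtain ⟨D, hD0, hDl⟩ := hlog η hη0
  set u : ℕ → ℝ := fun m => A * c * ind (fun n => E n ∧ ∃ k, H k n) m + Λ * (ind E m - ind (fun n => E n ∧ ∃ k, H k n) m) with hu
  have hMu : MnS s u (A * c * δ + Λ * (e - δ)) := (hL.fin.mul _).add ((hL.all.sub hL.fin).mul _)
  have hMb := bad_zero hs hb hL hκ0
  obtain ⟨N, hN⟩ := ((hMu.ev (show 0 < ε / 8 by positivity)).and ((hMb.ev (show 0 < ε / (8 * Λ) by positivity)).and
    ((tlog.eventually_ge_atTop (D / c)).and ((tlog.eventually_ge_atTop ((A + κ) * D * 4 / κ')).and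
    ((tlog.eventually_ge_atTop 1).and (eventually_ge_atTop 1)))))).exists_forall_of_atTop
  refine ⟨N, fun X hX => ?_⟩
  obtain ⟨g1, g2, g3, g4, g5, g6⟩ := hN X hX
  set L := Real.log (X : ℝ) with hLdef
  have hX0 : (0 : ℝ) < X := by exact_mod_cast g6
  have hL0 : 0 < L := by linarith
  rw [div_le_iff₀ hκ'0] at g4
  set w : ℕ → ℝ := fun m => (if E m then f (Λ * L) m else 0) / L with hw
  have hf0 : ∀ m, 0 ≤ f (Λ * L) m ∧ f (Λ * L) m ≤ Λ * L := by
    intro m
    by_cases h : ∃ k, H k m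
    · obtain ⟨k, hk⟩ := h
      rw [hf.1 _ _ k hk]
      exact ⟨le_min (hv _ _) (by positivity), min_le_right _ _⟩
    · rw [hf.2 _ _ h]
      exact ⟨by positivity, le_rfl⟩
  have hfsub : ∀ m, ind (fun n => E n ∧ ∃ k, H k n) m ≤ ind E m := fun m => ind_mono fun h => h.1
  have hu0 : ∀ m, 0 ≤ u m ∧ u m ≤ Λ := by
    intro m
    have h1 := ind_nonneg (fun n => E n ∧ ∃ k, H k n) m
    have h2 := hfsub m
    have h3 := ind_le_one E m
    rw [hu]
    dsimp only
    constructor <;> nlinarith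
  have hw0 : ∀ m, 0 ≤ w m ∧ w m ≤ Λ := by
    intro m
    rw [hw]
    dsimp only
    obtain ⟨h1, h2⟩ := hf0 m
    split_ifs
    · exact ⟨by positivity, by rw [div_le_iff₀ hL0]; exact h2⟩
    · rw [zero_div]; exact ⟨le_rfl, hΛ0.le⟩
  -- pointwise
  have key : ∀ n ∈ Icc 1 X, |w (s n) - u (s n)| ≤ κ' + Λ * ind (fun n => E n ∧ Bad val A κ n) (s n)
      + (if (n : ℝ) ≤ η * X then Λ else 0) := by
    intro n hn
    rw [mem_Icc] at hn
    have hwu : |w (s n) - u (s n)| ≤ Λ := by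
      have h1 := hw0 (s n)
      have h2 := hu0 (s n)
      rw [abs_le]; constructor <;> linarith
    have hin := ind_nonneg (fun n => E n ∧ Bad val A κ n) (s n)
    by_cases hs : (n : ℝ) ≤ η * X
    · rw [if_pos hs]
      have : 0 ≤ Λ * ind (fun n => E n ∧ Bad val A κ n) (s n) := by positivity
      linarith
    · rw [if_neg hs, add_zero]
      push Not at hs
      by_cases hB : E (s n) ∧ Bad val A κ (s n)
      · rw [ind_pos (P := fun n => E n ∧ Bad val A κ n) hB]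
        linarith
      · rw [ind_neg (P := fun n => E n ∧ Bad val A κ n) hB, mul_zero, add_zero]
        by_cases hE : E (s n)
        · by_cases hfin : ∃ k, H k (s n)
          · obtain ⟨k, hk⟩ := hfin
            have e1 : ind (fun n => E n ∧ ∃ k, H k n) (s n) = 1 := ind_pos ⟨hE, k, hk⟩
            have e2 : ind E (s n) = 1 := ind_pos hE
            have h1 : |val k (odn k (s n)) - A * Real.log (s n)| ≤ κ * Real.log (s n) := by
              by_contra hcon
              exact hB ⟨hE, k, hk, not_le.1 hcon⟩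
            have h2 := hDl X n hn.1 hn.2 hs.le
            rw [← hLdef] at h2
            rw [abs_le] at h1 h2
            have h3 : |val k (odn k (s n)) - A * c * L| ≤ κ' * L := by
              have h4 : (A + κ) * D ≤ κ' * L / 4 := by linarith
              have h5 : κ * (c * L) = κ' * L / 4 := by rw [hκ]; field_simp
              rw [abs_le]
              constructor
              · nlinarith [h1.1, h2.1, h2.2, mul_pos hκ'0 hL0]
              · nlinarith [h1.2, h2.1, h2.2, mul_pos hκ'0 hL0]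
            have h4 : f (Λ * L) (s n) = val k (odn k (s n)) := by
              rw [hf.1 _ _ k hk]
              apply min_eq_left
              have := (abs_le.1 h3).2
              nlinarith
            rw [hw, hu]
            dsimp only
            rw [if_pos hE, e1, e2, h4]
            have e3 : val k (odn k (s n)) / L - (A * c * 1 + Λ * (1 - 1)) = (val k (odn k (s n)) - A * c * L) / L := by
              field_simp
              ring
            rw [e3, abs_div, abs_of_pos hL0, div_le_iff₀ hL0]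
            exact h3
          · have e1 : ind (fun n => E n ∧ ∃ k, H k n) (s n) = 0 := ind_neg fun h => hfin h.2
            have e2 : ind E (s n) = 1 := ind_pos hE
            rw [hw, hu]
            dsimp only
            rw [if_pos hE, e1, e2, hf.2 _ _ hfin]
            have e3 : Λ * L / L - (A * c * 0 + Λ * (1 - 0)) = 0 := by field_simp; ring
            rw [e3, abs_zero]; exact hκ'0.le
        · have e1 : ind (fun n => E n ∧ ∃ k, H k n) (s n) = 0 := ind_neg fun h => hE h.1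
          have e2 : ind E (s n) = 0 := ind_neg hE
          rw [hw, hu]
          dsimp only
          rw [if_neg hE, e1, e2]
          simp
          exact hκ'0.le
  -- the sum
  have hsum : |∑ n ∈ Icc 1 X, w (s n) - ∑ n ∈ Icc 1 X, u (s n)| ≤ κ' * X +
      Λ * ∑ n ∈ Icc 1 X, ind (fun n => E n ∧ Bad val A κ n) (s n) + Λ * (η * X) := by
    rw [← sum_sub_distrib]
    refine (abs_sum_le_sum_abs _ _).trans ((sum_le_sum key).trans ?_)
    rw [sum_add_distrib, sum_add_distrib, ← mul_sum, sum_const, Nat.card_Icc, Nat.add_sub_cancel, nsmul_eq_mul]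
    have h1 := few_le X hη0.le hΛ0.le
    linarith
  have hbad : Λ * ∑ n ∈ Icc 1 X, ind (fun n => E n ∧ Bad val A κ n) (s n) ≤ ε / 8 * X := by
    have h1 := (abs_le.1 g2).2
    have h2 : Λ * ∑ n ∈ Icc 1 X, ind (fun n => E n ∧ Bad val A κ n) (s n) ≤ Λ * (ε / (8 * Λ) * X) :=
      mul_le_mul_of_nonneg_left (by linarith) hΛ0.le
    have e3 : Λ * (ε / (8 * Λ) * X) = ε / 8 * X := by field_simp
    linarith
  have e4 : (∑ n ∈ Icc 1 X, (if E (s n) then f (Λ * L) (s n) else 0)) / (X * L) = (∑ n ∈ Icc 1 X, w (s n)) / X := by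
    rw [hw]
    dsimp only
    rw [← sum_div]
    field_simp
  rw [Real.dist_eq, e4]
  have e5 : (∑ n ∈ Icc 1 X, w (s n)) / X - (δ * (A * c) + (e - δ) * Λ)
      = (∑ n ∈ Icc 1 X, w (s n) - (A * c * δ + Λ * (e - δ)) * X) / X := by
    field_simp
  rw [e5, abs_div, abs_of_pos hX0, div_lt_iff₀ hX0]
  have h7 : |∑ n ∈ Icc 1 X, w (s n) - (A * c * δ + Λ * (e - δ)) * X| ≤
      |∑ n ∈ Icc 1 X, w (s n) - ∑ n ∈ Icc 1 X, u (s n)| +
      |∑ n ∈ Icc 1 X, u (s n) - (A * c * δ + Λ * (e - δ)) * X| := by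
    have e6 : ∑ n ∈ Icc 1 X, w (s n) - (A * c * δ + Λ * (e - δ)) * X =
      (∑ n ∈ Icc 1 X, w (s n) - ∑ n ∈ Icc 1 X, u (s n)) +
      (∑ n ∈ Icc 1 X, u (s n) - (A * c * δ + Λ * (e - δ)) * X) := by ring
    rw [e6]; exact abs_add_le _ _
  have h8 : κ' * X ≤ ε / 8 * X := mul_le_mul_of_nonneg_right hκ'1 hX0.le
  have h9 : Λ * (η * X) ≤ ε / 8 * X := by
    have := mul_le_mul_of_nonneg_right hη2 hX0.le
    linarith
  nlinarith

theorem log_id (η : ℝ) (hη : 0 < η) : ∃ D : ℝ, 0 < D ∧ ∀ X n : ℕ,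
      1 ≤ n → n ≤ X → η * X ≤ n → |Real.log (id n : ℕ) - 1 * Real.log X| ≤ D := by
  refine ⟨|Real.log η| + 1, by positivity, fun X n h1 h2 h3 => ?_⟩
  have hn0 : (0 : ℝ) < n := by exact_mod_cast h1
  have hX0 : (0 : ℝ) < X := by exact_mod_cast (by omega : 0 < X)
  have h5 : Real.log n ≤ Real.log X := Real.log_le_log hn0 (by exact_mod_cast h2)
  have h6 : Real.log X ≤ Real.log n + |Real.log η| := by
    have h7 := Real.log_le_log (by positivity) h3
    rw [Real.log_mul hη.ne' hX0.ne'] at h7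
    have := neg_abs_le (Real.log η)
    linarith
  rw [id_eq, one_mul, abs_le]
  constructor <;> linarith

end Pool.Agent.Run7.h439.DC
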