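import Pool.Agent.Run7.h439.DC.Orth
import Pool.Agent.Y55.DS.Quant

/-! Correlations of products of strongly multiplicative functions in coprime bases. -/

set_option autoImplicit false

namespace Pool.Agent.Run7.h439.DC

open Finset Pool.Agent.Y55.DS

/-- products of the given strongly multiplicative functions and a twist -/
def ZD {ι : Type*} [Fintype ι] (f : ι → ℕ → ℂ) (z : ℕ → ℂ) : Prop :=
  ∃ w : ℕ → ℂ, (∀ n, ‖w n‖ = 1) ∧ (∀ h, ∃ w0 : ℂ, ‖w0‖ = 1 ∧ ∀ n, w n * (starRingEnd ℂ) (w (n + h)) = w0) ∧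
    z = fun n => w n * ∏ i, f i n

theorem ZD_norm {ι : Type*} [Fintype ι] {q : ι → ℕ} {f : ι → ℕ → ℂ} (hf : ∀ i, SM (q i) (f i)) {z : ℕ → ℂ} (hz : ZD f z)
    (n : ℕ) : ‖z n‖ ≤ 1 := by
  obtain ⟨w, hw1, -, rfl⟩ := hz
  rw [norm_mul, hw1, one_mul, norm_prod, prod_congr rfl fun i _ => (hf i).1 n, prod_const_one]

/-- the correlations -/
theorem corr_digits {ι : Type*} [Fintype ι] [DecidableEq ι] {d : ℕ} (hd : 1 ≤ d) (q : ι → ℕ) (hq : ∀ i, 3 ≤ q i)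
    (hdq : ∀ i, Nat.Coprime d (q i)) (hc : ∀ i j, i ≠ j → Nat.Coprime (q i) (q j)) {f : ι → ℕ → ℂ} (hf : ∀ i, SM (q i) (f i))
    (i0 : ι) (hnc : ¬ ∀ n, f i0 n = f i0 1 ^ n) : Corr d (fun _ => ZD f) := by
  classical
  obtain ⟨ρ, hρ0, hρ1, hb0, hb1⟩ := nondeg (hq i0) (hf i0) hnc
  set p : ι → ℕ := fun i => q i ^ 2 with hp
  have hp9 : ∀ i, 9 ≤ p i := by
    intro i
    have : 3 ^ 2 ≤ q i ^ 2 := Nat.pow_le_pow_left (hq i) 2
    exact this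
  have hp0 : ∀ i, 0 < p i := fun i => by have := hp9 i; omega
  have hfp : ∀ i, SM (p i) (f i) := fun i => (hf i).pow (by have := hq i; omega) 2
  have hp9R : ∀ i, (9 : ℝ) ≤ p i := fun i => by exact_mod_cast hp9 i
  set p0 : ℝ := (p i0 : ℝ) with hp0R
  have hp09 : 9 ≤ p0 := hp9R i0
  set θ : ℝ := (p0 - 1 + ρ) / p0 with hθ
  have hθ1 : θ < 1 := by rw [hθ, div_lt_one (by linarith)]; linarith
  have hθ0 : 8 / 9 ≤ θ := by rw [hθ, div_le_div_iff₀ (by norm_num) (by linarith)]; linarith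
  have hθp : 0 < θ := by linarith
  obtain ⟨l, hl⟩ := exists_pow_lt_of_lt_one (show (0 : ℝ) < 1 / 4 by norm_num) hθ1
  refine ⟨p0 ^ l, one_le_pow₀ (by linarith), ?_⟩
  intro E A hA1
  have hdR : (1 : ℝ) ≤ d := by exact_mod_cast hd
  obtain ⟨M0, hM0⟩ := pow_unbounded_of_one_lt (4 * A) (show (1 : ℝ) < 9 by norm_num)
  set M := M0 + l with hMdef
  have hM : 4 * A ≤ 9 ^ M := hM0.le.trans (pow_le_pow_right₀ (by norm_num) (by omega))
  set P : ℝ := ∏ i, (p i : ℝ) with hP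
  have hP1 : 1 ≤ P := by
    rw [hP]
    have : ∏ i : ι, (1 : ℝ) ≤ ∏ i, (p i : ℝ) := prod_le_prod (fun _ _ => zero_le_one) (fun i _ => by linarith [hp9R i])
    simpa using this
  have hPM : 1 ≤ P ^ M := one_le_pow₀ hP1
  have hdE : (1 : ℝ) ≤ (d : ℝ) ^ E := one_le_pow₀ hdR
  set B : ℝ := (d : ℝ) ^ E * P ^ M * A * 4 with hB
  have hPA : 1 ≤ P ^ M * A := one_le_mul_of_one_le_of_one_le hPM hA1
  have h2PA : 1 ≤ (d : ℝ) ^ E * P ^ M * A := by rw [mul_assoc]; exact one_le_mul_of_one_le_of_one_le hdE hPA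
  set r : ℝ := (Fintype.card ι : ℝ) with hr
  have hr0 : 0 ≤ r := Nat.cast_nonneg _
  refine ⟨B, 5 + 3 * r, by rw [hB]; linarith, by positivity, ?_⟩
  rintro K N hK z ⟨w, hw1, hw, rfl⟩
  set u : ℝ := (1 / 4) ^ K with hu
  have hu0 : 0 < u := by positivity
  have hu1 : u ≤ 1 := pow_le_one₀ (by norm_num) (by norm_num)
  have hN1 : (1 : ℝ) ≤ N := by
    refine le_trans ?_ hK
    apply one_le_pow₀
    rw [hB]; linarith
  have hN0 : (0 : ℝ) < N := by linarith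
  -- bounds in terms of `N`
  have hBK : ((d : ℝ) ^ E * P ^ M * A) ^ K ≤ N * u := by
    have e : ((d : ℝ) ^ E * P ^ M * A) ^ K = B ^ K * u := by
      rw [hB, hu, ← mul_pow]; congr 1; ring
    rw [e]
    exact mul_le_mul_of_nonneg_right hK hu0.le
  have hdEK : (1 : ℝ) ≤ ((d : ℝ) ^ E) ^ K := one_le_pow₀ hdE
  have hPMK : (1 : ℝ) ≤ (P ^ M) ^ K := one_le_pow₀ hPM
  have hAK : (1 : ℝ) ≤ A ^ K := one_le_pow₀ hA1
  have hprod : ((d : ℝ) ^ E * P ^ M * A) ^ K = ((d : ℝ) ^ E) ^ K * (P ^ M) ^ K * A ^ K := by rw [mul_pow, mul_pow]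
  rw [hprod] at hBK
  have n1 : ((d : ℝ) ^ E) ^ K ≤ N * u := by
    refine le_trans ?_ hBK
    rw [mul_assoc]
    exact le_mul_of_one_le_right (by positivity) (one_le_mul_of_one_le_of_one_le hPMK hAK)
  have n2 : ((d : ℝ) ^ E) ^ K * (P ^ M) ^ K ≤ N * u := by
    refine le_trans ?_ hBK
    exact le_mul_of_one_le_right (by positivity) hAK
  have n3 : ((d : ℝ) ^ E) ^ K * A ^ K ≤ N * u := by
    refine le_trans ?_ hBK
    have h0 : 0 ≤ ((d : ℝ) ^ E) ^ K * A ^ K := by positivity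
    calc ((d : ℝ) ^ E) ^ K * A ^ K = (((d : ℝ) ^ E) ^ K * A ^ K) * 1 := by ring
      _ ≤ (((d : ℝ) ^ E) ^ K * A ^ K) * (P ^ M) ^ K := mul_le_mul_of_nonneg_left hPMK h0
      _ = _ := by ring
  have nle : ∀ x : ℝ, x ≤ N * u → x ≤ N := by
    intro x hx
    exact hx.trans (mul_le_of_le_one_right hN0.le hu1)
  have he5 : (d : ℝ) ^ (E * K) = ((d : ℝ) ^ E) ^ K := by rw [← pow_mul]
  -- the moduli
  set Q : ι → ℕ := fun i => p i ^ (M * K) with hQ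
  have hQ0 : ∀ i, 0 < Q i := fun i => pow_pos (hp0 i) _
  have hfQ : ∀ i, SM (Q i) (f i) := fun i => (hfp i).pow (hp0 i) _
  have hcQ : ∀ i j, i ≠ j → Nat.Coprime (Q i) (Q j) := by
    intro i j hij
    apply Nat.Coprime.pow
    exact Nat.Coprime.pow 2 2 (hc i j hij)
  have hDQ : ∀ i, Nat.Coprime (d ^ (E * K)) (Q i) := by
    intro i
    apply Nat.Coprime.pow
    exact Nat.Coprime.pow_right 2 (hdq i)
  have hQR : ∀ i, (Q i : ℝ) = ((p i : ℝ) ^ M) ^ K := by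
    intro i; rw [hQ]; push_cast; rw [pow_mul]
  have hQA : ∀ i, A ^ K / (Q i : ℝ) ≤ u := by
    intro i
    have h1 : 4 * A ≤ (p i : ℝ) ^ M := hM.trans (pow_le_pow_left₀ (by norm_num) (hp9R i) M)
    have h2 : (4 * A) ^ K ≤ Q i := by rw [hQR]; exact pow_le_pow_left₀ (by positivity) h1 K
    have h3 : A ^ K = (4 * A) ^ K * u := by rw [hu, ← mul_pow]; congr 1; ring
    rw [div_le_iff₀ (by exact_mod_cast hQ0 i), h3, mul_comm]
    exact mul_le_mul_of_nonneg_left h2 hu0.le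
  set Qp : ℕ := ∏ i, Q i with hQp
  have hQpR : (Qp : ℝ) = (P ^ M) ^ K := by
    rw [hQp]; push_cast
    rw [prod_congr rfl fun i _ => hQR i, prod_pow, prod_pow]
  set Jm : ℝ := N / (d : ℝ) ^ (E * K) + 1 with hJm
  have hdp : (0 : ℝ) < (d : ℝ) ^ (E * K) := by positivity
  have hJm0 : 0 ≤ Jm := by rw [hJm]; positivity
  have hJm2 : (d : ℝ) ^ (E * K) * Jm ≤ 2 * N := by
    rw [hJm, mul_add, mul_one, mul_div_cancel₀ _ hdp.ne', he5]
    have := nle _ n1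
    linarith
  refine ⟨fun h => Jm * (‖Co (f i0) (Q i0) h‖ / Q i0) + Qp + ∑ i, (Jm / Q i + 1) * (h : ℝ), ?_, ?_, ?_⟩
  · intro h
    have : 0 ≤ ∑ i, (Jm / Q i + 1) * (h : ℝ) := sum_nonneg fun i _ => by positivity
    have h2 : 0 ≤ Jm * (‖Co (f i0) (Q i0) h‖ / Q i0) := by positivity
    have h3 : (0 : ℝ) ≤ Qp := Nat.cast_nonneg _
    simp only
    linarith
  · intro h hh1 hh2 m0 J hJ
    obtain ⟨w0, hw0, hw0'⟩ := hw h
    refine (corr Q hQ0 hcQ hDQ hfQ hw0 hw0' m0 J).trans ?_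
    -- `J ≤ Jm`
    have hJJ : (J : ℝ) ≤ Jm := by
      rcases Nat.eq_zero_or_pos J with h0 | h0
      · rw [h0]; simpa using hJm0
      · have h1 := hJ (J - 1) (by omega)
        have h2 : d ^ (E * K) * (J - 1) ≤ N := by omega
        have h3 : (d : ℝ) ^ (E * K) * ((J - 1 : ℕ) : ℝ) ≤ N := by exact_mod_cast h2
        rw [Nat.cast_sub h0, Nat.cast_one] at h3
        have h4 : (J : ℝ) - 1 ≤ N / (d : ℝ) ^ (E * K) := by
          rw [le_div_iff₀ hdp]; linarith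
        rw [hJm]; linarith
    have h1 : ∏ i, ‖Co (f i) (Q i) h‖ ≤ ‖Co (f i0) (Q i0) h‖ / Q i0 * Qp := by
      have h2 : ∏ i ∈ univ.erase i0, ‖Co (f i) (Q i) h‖ ≤ ∏ i ∈ univ.erase i0, (Q i : ℝ) := by
        apply prod_le_prod (fun _ _ => norm_nonneg _)
        intro i _
        refine (norm_Co (hfQ i) _ _).trans ?_
        exact_mod_cast Nat.sub_le _ _
      have hQi0 : (0 : ℝ) < Q i0 := by exact_mod_cast hQ0 i0
      have h3 : (Qp : ℝ) = Q i0 * ∏ i ∈ univ.erase i0, (Q i : ℝ) := by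
        rw [hQp]; push_cast
        rw [mul_prod_erase univ (fun i => (Q i : ℝ)) (mem_univ i0)]
      rw [h3, ← mul_prod_erase univ _ (mem_univ i0)]
      calc ‖Co (f i0) (Q i0) h‖ * ∏ i ∈ univ.erase i0, ‖Co (f i) (Q i) h‖
          ≤ ‖Co (f i0) (Q i0) h‖ * ∏ i ∈ univ.erase i0, (Q i : ℝ) := mul_le_mul_of_nonneg_left h2 (norm_nonneg _)
        _ = _ := by field_simp
    have hQpn : 0 < Qp := prod_pos fun i _ => hQ0 i
    have hQpp : (0 : ℝ) < Qp := by exact_mod_cast hQpn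
    have h2 : ((J / Qp : ℕ) : ℝ) * ∏ i, ‖Co (f i) (Q i) h‖ ≤ Jm * (‖Co (f i0) (Q i0) h‖ / Q i0) := by
      have h3 : ((J / Qp : ℕ) : ℝ) ≤ Jm / Qp := by
        refine Nat.cast_div_le.trans ?_
        gcongr
      calc ((J / Qp : ℕ) : ℝ) * ∏ i, ‖Co (f i) (Q i) h‖ ≤ (Jm / Qp) * (‖Co (f i0) (Q i0) h‖ / Q i0 * Qp) :=
            mul_le_mul h3 h1 (prod_nonneg fun _ _ => norm_nonneg _) (by positivity)
        _ = _ := by field_simp
    simp only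
    refine add_le_add (add_le_add h2 le_rfl) ?_
    apply sum_le_sum
    intro i _
    apply mul_le_mul_of_nonneg_right _ (Nat.cast_nonneg _)
    have hQi : (0 : ℝ) < Q i := by exact_mod_cast hQ0 i
    have : ((J / Q i : ℕ) : ℝ) ≤ Jm / Q i := by
      refine Nat.cast_div_le.trans ?_
      gcongr
    linarith
  · intro X hX1 hX2
    have hX0 : 0 ≤ X := le_trans (by positivity) hX1
    have hXp : (p i0 : ℝ) ^ (l * K) ≤ X := by
      rw [pow_mul]; exact hX1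
    have hh1 : q i0 + 1 < p i0 := by
      have h1 := hq i0
      have h2 : 3 * q i0 ≤ q i0 ^ 2 := by rw [sq]; exact Nat.mul_le_mul_right _ h1
      show q i0 + 1 < q i0 ^ 2
      omega
    have t1 := Co_total (hp0 i0) (hfp i0) hh1 hρ0 hb0 hb1 (k := l * K) (i := M * K) (Nat.mul_le_mul_right K (by omega)) hXp
    have t1' : ∑ h ∈ Icc 1 ⌊X⌋₊, ‖Co (f i0) (Q i0) h‖ / Q i0 ≤ 2 * X * u := by
      rw [← sum_div, div_le_iff₀ (by exact_mod_cast hQ0 i0)]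
      have e1 : (((p i0 : ℝ) - 1 + ρ) / (p i0 : ℝ)) ^ (l * K) ≤ u := by
        rw [pow_mul, hu]
        exact pow_le_pow_left₀ (by positivity) hl.le K
      have e2 : (Q i0 : ℝ) = (p i0 : ℝ) ^ (M * K) := by rw [hQ]; push_cast; rfl
      rw [e2]
      refine t1.trans ?_
      gcongr
    have hcard : ((Icc 1 ⌊X⌋₊).card : ℝ) ≤ X := by
      rw [Nat.card_Icc, Nat.add_sub_cancel]; exact Nat.floor_le hX0
    have t2 : ∑ h ∈ Icc 1 ⌊X⌋₊, ((Qp : ℝ) + ∑ i, (Jm / Q i + 1) * (h : ℝ)) ≤ X * (Qp + ∑ i, (Jm / Q i + 1) * A ^ K) := by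
      have e1 : ∀ h ∈ Icc 1 ⌊X⌋₊, ((Qp : ℝ) + ∑ i, (Jm / Q i + 1) * (h : ℝ)) ≤ Qp + ∑ i, (Jm / Q i + 1) * A ^ K := by
        intro h hh
        rw [mem_Icc] at hh
        have h2 : (h : ℝ) ≤ A ^ K := ((Nat.le_floor_iff hX0).1 hh.2).trans hX2
        gcongr
      refine (sum_le_sum e1).trans ?_
      rw [sum_const, nsmul_eq_mul]
      apply mul_le_mul_of_nonneg_right hcard
      have : 0 ≤ ∑ i, (Jm / Q i + 1) * A ^ K := sum_nonneg fun i _ => by positivity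
      positivity
    have e0 : ∑ h ∈ Icc 1 ⌊X⌋₊, (Jm * (‖Co (f i0) (Q i0) h‖ / Q i0) + Qp + ∑ i, (Jm / Q i + 1) * (h : ℝ))
        = Jm * ∑ h ∈ Icc 1 ⌊X⌋₊, ‖Co (f i0) (Q i0) h‖ / Q i0
        + ∑ h ∈ Icc 1 ⌊X⌋₊, ((Qp : ℝ) + ∑ i, (Jm / Q i + 1) * (h : ℝ)) := by
      rw [mul_sum, ← sum_add_distrib]
      apply sum_congr rfl
      intro h _
      ring
    rw [e0]
    set D : ℝ := (d : ℝ) ^ (E * K) with hD
    have hD0 : 0 < D := hdp
    have s1 : D * (Jm * ∑ h ∈ Icc 1 ⌊X⌋₊, ‖Co (f i0) (Q i0) h‖ / Q i0) ≤ (2 * N) * (2 * X * u) := by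
      rw [← mul_assoc]
      exact mul_le_mul hJm2 t1' (sum_nonneg fun _ _ => by positivity) (by positivity)
    have s2 : D * (Qp + ∑ i, (Jm / Q i + 1) * A ^ K) ≤ N * u + r * (3 * (N * u)) := by
      rw [mul_add]
      apply add_le_add
      · rw [hQpR, he5]; exact n2
      · rw [mul_sum]
        have s3 : ∀ i ∈ (univ : Finset ι), D * ((Jm / Q i + 1) * A ^ K) ≤ 3 * (N * u) := by
          intro i _
          have hQi : (0 : ℝ) < Q i := by exact_mod_cast hQ0 i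
          have e1 : D * ((Jm / Q i + 1) * A ^ K) = (D * Jm) * (A ^ K / Q i) + D * A ^ K := by field_simp
          rw [e1]
          have e2 : (D * Jm) * (A ^ K / Q i) ≤ (2 * N) * u :=
            mul_le_mul hJm2 (hQA i) (by positivity) (by positivity)
          have e3 : D * A ^ K ≤ N * u := by rw [he5]; exact n3
          linarith
        refine (sum_le_sum s3).trans ?_
        rw [sum_const, card_univ, nsmul_eq_mul]
    have s4 : D * ∑ h ∈ Icc 1 ⌊X⌋₊, ((Qp : ℝ) + ∑ i, (Jm / Q i + 1) * (h : ℝ)) ≤ X * (N * u + r * (3 * (N * u))) := by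
      calc D * ∑ h ∈ Icc 1 ⌊X⌋₊, ((Qp : ℝ) + ∑ i, (Jm / Q i + 1) * (h : ℝ)) ≤ D * (X * (Qp + ∑ i, (Jm / Q i + 1) * A ^ K)) :=
            mul_le_mul_of_nonneg_left t2 hD0.le
        _ = X * (D * (Qp + ∑ i, (Jm / Q i + 1) * A ^ K)) := by ring
        _ ≤ _ := mul_le_mul_of_nonneg_left s2 hX0
    rw [mul_add]
    refine (add_le_add s1 s4).trans (le_of_eq ?_)
    ring

/-- POWER SAVING for products of strongly multiplicative functions -/
theorem power_saving {d : ℕ} {m r : ℕ → ℤ} (h : Pool.Agent.H319R3.GC.Adm d m r) (c0 k0 : ℕ) {ι : Type*} [Fintype ι]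
    [DecidableEq ι] (q : ι → ℕ) (hq : ∀ i, 3 ≤ q i)
    (hdq : ∀ i, Nat.Coprime d (q i)) (hc : ∀ i j, i ≠ j → Nat.Coprime (q i) (q j)) {f : ι → ℕ → ℂ} (hf : ∀ i, SM (q i) (f i))
    (i0 : ι) (hnc : ¬ ∀ n, f i0 n = f i0 1 ^ n) : ∃ C c : ℝ, 0 ≤ C ∧ 0 < c ∧ ∀ s : ℤ, (s = 1 ∨ s = -1) → ∀ N : ℕ, 1 ≤ N →
      ∀ F : ℕ → ℝ, KSyncN d m r s c0 k0 N F →
      ∀ w : ℕ → ℂ, (∀ n, ‖w n‖ = 1) → (∀ h, ∃ w0 : ℂ, ‖w0‖ = 1 ∧ ∀ n, w n * (starRingEnd ℂ) (w (n + h)) = w0) →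
      ‖∑ m ∈ Icc 1 N, (F m : ℂ) * (w m * ∏ i, f i m)‖ ≤ C * (N : ℝ) ^ (1 - c) := by
  obtain ⟨C, c, hC, hc0, H⟩ := orth h c0 k0 (corr_digits (by have := h.two_le; omega) q hq hdq hc hf i0 hnc)
    (fun _ z hz n => ZD_norm hf hz n)
  exact ⟨C, c, hC, hc0, fun s hs N hN F hF w hw1 hw => H s hs N hN F hF _ ⟨w, hw1, hw, rfl⟩⟩

end Pool.Agent.Run7.h439.DC
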