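import Pool.Agent.Y965.GP.Par

/-! The key of a generalised Collatz map for a fixed multiplier. -/

set_option autoImplicit false

namespace Pool.Agent.Run7.h439.DC

open Finset Pool.Agent.H319R3.GC Pool.Agent.Y965.GP

variable {d : ℕ} {m r : ℕ → ℤ}

/-- the multiplier at the time `k` is `M` and the offset is bounded -/
def GM (d : ℕ) (m r : ℕ → ℤ) (R : ℝ) (s : ℤ) (k : ℕ) (M : ℤ) (n : ℕ) : Prop :=
  Mw m (wd d m r k (s * n)) = M ∧ |(Ww d m r (wd d m r k (s * n)) : ℝ)| ≤ R * (d : ℝ) ^ k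

/-- the point at the time `k` -/
def pt (d : ℕ) (m r : ℕ → ℤ) (s : ℤ) (k : ℕ) (n : ℕ) : ℤ := (Tm d m r)^[k] (s * n)

theorem key_eq (s : ℤ) (k n : ℕ) : key d m r s k n = (pt d m r s k n, Mw m (wd d m r k (s * n))) := rfl

theorem gm_shift (h : 2 ≤ d) (R : ℝ) (s : ℤ) (k : ℕ) (M : ℤ) (n v : ℕ) :
    GM d m r R s k M (n + d ^ k * v) ↔ GM d m r R s k M n := by
  unfold GM
  rw [wd_s h]

theorem pt_shift (h : Adm d m r) (s : ℤ) (k n v : ℕ) :
    pt d m r s k (n + d ^ k * v) = pt d m r s k n + Mw m (wd d m r k (s * n)) * (s * v) := by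
  have h1 := key_shift h s k n v
  rw [key_eq, key_eq, Prod.mk.injEq] at h1
  exact h1.1

theorem pt_small (h : Adm d m r) {R : ℝ} {s : ℤ} (hs : s = 1 ∨ s = -1) {k n u : ℕ} {M : ℤ} (h1 : GM d m r R s k M n)
    (h2 : GM d m r R s k M (n + u)) (hk : pt d m r s k n = pt d m r s k (n + u)) :
    |(M : ℝ)| * u ≤ 2 * R * (d : ℝ) ^ k := by
  unfold pt at hk
  have e1 := iter_eq h k (s * n)
  have e2 := iter_eq h k (s * ((n + u : ℕ) : ℤ))
  rw [h1.1] at e1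
  rw [h2.1, ← hk] at e2
  have e3 : M * (s * u) = Ww d m r (wd d m r k (s * ((n + u : ℕ) : ℤ))) - Ww d m r (wd d m r k (s * n)) := by
    have e4 : s * ((n + u : ℕ) : ℤ) = s * n + s * u := by push_cast; ring
    rw [e4] at e2 ⊢
    linear_combination e1 - e2
  have e5 : |(M : ℝ)| * u =
      |(Ww d m r (wd d m r k (s * ((n + u : ℕ) : ℤ))) : ℝ) - Ww d m r (wd d m r k (s * n))| := by
    have e6 : ((M * (s * u) : ℤ) : ℝ) = ((Ww d m r (wd d m r k (s * ((n + u : ℕ) : ℤ))) - Ww d m r (wd d m r k (s * n)) : ℤ) : ℝ) := by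
      rw [e3]
    push_cast at e6 ⊢
    rw [← e6, abs_mul, abs_mul]
    have e7 : |(s : ℝ)| = 1 := by rcases hs with rfl | rfl <;> simp
    rw [e7, one_mul, Nat.abs_cast]
  have e8 := abs_sub (Ww d m r (wd d m r k (s * ((n + u : ℕ) : ℤ))) : ℝ) (Ww d m r (wd d m r k (s * n)))
  have a1 := h1.2
  have a2 := h2.2
  linarith

theorem pt_value (h : Adm d m r) {R : ℝ} {s : ℤ} (hs : s = 1 ∨ s = -1) {k n N : ℕ} {M : ℤ} (hn : n ≤ N)
    (h1 : GM d m r R s k M n) : |(pt d m r s k n : ℝ)| ≤ N * (|(M : ℝ)| / (d : ℝ) ^ k) + R := by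
  have hd : (0 : ℝ) < d := by have := h.two_le; positivity
  have hdk : (0 : ℝ) < (d : ℝ) ^ k := by positivity
  have e1 := iter_eq h k (s * n)
  rw [h1.1] at e1
  have e2 : (d : ℝ) ^ k * |(pt d m r s k n : ℝ)| =
      |(M : ℝ) * (s * n) - Ww d m r (wd d m r k (s * n))| := by
    unfold pt
    have e3 : (((d : ℤ) ^ k * (Tm d m r)^[k] (s * n) : ℤ) : ℝ) = ((M * (s * n) - Ww d m r (wd d m r k (s * n)) : ℤ) : ℝ) := by
      rw [e1]
    push_cast at e3 ⊢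
    rw [← e3, abs_mul, abs_of_pos hdk]
  have e4 := abs_sub ((M : ℝ) * (s * n)) (Ww d m r (wd d m r k (s * n)))
  have e7 : |(s : ℝ)| = 1 := by rcases hs with rfl | rfl <;> simp
  rw [abs_mul, abs_mul (s : ℝ), e7, one_mul, Nat.abs_cast] at e4
  have e5 : |(M : ℝ)| * n ≤ |(M : ℝ)| * N := by
    have : (n : ℝ) ≤ N := by exact_mod_cast hn
    exact mul_le_mul_of_nonneg_left this (abs_nonneg _)
  have e6 : (d : ℝ) ^ k * |(pt d m r s k n : ℝ)| ≤ (d : ℝ) ^ k * (N * (|(M : ℝ)| / (d : ℝ) ^ k) + R) := by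
    have e8 : (d : ℝ) ^ k * (N * (|(M : ℝ)| / (d : ℝ) ^ k) + R) = |(M : ℝ)| * N + R * (d : ℝ) ^ k := by
      field_simp
    rw [e8, e2]
    linarith [h1.2]
  exact le_of_mul_le_mul_left e6 hdk

/-- THE KEY FOR A FIXED MULTIPLIER -/
theorem kdM (h : Adm d m r) {s : ℤ} (hs : s = 1 ∨ s = -1) (k N : ℕ) {R : ℝ} (hR : 1 ≤ R) {M : ℤ} (hM0 : 1 ≤ |(M : ℝ)|)
    (hM : |(M : ℝ)| ≤ (d : ℝ) ^ k) :
    KD N (d ^ k) (2 * R * (d : ℝ) ^ k / |(M : ℝ)|) (2 * (N * (|(M : ℝ)| / (d : ℝ) ^ k) + R) + 1) N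
      (GM d m r R s k M) (pt d m r s k) := by
  have hd : (0 : ℝ) < d := by have := h.two_le; positivity
  have hMp : 0 < |(M : ℝ)| := by linarith
  refine ⟨?_, ?_, ?_, ?_, ?_, ?_, ?_⟩
  · have := h.two_le
    exact Nat.one_le_pow _ _ (by omega)
  · rw [le_div_iff₀ hMp]
    have : 0 < (d : ℝ) ^ k := by positivity
    nlinarith
  · intro n v
    exact gm_shift h.two_le R s k M n v
  · intro n u v g1 g2
    have e : n + d ^ k * v + u = (n + u) + d ^ k * v := by ring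
    rw [e, pt_shift h, pt_shift h, g1.1, g2.1]
    constructor
    · intro hk; linarith
    · intro hk; rw [hk]
  · intro n u g1 g2 hk
    rw [le_div_iff₀ hMp, mul_comm]
    exact pt_small h hs g1 g2 hk
  · intro S hS
    set V : ℝ := N * (|(M : ℝ)| / (d : ℝ) ^ k) + R with hV
    have hV0 : 0 ≤ V := by positivity
    have hsub : S.image (pt d m r s k) ⊆ Icc (-⌊V⌋) ⌊V⌋ := by
      intro p hp
      rw [mem_image] at hp
      obtain ⟨n, hn, rfl⟩ := hp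
      obtain ⟨hn1, hn2⟩ := hS n hn
      have h2 := pt_value h hs hn1 hn2
      rw [← hV] at h2
      have h3 := abs_le.1 h2
      rw [mem_Icc]
      refine ⟨?_, Int.le_floor.2 h3.2⟩
      have h4 : -(pt d m r s k n) ≤ ⌊V⌋ := by
        apply Int.le_floor.2
        push_cast
        linarith [h3.1]
      linarith
    have h1 := card_le_card hsub
    rw [Int.card_Icc] at h1
    have h3 : (((⌊V⌋ + 1 - -⌊V⌋).toNat : ℕ) : ℝ) ≤ 2 * V + 1 := by
      have h4 : 0 ≤ ⌊V⌋ := Int.floor_nonneg.2 hV0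
      have h5 : (((⌊V⌋ + 1 - -⌊V⌋).toNat : ℤ) : ℝ) = ((⌊V⌋ + 1 - -⌊V⌋ : ℤ) : ℝ) := by
        rw [Int.toNat_of_nonneg (by omega)]
      have h6 : (((⌊V⌋ + 1 - -⌊V⌋).toNat : ℕ) : ℝ) = ((⌊V⌋ + 1 - -⌊V⌋ : ℤ) : ℝ) := by exact_mod_cast h5
      rw [h6]
      push_cast
      have := Int.floor_le V
      linarith
    have h7 : ((S.image (pt d m r s k)).card : ℝ) ≤ ((⌊V⌋ + 1 - -⌊V⌋).toNat : ℝ) := by
      exact_mod_cast h1
    exact h7.trans h3
  · intro S hS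
    have hsub : S ⊆ Icc 1 N := by
      intro n hn
      rw [mem_Icc]
      exact (hS n hn).1
    have h1 := card_le_card hsub
    rw [Nat.card_Icc, Nat.add_sub_cancel] at h1
    exact_mod_cast h1

end Pool.Agent.Run7.h439.DC
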