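import Pool.Agent.Run7.h439.DC.Two
import Pool.Agent.Y965.GP.Fin3

/-! Invariant sets and first entrances into bounded sets, for generalised Collatz maps. -/

set_option autoImplicit false

namespace Pool.Agent.Run7.h439.DC

open Finset Pool.Agent.H319R3.GC Pool.Agent.Y965.GP

variable {d : ℕ} {mm r : ℕ → ℤ}

/-- functions constant on the classes of trajectories which meet are determined by the point -/
theorem ksync_inv {s : ℤ} {S : Set ℤ} (hS : ∀ x : ℤ, x ∈ S ↔ Tm d mm r x ∈ S) :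
    KSync d mm r s 1 0 (fun n => Pool.Agent.Y965.GP.ind S (s * (n : ℤ))) := by
  have hS' : InvT (Tm d mm r) S := hS
  refine ⟨fun n => Pool.Agent.Y965.GP.ind_abs _ _, fun k _ n n' _ _ hk => ?_⟩
  unfold key at hk
  rw [Prod.mk.injEq] at hk
  apply Pool.Agent.Y965.GP.ind_congr
  rw [inv_iter hS' k (s * (n : ℤ)), inv_iter hS' k (s * (n' : ℤ)), hk.1]

/-- the first entrance into `A` is at the time `k` -/
def FE (T : ℤ → ℤ) (A : ℤ → Prop) (k : ℕ) (x : ℤ) : Prop := A (T^[k] x) ∧ ∀ i < k, ¬ A (T^[i] x)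

theorem FE_unique {T : ℤ → ℤ} {A : ℤ → Prop} {k k' : ℕ} {x : ℤ} (h : FE T A k x) (h' : FE T A k' x) : k = k' := by
  rcases lt_trichotomy k k' with g | g | g
  · exact absurd h.1 (h'.2 k g)
  · exact g
  · exact absurd h'.1 (h.2 k' g)

theorem FE_iff {T : ℤ → ℤ} {A : ℤ → Prop} {x : ℤ} : (∃ k, A (T^[k] x)) ↔ ∃ k, FE T A k x := by
  classical
  constructor
  · intro h
    exact ⟨Nat.find h, Nat.find_spec h, fun i hi => Nat.find_min h hi⟩
  · rintro ⟨k, hk⟩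
    exact ⟨k, hk.1⟩

/-- functions of the time of the first entrance, of the multiplier at this time, and of the point -/
def EF (d : ℕ) (mm r : ℕ → ℤ) (s : ℤ) (A : ℤ → Prop) (F : ℕ → ℝ) : Prop := (∀ n, |F n| ≤ 1) ∧
  (∀ (k : ℕ) (n n' : ℕ), FE (Tm d mm r) A k (s * n) → FE (Tm d mm r) A k (s * n') →
    Mw mm (wd d mm r k (s * n)) = Mw mm (wd d mm r k (s * n')) → (Tm d mm r)^[k] (s * n) = (Tm d mm r)^[k] (s * n') →
    F n = F n') ∧
  ∀ n n' : ℕ, (∀ k, ¬ FE (Tm d mm r) A k (s * n)) → (∀ k, ¬ FE (Tm d mm r) A k (s * n')) → F n = F n'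

theorem Mw_wd_add (k u : ℕ) : ∀ x : ℤ, Mw mm (wd d mm r (k + u) x) =
    Mw mm (wd d mm r k x) * Mw mm (wd d mm r u ((Tm d mm r)^[k] x)) := by
  induction k with
  | zero => intro x; simp [wd, Mw]
  | succ k ih =>
    intro x
    have e : k + 1 + u = (k + u) + 1 := by ring
    rw [e]
    simp only [wd]
    rw [Mw_cons, Mw_cons, ih, Function.iterate_succ_apply]
    ring

/-- FIRST ENTRANCES INTO SETS IN `[-R, R]` -/
theorem ksync_fe (h : Adm d mm r) (R : ℕ) : ∃ k0 : ℕ, ∀ s : ℤ, (s = 1 ∨ s = -1) → ∀ A : ℤ → Prop,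
    (∀ x, A x → |x| ≤ (R : ℤ)) → ∀ F : ℕ → ℝ, EF d mm r s A F → KSync d mm r s 2 k0 F := by
  obtain ⟨B, hB0, hB⟩ := iter_lower h
  have hd2 : (2 : ℝ) ≤ d := by exact_mod_cast h.two_le
  have hd1 : (1 : ℝ) ≤ d := by linarith
  obtain ⟨k0, hk0⟩ := pow_unbounded_of_one_lt (R + 2 * B) (show (1 : ℝ) < d by linarith)
  refine ⟨k0, fun s hs A hA F hF => ⟨hF.1, fun k hk n n' hn hn' hkey => ?_⟩⟩
  -- the first terms are large
  have hlow : ∀ n : ℕ, d ^ (2 * k) < n → ∀ i ≤ k, ¬ A ((Tm d mm r)^[i] (s * n)) := by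
    intro n hn i hi hAi
    have h1 := hB (s * n) i
    have h2 : |((s * (n : ℤ) : ℤ) : ℝ)| = n := by
      rcases hs with rfl | rfl <;> simp
    rw [h2] at h1
    have h3 : |(((Tm d mm r)^[i] (s * n) : ℤ) : ℝ)| ≤ R := by exact_mod_cast hA _ hAi
    have h4 : (d : ℝ) ^ k ≤ (n : ℝ) / (d : ℝ) ^ i := by
      rw [le_div_iff₀ (by positivity)]
      have h5 : (d : ℝ) ^ i ≤ (d : ℝ) ^ k := pow_le_pow_right₀ hd1 hi
      have h6 : ((d : ℝ) ^ (2 * k)) ≤ n := by exact_mod_cast hn.le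
      calc (d : ℝ) ^ k * (d : ℝ) ^ i ≤ (d : ℝ) ^ k * (d : ℝ) ^ k := by gcongr
        _ = (d : ℝ) ^ (2 * k) := by rw [← pow_add]; congr 1; ring
        _ ≤ n := h6
    have h7 : (d : ℝ) ^ k0 ≤ (d : ℝ) ^ k := pow_le_pow_right₀ hd1 hk
    linarith
  unfold key at hkey
  rw [Prod.mk.injEq] at hkey
  obtain ⟨hk1, hk2⟩ := hkey
  -- transfer of the entrances
  have tr : ∀ n n' : ℕ, d ^ (2 * k) < n → d ^ (2 * k) < n' → (Tm d mm r)^[k] (s * n) = (Tm d mm r)^[k] (s * n') →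
      ∀ t, FE (Tm d mm r) A t (s * n) → k < t ∧ FE (Tm d mm r) A t (s * n') := by
    intro n n' hn hn' he t ht
    have hkt : k < t := by
      by_contra hcon
      exact hlow n hn t (not_lt.1 hcon) ht.1
    have hit : ∀ i, k ≤ i → (Tm d mm r)^[i] (s * n) = (Tm d mm r)^[i] (s * n') := by
      intro i hi
      obtain ⟨u, rfl⟩ := Nat.exists_eq_add_of_le' hi
      rw [Function.iterate_add_apply, Function.iterate_add_apply, he]
    refine ⟨hkt, ?_, fun i hi => ?_⟩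
    · rw [← hit t hkt.le]; exact ht.1
    · rcases le_or_gt k i with g | g
      · rw [← hit i g]; exact ht.2 i hi
      · exact hlow n' hn' i g.le
  obtain ⟨_, hΦ, he⟩ := hF
  by_cases hex : ∃ t, FE (Tm d mm r) A t (s * n)
  · obtain ⟨t, ht⟩ := hex
    obtain ⟨hkt, ht'⟩ := tr n n' hn hn' hk1 t ht
    obtain ⟨u, rfl⟩ := Nat.exists_eq_add_of_lt hkt
    have e1 : k + u + 1 = k + (u + 1) := by ring
    have e2 : ∀ x : ℤ, (Tm d mm r)^[k + (u + 1)] x = (Tm d mm r)^[u + 1] ((Tm d mm r)^[k] x) := by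
      intro x
      rw [Nat.add_comm k (u + 1), Function.iterate_add_apply]
    have e3 : ∀ x : ℤ, Mw mm (wd d mm r (k + (u + 1)) x) = Mw mm (wd d mm r k x) * Mw mm (wd d mm r (u + 1) ((Tm d mm r)^[k] x)) :=
      Mw_wd_add k (u + 1)
    refine hΦ _ n n' ht ht' ?_ ?_
    · rw [e1, e3, e3, hk2, hk1]
    · rw [e1, e2, e2, hk1]
  · push Not at hex
    exact he n n' hex fun t ht => hex t (tr n' n hn' hn hk1.symm t ht).2

end Pool.Agent.Run7.h439.DC
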