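import Pool.Agent.Run7.h439.DC.Inv
import Pool.Agent.Run7.h439.DC.Dig
import Pool.Agent.H499R2.NDCor3

/-! Functions constant on the classes of trajectories which meet, and invariant sets. -/

set_option autoImplicit false

namespace Pool.Agent.Run7.h439.DC

open Finset Filter Topology Pool.Agent.H319R3.GC Pool.Agent.Y965.GP
open Pool.Agent.Y965.PS (Tz ac)
open Pool.Agent.Y965.PL (Mn MnS th ind_pos ind_neg ind_congr Mn_of_Dn)

theorem ksync_f {d : ℕ} {mm r : ℕ → ℤ} {s : ℤ} {f : ℤ → ℝ} (hb : ∀ x, |f x| ≤ 1) (hf : ∀ x, f (Tm d mm r x) = f x) :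
    KSync d mm r s 1 0 (fun n => f (s * (n : ℤ))) := by
  have hit : ∀ (k : ℕ) (x : ℤ), f ((Tm d mm r)^[k] x) = f x := by
    intro k
    induction k with
    | zero => intro x; rfl
    | succ k ih => intro x; rw [Function.iterate_succ_apply, ih, hf]
  refine ⟨fun n => hb _, fun k _ n n' _ _ hk => ?_⟩
  unfold key at hk
  rw [Prod.mk.injEq] at hk
  show f (s * (n : ℤ)) = f (s * (n' : ℤ))
  rw [← hit k (s * (n : ℤ)), ← hit k (s * (n' : ℤ)), hk.1]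

/-- THE SUMS IN THE CLASSES of the functions constant on the classes of trajectories which meet -/
theorem inv_ct {d : ℕ} {mm r : ℕ → ℤ} (h : Adm d mm r) {l : ℕ} {q m : Fin l → ℕ} {W : Fin l → ℕ → ℤ} (hD : DD d q m W) :
    ∃ C c : ℝ, 0 ≤ C ∧ 0 < c ∧ c ≤ 1 ∧ ∀ s : ℤ, (s = 1 ∨ s = -1) → ∀ f : ℤ → ℝ, (∀ x, |f x| ≤ 1) →
    (∀ x, f (Tm d mm r x) = f x) → ∀ a : Fin l → ℤ, CT (Ed m W a) (∏ i, (1 / (m i : ℝ))) C c (fun n => f (s * n)) := by
  obtain ⟨C, c, hC, hc, H⟩ := ct_digits h 1 0 q hD.three hD.copd hD.cop W hD.add m hD.pos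
    (fun i => obs_one (hD.free i))
  refine ⟨C, min c 1, hC, lt_min hc one_pos, min_le_right _ _, fun s hs f hb hf a => ?_⟩
  exact (H s hs _ (ksync_f hb hf) a).mono hC (min_le_left _ _)

open Classical in
theorem inv_ct_set {d : ℕ} {mm r : ℕ → ℤ} {E : ℕ → Prop} {ρ C c : ℝ} {s : ℤ}
    (h : ∀ f : ℤ → ℝ, (∀ x, |f x| ≤ 1) → (∀ x, f (Tm d mm r x) = f x) → CT E ρ C c (fun n => f (s * n)))
    {S : Set ℤ} (hS : ∀ x, x ∈ S ↔ Tm d mm r x ∈ S) : CT E ρ C c (Pool.Agent.Y965.PL.ind (fun n => s * (n : ℤ) ∈ S)) := by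
  have h1 := h (fun x => if x ∈ S then 1 else 0) (fun x => by split_ifs <;> simp) (fun x => by
    by_cases hx : x ∈ S
    · rw [if_pos hx, if_pos ((hS x).1 hx)]
    · rw [if_neg hx, if_neg (fun h => hx ((hS x).2 h))])
  exact h1.congr fun n => by unfold Pool.Agent.Y965.PL.ind; rfl

theorem side_count {s : ℤ} (hs : s = 1 ∨ s = -1) (S : Set ℤ) (N : ℕ) :
    ({n : ℤ | 0 < s * n ∧ s * n ≤ N ∧ n ∈ S}.ncard : ℝ) = ∑ n ∈ Icc 1 N, Pool.Agent.Y965.PL.ind (fun n => s * (n : ℤ) ∈ S) n := by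
  classical
  have hss : ∀ w : ℤ, s * (s * w) = w := by
    intro w
    rcases hs with rfl | rfl <;> ring
  unfold Pool.Agent.Y965.PL.ind
  rw [Finset.sum_boole]
  have e : {n : ℤ | 0 < s * n ∧ s * n ≤ N ∧ n ∈ S} =
      (fun m : ℕ => s * (m : ℤ)) '' (((Icc 1 N).filter fun n : ℕ => s * (n : ℤ) ∈ S : Finset ℕ) : Set ℕ) := by
    ext n
    simp only [Set.mem_ofPred_eq, Set.mem_image, Finset.coe_filter, Finset.mem_Icc]
    constructor
    · rintro ⟨h1, h2, h3⟩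
      have h4 : (((s * n).toNat : ℕ) : ℤ) = s * n := Int.toNat_of_nonneg h1.le
      refine ⟨(s * n).toNat, ⟨⟨by omega, by omega⟩, ?_⟩, ?_⟩
      · rw [h4, hss]; exact h3
      · rw [h4, hss]
    · rintro ⟨m, ⟨⟨h1, h2⟩, h3⟩, rfl⟩
      rw [hss]
      exact ⟨by omega, by omega, h3⟩
  rw [e, Set.ncard_image_of_injective, Set.ncard_coe_finset]
  intro a b hab
  have h1 : s * (a : ℤ) = s * (b : ℤ) := hab
  have h2 := congrArg (fun t => s * t) h1
  simp only [hss] at h2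
  exact_mod_cast h2

theorem mn_side {s : ℤ} (hs : s = 1 ∨ s = -1) {S : Set ℤ} {l : ℝ} (h : Pool.Agent.H499R2.ND.HD s S l) :
    Mn (Pool.Agent.Y965.PL.ind (fun n => s * (n : ℤ) ∈ S)) l := by
  unfold Pool.Agent.Y965.PL.Mn
  refine (Pool.Agent.H499R2.ND.HD_ncard hs h).congr fun N => ?_
  rw [side_count hs]

end Pool.Agent.Run7.h439.DC
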