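import Pool.Agent.Run7.h439.DC.Digit
import Pool.Agent.Y55.DS.Kim2

/-! The theorem of Kim for functions of the trajectory of a generalised Collatz map. -/

set_option autoImplicit false

namespace Pool.Agent.Run7.h439.DC

open Finset Pool.Agent.Y55.DS

open Classical in
theorem F_sum' {ι : Type*} [Fintype ι] [DecidableEq ι] (m : ι → ℕ) (W : ι → ℕ → ℤ) (a : ι → ℤ) {M : ℕ} (hM : 1 ≤ M)
    (b : ℤ) (t : ι → Finset ℕ) (g : ι → ℕ)
    (ht : ∀ i (x : ℤ), ∑ j ∈ t i, e (j * (x : ℝ) / m i) = if (g i : ℤ) ∣ x then (g i : ℂ) else 0) (F : ℕ → ℝ) (N : ℕ) :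
    ∑ l ∈ range M, ∑ p ∈ Fintype.piFinset t, ∑ n ∈ Icc 1 N, (F n : ℂ) * phi m W a M b l p n
      = ((M * (∏ i, (g i : ℝ)) * ∑ n ∈ (Icc 1 N).filter (fun n => Cl g W a M b n), F n : ℝ) : ℂ) := by
  have h := F_sum m W a hM b t g ht (fun z => F z.toNat) N
  simp only [Int.toNat_natCast] at h
  exact h

open Classical in
/-- THE THEOREM OF KIM for functions of the trajectory -/
theorem kim {d : ℕ} {mm r : ℕ → ℤ} (h : Pool.Agent.H319R3.GC.Adm d mm r) (c0 k0 : ℕ) {ι : Type*} [Fintype ι] [DecidableEq ι]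
    (q : ι → ℕ) (hq : ∀ i, 3 ≤ q i)
    (hdq : ∀ i, Nat.Coprime d (q i)) (hc : ∀ i j, i ≠ j → Nat.Coprime (q i) (q j)) (W : ι → ℕ → ℤ) (hW : ∀ i, SA (q i) (W i))
    (m : ι → ℕ) (hm : ∀ i, 1 ≤ m i) {M : ℕ} (hM : 1 ≤ M) : ∃ C c : ℝ, 0 ≤ C ∧ 0 < c ∧ ∀ s : ℤ, (s = 1 ∨ s = -1) →
    ∀ N : ℕ, 1 ≤ N → ∀ F : ℕ → ℝ, KSyncN d mm r s c0 k0 N F → ∀ (a : ι → ℤ) (b : ℤ),
      |∑ n ∈ (Icc 1 N).filter (fun n => Cl m W a M b n), F n
        - (∏ i, ((obs (q i) (W i) (m i) : ℝ) / m i)) *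
          ∑ n ∈ (Icc 1 N).filter (fun n => Cl (fun i => obs (q i) (W i) (m i)) (fun i n => n * W i 1) a M b n), F n|
        ≤ C * (N : ℝ) ^ (1 - c) := by
  set g : ι → ℕ := fun i => obs (q i) (W i) (m i) with hg
  have hg0 : ∀ i, 1 ≤ g i := fun i => Nat.gcd_pos_of_pos_left _ (hm i)
  set D : ι → ℕ := fun i => m i / g i with hD
  have hDg : ∀ i, D i * g i = m i := fun i => Nat.div_mul_cancel (obs_dvd _ _ _)
  have hD0 : ∀ i, 1 ≤ D i := by
    intro i
    by_contra hcon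
    have h1 : D i = 0 := by omega
    have h2 := hDg i
    rw [h1, zero_mul] at h2
    have := hm i
    omega
  set t : ι → Finset ℕ := fun i => range (m i) with ht
  set t' : ι → Finset ℕ := fun i => (range (m i)).filter (fun j => D i ∣ j) with ht'
  have hsub : Fintype.piFinset t' ⊆ Fintype.piFinset t := by
    apply Fintype.piFinset_subset
    intro i
    exact filter_subset _ _
  -- the bounds for the nondegenerate tuples
  have hps : ∀ p : ι → ℕ, ∃ C c : ℝ, 0 ≤ C ∧ 0 < c ∧ (p ∈ Fintype.piFinset t \ Fintype.piFinset t' →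
      ∀ s : ℤ, (s = 1 ∨ s = -1) → ∀ N : ℕ, 1 ≤ N → ∀ F : ℕ → ℝ, KSyncN d mm r s c0 k0 N F →
      ∀ w : ℕ → ℂ, (∀ n, ‖w n‖ = 1) →
      (∀ h, ∃ w0 : ℂ, ‖w0‖ = 1 ∧ ∀ n, w n * (starRingEnd ℂ) (w (n + h)) = w0) →
      ‖∑ n ∈ Icc 1 N, (F n : ℂ) * (w n * ∏ i, e (p i / m i * W i n))‖ ≤ C * (N : ℝ) ^ (1 - c)) := by
    intro p
    by_cases hp : p ∈ Fintype.piFinset t \ Fintype.piFinset t'
    · rw [mem_sdiff, Fintype.mem_piFinset, Fintype.mem_piFinset] at hp
      obtain ⟨hp1, hp2⟩ := hp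
      push Not at hp2
      obtain ⟨i0, hi0⟩ := hp2
      have hnd : ¬ D i0 ∣ p i0 := fun h => hi0 (mem_filter.2 ⟨hp1 i0, h⟩)
      obtain ⟨C, c, hC, hc0, H⟩ := power_saving h c0 k0 q hq hdq hc (f := fun i n => e (p i / m i * W i n))
        (fun i => sm_of_sa (hW i) _) i0 (by
          intro hcon
          apply hnd
          apply degen (hm i0)
          intro n
          have := hcon n
          have e1 : (p i0 : ℝ) * W i0 n / m i0 = p i0 / m i0 * W i0 n := by ring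
          have e2 : (p i0 : ℝ) * W i0 1 / m i0 = p i0 / m i0 * W i0 1 := by ring
          rw [e1, e2]; exact this)
      exact ⟨C, c, hC, hc0, fun _ => H⟩
    · exact ⟨0, 1, le_rfl, one_pos, fun h => absurd h hp⟩
  choose Cp cp hCp hcp Hp using hps
  obtain ⟨c1, hc00, hc01⟩ := exists_lower (Fintype.piFinset t \ Fintype.piFinset t') cp hcp
  refine ⟨∑ p ∈ Fintype.piFinset t \ Fintype.piFinset t', Cp p, c1, sum_nonneg fun p _ => hCp p, hc00, ?_⟩
  intro s hs N hN F hF a b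
  have hNR : (1 : ℝ) ≤ N := by exact_mod_cast hN
  -- the second class
  have hcl : ∀ n, Cl g W a M b n ↔ Cl g (fun i n => n * W i 1) a M b n := by
    intro n
    unfold Cl
    apply and_congr_left
    intro _
    apply forall_congr'
    intro i
    have h1 : (g i : ℤ) ∣ W i n - n * W i 1 :=
      (hW i).mod (by have := hq i; omega) (fun r hr => obs_dvd' hr) n
    constructor
    · intro h2
      have h3 : (n : ℤ) * W i 1 - a i = (W i n - a i) - (W i n - n * W i 1) := by ring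
      rw [h3]; exact dvd_sub h2 h1
    · intro h2
      have h3 : W i n - a i = (n * W i 1 - a i) + (W i n - n * W i 1) := by ring
      rw [h3]; exact dvd_add h2 h1
  have hA := F_sum' m W a hM b t m (fun i x => root_sum (hm i) x) F N
  have hB := F_sum' m W a hM b t' g (fun i x => by
    have h1 := root_sum_sub (hD0 i) (hg0 i) x
    rw [hDg i] at h1
    exact h1) F N
  have hfil : (Icc 1 N).filter (fun n => Cl g (fun i n => n * W i 1) a M b n) = (Icc 1 N).filter (fun n => Cl g W a M b n) :=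
    filter_congr fun n _ => (hcl n).symm
  rw [hfil]
  set SA := ∑ n ∈ (Icc 1 N).filter (fun n => Cl m W a M b n), F n with hSA
  set SB := ∑ n ∈ (Icc 1 N).filter (fun n => Cl g W a M b n), F n with hSB
  have hmR : ∀ i, (0 : ℝ) < m i := fun i => by exact_mod_cast hm i
  have hPm : (1 : ℝ) ≤ ∏ i, (m i : ℝ) := by
    have : ∏ i : ι, (1 : ℝ) ≤ ∏ i, (m i : ℝ) :=
      prod_le_prod (fun _ _ => zero_le_one) (fun i _ => by exact_mod_cast hm i)
    simpa using this
  have hMR : (0 : ℝ) < M := by exact_mod_cast hM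
  have hPg : (∏ i, (m i : ℝ)) * ∏ i, ((g i : ℝ) / m i) = ∏ i, (g i : ℝ) := by
    rw [← prod_mul_distrib]
    apply prod_congr rfl
    intro i _
    have := (hmR i).ne'
    field_simp
  -- the difference
  have hdiff : ∑ l ∈ range M, ∑ p ∈ Fintype.piFinset t \ Fintype.piFinset t', ∑ n ∈ Icc 1 N, (F n : ℂ) * phi m W a M b l p n
      = ((M * (∏ i, (m i : ℝ)) * (SA - (∏ i, ((g i : ℝ) / m i)) * SB) : ℝ) : ℂ) := by
    have e1 : (M * (∏ i, (m i : ℝ)) * (SA - (∏ i, ((g i : ℝ) / m i)) * SB) : ℝ)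
        = M * (∏ i, (m i : ℝ)) * SA - M * (∏ i, (g i : ℝ)) * SB := by
      rw [← hPg]; ring
    rw [e1, Complex.ofReal_sub, ← hA, ← hB, ← sum_sub_distrib]
    apply sum_congr rfl
    intro l _
    rw [← sum_sdiff hsub]
    ring
  have hterm : ∀ l ∈ range M, ∀ p ∈ Fintype.piFinset t \ Fintype.piFinset t',
      ‖∑ n ∈ Icc 1 N, (F n : ℂ) * phi m W a M b l p n‖ ≤ Cp p * (N : ℝ) ^ (1 - c1) := by
    intro l _ p hp
    obtain ⟨hw1, hw2⟩ := e_twist ((l : ℝ) / M)
    have h1 := Hp p hp s hs N hN F hF (fun n => e ((l : ℝ) / M * n)) hw1 hw2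
    have h2 : ∑ n ∈ Icc 1 N, (F n : ℂ) * phi m W a M b l p n
        = (e (-(l * b / M)) * ∏ i, e (-(p i * a i / m i))) *
          ∑ n ∈ Icc 1 N, (F n : ℂ) * (e ((l : ℝ) / M * n) * ∏ i, e (p i / m i * W i n)) := by
      rw [mul_sum]
      apply sum_congr rfl
      intro n _
      unfold phi
      have e1 : e (l * ((n - b : ℤ) : ℝ) / M) = e (-(l * b / M)) * e ((l : ℝ) / M * n) := by
        rw [← e_add]; congr 1; push_cast; ring
      have e2 : ∏ i, e (p i * ((W i n - a i : ℤ) : ℝ) / m i) = (∏ i, e (-(p i * a i / m i))) * ∏ i, e (p i / m i * W i n) := by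
        rw [← prod_mul_distrib]
        apply prod_congr rfl
        intro i _
        rw [← e_add]; congr 1; push_cast; ring
      rw [e1, e2]; ring
    rw [h2, norm_mul, norm_mul, e_norm, norm_prod, prod_congr rfl fun i _ => e_norm _, prod_const_one, one_mul, one_mul]
    refine h1.trans ?_
    apply mul_le_mul_of_nonneg_left _ (hCp p)
    exact Real.rpow_le_rpow_of_exponent_le hNR (by have := hc01 p hp; linarith)
  have hfin : M * (∏ i, (m i : ℝ)) * |SA - (∏ i, ((g i : ℝ) / m i)) * SB| ≤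
      M * ((∑ p ∈ Fintype.piFinset t \ Fintype.piFinset t', Cp p) * (N : ℝ) ^ (1 - c1)) := by
    have h1 : M * (∏ i, (m i : ℝ)) * |SA - (∏ i, ((g i : ℝ) / m i)) * SB|
        = ‖((M * (∏ i, (m i : ℝ)) * (SA - (∏ i, ((g i : ℝ) / m i)) * SB) : ℝ) : ℂ)‖ := by
      have h0 : 0 ≤ M * ∏ i, (m i : ℝ) := mul_nonneg hMR.le (by linarith)
      rw [Complex.norm_real, Real.norm_eq_abs, abs_mul, abs_of_nonneg h0]
    rw [h1, ← hdiff]
    refine (norm_sum_le _ _).trans ((sum_le_sum fun l hl => (norm_sum_le _ _).trans (sum_le_sum fun p hp => hterm l hl p hp)).trans ?_)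
    rw [sum_const, card_range, nsmul_eq_mul, ← sum_mul]
  have h3 : (∏ i, (m i : ℝ)) * |SA - (∏ i, ((g i : ℝ) / m i)) * SB| ≤
      (∑ p ∈ Fintype.piFinset t \ Fintype.piFinset t', Cp p) * (N : ℝ) ^ (1 - c1) := by
    rw [mul_assoc] at hfin
    exact le_of_mul_le_mul_left hfin hMR
  refine le_trans ?_ h3
  exact le_mul_of_one_le_left (abs_nonneg _) hPm

end Pool.Agent.Run7.h439.DC
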