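import Pool.Agent.Run7.h439.DC.Ld
import Pool.Agent.Run7.h439.DC.Dig

/-! The local limit law in the classes. -/

set_option autoImplicit false

namespace Pool.Agent.Run7.h439.DC

open Finset Filter Topology Pool.Agent.Y965.PL
open Pool.Agent.H499R2.HL (H H_unique)
open Pool.Agent.H499R2.LT (odn)

/-- the normal density -/
noncomputable def gn (A s : ℝ) (X k : ℕ) : ℝ :=
  Real.exp (-(((k : ℝ) - A * Real.log X) ^ 2 / (2 * (s * Real.log X)))) / Real.sqrt (2 * Real.pi * (s * Real.log X))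

theorem gn_pos {A s : ℝ} (hs : 0 < s) {X k : ℕ} (hX : 2 ≤ X) : 0 < gn A s X k := by
  have : 0 < Real.log X := Real.log_pos (by exact_mod_cast hX)
  unfold gn; positivity

theorem gn_low {A s : ℝ} (hs : 0 < s) (K : ℝ) {X k : ℕ} (hX : 2 ≤ X)
    (hk : |(k : ℝ) - A * Real.log X| ≤ K * Real.sqrt (Real.log X)) :
    1 ≤ gn A s X k * (Real.exp (K ^ 2 / (2 * s)) * Real.sqrt (2 * Real.pi * s) * Real.sqrt (Real.log X)) := by
  have hL : 0 < Real.log X := Real.log_pos (by exact_mod_cast hX)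
  have h1 : ((k : ℝ) - A * Real.log X) ^ 2 ≤ K ^ 2 * Real.log X := by
    have h2 := pow_le_pow_left₀ (abs_nonneg _) hk 2
    rw [sq_abs, mul_pow, Real.sq_sqrt hL.le] at h2
    exact h2
  have h2 : ((k : ℝ) - A * Real.log X) ^ 2 / (2 * (s * Real.log X)) ≤ K ^ 2 / (2 * s) := by
    rw [div_le_div_iff₀ (by positivity) (by positivity)]
    have := mul_le_mul_of_nonneg_right h1 (show 0 ≤ 2 * s by positivity)
    linarith
  have h3 : 1 ≤ Real.exp (-(((k : ℝ) - A * Real.log X) ^ 2 / (2 * (s * Real.log X)))) * Real.exp (K ^ 2 / (2 * s)) := by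
    rw [← Real.exp_add]
    apply Real.one_le_exp
    linarith
  have h4 : Real.sqrt (2 * Real.pi * (s * Real.log X)) = Real.sqrt (2 * Real.pi * s) * Real.sqrt (Real.log X) := by
    rw [← Real.sqrt_mul (by positivity)]; congr 1; ring
  have h5 : 0 < Real.sqrt (2 * Real.pi * s) * Real.sqrt (Real.log X) := by positivity
  unfold gn
  rw [h4, div_mul_eq_mul_div, le_div_iff₀ h5, one_mul]
  calc Real.sqrt (2 * Real.pi * s) * Real.sqrt (Real.log X) = 1 * (Real.sqrt (2 * Real.pi * s) * Real.sqrt (Real.log X)) := by ring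
    _ ≤ (Real.exp (-(((k : ℝ) - A * Real.log X) ^ 2 / (2 * (s * Real.log X)))) * Real.exp (K ^ 2 / (2 * s))) *
        (Real.sqrt (2 * Real.pi * s) * Real.sqrt (Real.log X)) := mul_le_mul_of_nonneg_right h3 h5.le
    _ = _ := by ring

theorem sqrt_log_le {c : ℝ} (hc : 0 < c) {X : ℕ} (hX : 1 ≤ X) :
    (X : ℝ) ^ (-c) * Real.sqrt (Real.log X) ≤ (1 + 2 / c) * (X : ℝ) ^ (-(c / 2)) := by
  have hXR : (1 : ℝ) ≤ X := by exact_mod_cast hX
  have hX0 : (0 : ℝ) < X := by linarith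
  have h0 : 0 ≤ Real.log X := Real.log_nonneg hXR
  have h1 : Real.sqrt (Real.log X) ≤ 1 + Real.log X := by
    rw [Real.sqrt_le_left (by linarith)]
    nlinarith
  have h2 : Real.log X ≤ (X : ℝ) ^ (c / 2) / (c / 2) := Real.log_le_rpow_div hX0.le (by positivity)
  have h3 : (1 : ℝ) ≤ (X : ℝ) ^ (c / 2) := Real.one_le_rpow hXR (by positivity)
  have h4 : (X : ℝ) ^ (c / 2) / (c / 2) = 2 / c * (X : ℝ) ^ (c / 2) := by field_simp
  have h5 : Real.sqrt (Real.log X) ≤ (1 + 2 / c) * (X : ℝ) ^ (c / 2) := by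
    rw [h4] at h2; linarith
  have h6 : (X : ℝ) ^ (-(c / 2)) = (X : ℝ) ^ (-c) * (X : ℝ) ^ (c / 2) := by
    rw [← Real.rpow_add hX0]; congr 1; ring
  calc (X : ℝ) ^ (-c) * Real.sqrt (Real.log X) ≤ (X : ℝ) ^ (-c) * ((1 + 2 / c) * (X : ℝ) ^ (c / 2)) :=
        mul_le_mul_of_nonneg_left h5 (by positivity)
    _ = _ := by rw [h6]; ring

/-- the local limit law in the class -/
theorem loc_law {N NE : ℕ → ℕ → ℝ} {ρ C c A s : ℝ} (hρ0 : 0 ≤ ρ) (hρ1 : ρ ≤ 1) (hC : 0 ≤ C) (hc : 0 < c) (hs : 0 < s)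
    (h : ∀ X : ℕ, 1 ≤ X → ∀ k, |NE X k - ρ * N X k| ≤ C * (X : ℝ) ^ (1 - c)) {Ψ : ℕ → ℕ → ℝ}
    (hlaw : ∀ K ε : ℝ, 0 < ε → ∃ X₀ : ℝ, ∀ X : ℕ, X₀ ≤ X → ∀ k : ℕ,
      |(k : ℝ) - A * Real.log X| ≤ K * Real.sqrt (Real.log X) → |N X k / (X * gn A s X k) - Ψ X k| ≤ ε) :
    ∀ K ε : ℝ, 0 < ε → ∃ X₀ : ℕ, ∀ X : ℕ, X₀ ≤ X → ∀ k : ℕ,
      |(k : ℝ) - A * Real.log X| ≤ K * Real.sqrt (Real.log X) → |NE X k / (X * gn A s X k) - ρ * Ψ X k| ≤ ε := by
  intro K ε hε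
  obtain ⟨X₁, hX₁⟩ := hlaw K (ε / 2) (by positivity)
  set G : ℝ := Real.exp (K ^ 2 / (2 * s)) * Real.sqrt (2 * Real.pi * s) with hG
  have hG0 : 0 < G := by positivity
  have t1 : Tendsto (fun X : ℕ => C * G * (1 + 2 / c) * (X : ℝ) ^ (-(c / 2))) atTop (𝓝 0) := by
    have h1 := (tendsto_rpow_neg_atTop (show 0 < c / 2 by positivity)).comp tendsto_natCast_atTop_atTop
    have h2 := h1.const_mul (C * G * (1 + 2 / c))
    rw [mul_zero] at h2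
    exact h2
  obtain ⟨X₂, hX₂⟩ := ((t1.eventually (gt_mem_nhds (show 0 < ε / 2 by positivity))).and
    (tendsto_natCast_atTop_atTop.eventually_ge_atTop X₁)).exists_forall_of_atTop
  refine ⟨max X₂ 2, fun X hX k hk => ?_⟩
  have hX2 : 2 ≤ X := (le_max_right _ _).trans hX
  obtain ⟨g1, g2⟩ := hX₂ X ((le_max_left _ _).trans hX)
  have hX0 : (0 : ℝ) < X := by exact_mod_cast (by omega : 0 < X)
  have hg := gn_pos (A := A) hs (k := k) hX2
  have h1 := hX₁ X g2 k hk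
  have h2 := h X (by omega) k
  have h3 := gn_low (A := A) hs K hX2 hk
  rw [← hG] at h3
  have h4 : |NE X k - ρ * N X k| / (X * gn A s X k) ≤ ε / 2 := by
    rw [div_le_iff₀ (by positivity)]
    refine h2.trans ?_
    have e : (X : ℝ) ^ (1 - c) = (X : ℝ) ^ (-c) * X := by
      rw [sub_eq_neg_add, Real.rpow_add hX0, Real.rpow_one]
    have h5 := sqrt_log_le hc (show 1 ≤ X by omega)
    calc C * (X : ℝ) ^ (1 - c) = C * ((X : ℝ) ^ (-c) * X) * 1 := by rw [e]; ring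
      _ ≤ C * ((X : ℝ) ^ (-c) * X) * (gn A s X k * (G * Real.sqrt (Real.log X))) :=
          mul_le_mul_of_nonneg_left h3 (by positivity)
      _ = C * G * ((X : ℝ) ^ (-c) * Real.sqrt (Real.log X)) * (X * gn A s X k) := by ring
      _ ≤ C * G * ((1 + 2 / c) * (X : ℝ) ^ (-(c / 2))) * (X * gn A s X k) := by gcongr
      _ ≤ ε / 2 * (X * gn A s X k) := by
          apply mul_le_mul_of_nonneg_right _ (by positivity)
          linarith
  have e1 : NE X k / (X * gn A s X k) - ρ * Ψ X k = (NE X k - ρ * N X k) / (X * gn A s X k) +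
      ρ * (N X k / (X * gn A s X k) - Ψ X k) := by field_simp; ring
  rw [e1]
  refine (abs_add_le _ _).trans ?_
  rw [abs_div, abs_of_pos (show 0 < (X : ℝ) * gn A s X k by positivity), abs_mul, abs_of_nonneg hρ0]
  have h6 : ρ * |N X k / (X * gn A s X k) - Ψ X k| ≤ 1 * (ε / 2) := mul_le_mul hρ1 h1 (abs_nonneg _) zero_le_one
  linarith

/-- equal shares on the levels -/
theorem loc_share {N NE : ℕ → ℕ → ℝ} {ρ C c A s p : ℝ} (hC : 0 ≤ C) (hc : 0 < c) (hs : 0 < s) (hp : 0 < p)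
    (h : ∀ X : ℕ, 1 ≤ X → ∀ k, |NE X k - ρ * N X k| ≤ C * (X : ℝ) ^ (1 - c)) {Ψ : ℕ → ℕ → ℝ} (hΨ : ∀ X k, p ≤ Ψ X k)
    (hlaw : ∀ K ε : ℝ, 0 < ε → ∃ X₀ : ℝ, ∀ X : ℕ, X₀ ≤ X → ∀ k : ℕ,
      |(k : ℝ) - A * Real.log X| ≤ K * Real.sqrt (Real.log X) → |N X k / (X * gn A s X k) - Ψ X k| ≤ ε) :
    ∀ K : ℝ, ∃ (K' : ℝ) (X₀ : ℕ), ∀ X : ℕ, X₀ ≤ X → ∀ k : ℕ,
      |(k : ℝ) - A * Real.log X| ≤ K * Real.sqrt (Real.log X) → 0 < N X k ∧ |NE X k / N X k - ρ| ≤ K' * (X : ℝ) ^ (-(c / 2)) := by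
  intro K
  obtain ⟨X₁, hX₁⟩ := hlaw K (p / 2) (by positivity)
  set G : ℝ := Real.exp (K ^ 2 / (2 * s)) * Real.sqrt (2 * Real.pi * s) with hG
  have hG0 : 0 < G := by positivity
  refine ⟨C * (2 / p) * G * (1 + 2 / c), max ⌈X₁⌉₊ 2, fun X hX k hk => ?_⟩
  have hX2 : 2 ≤ X := (le_max_right _ _).trans hX
  have g2 : X₁ ≤ X := (Nat.le_ceil X₁).trans (by exact_mod_cast (le_max_left _ _).trans hX)
  have hX0 : (0 : ℝ) < X := by exact_mod_cast (by omega : 0 < X)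
  have hg := gn_pos (A := A) hs (k := k) hX2
  have h1 := hX₁ X g2 k hk
  have h2 := h X (by omega) k
  have h3 := gn_low (A := A) hs K hX2 hk
  rw [← hG] at h3
  have h4 : p / 2 ≤ N X k / (X * gn A s X k) := by
    have := (abs_le.1 h1).1
    have := hΨ X k
    linarith
  rw [le_div_iff₀ (by positivity)] at h4
  have hN : 0 < N X k := lt_of_lt_of_le (by positivity) h4
  refine ⟨hN, ?_⟩
  have e1 : NE X k / N X k - ρ = (NE X k - ρ * N X k) / N X k := by field_simp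
  rw [e1, abs_div, abs_of_pos hN, div_le_iff₀ hN]
  refine h2.trans ?_
  have e : (X : ℝ) ^ (1 - c) = (X : ℝ) ^ (-c) * X := by
    rw [sub_eq_neg_add, Real.rpow_add hX0, Real.rpow_one]
  have h5 := sqrt_log_le hc (show 1 ≤ X by omega)
  have h6 : 0 ≤ C * (2 / p) * G * (1 + 2 / c) * (X : ℝ) ^ (-(c / 2)) := by positivity
  calc C * (X : ℝ) ^ (1 - c) = C * ((X : ℝ) ^ (-c) * X) * 1 := by rw [e]; ring
    _ ≤ C * ((X : ℝ) ^ (-c) * X) * (gn A s X k * (G * Real.sqrt (Real.log X))) :=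
        mul_le_mul_of_nonneg_left h3 (by positivity)
    _ = C * (2 / p) * G * ((X : ℝ) ^ (-c) * Real.sqrt (Real.log X)) * (p / 2 * (X * gn A s X k)) := by field_simp
    _ ≤ C * (2 / p) * G * ((1 + 2 / c) * (X : ℝ) ^ (-(c / 2))) * (p / 2 * (X * gn A s X k)) := by gcongr
    _ = C * (2 / p) * G * (1 + 2 / c) * (X : ℝ) ^ (-(c / 2)) * (p / 2 * (X * gn A s X k)) := by ring
    _ ≤ _ := mul_le_mul_of_nonneg_left h4 h6

/-- the total stopping time is larger than `B log n`, or infinite -/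
def Slow (B : ℝ) (n : ℕ) : Prop := ¬ ∃ t : ℕ, H t n ∧ (t : ℝ) ≤ B * Real.log n

theorem CTA.slow {E : ℕ → Prop} {ρ C c : ℝ} (h : CTA E ρ C c) (hC : 0 ≤ C) (hc0 : 0 < c) (hc : c ≤ 1) {g : ℝ}
    (hg : 0 ≤ g) {X : ℕ} (hX : 1 ≤ X) :
    |∑ n ∈ Icc 1 X, ind E n * ind (Slow g) n - ρ * ∑ n ∈ Icc 1 X, ind (Slow g) n|
      ≤ 3 * C * (1 + 2 / c) * (g + 1) * (X : ℝ) ^ (1 - c / 2) := by
  have h1 := h.thr hC hc (Q := fun t n => (t : ℝ) ≤ g * Real.log n)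
    (fun t n n' hn h2 => h2.trans (mul_le_mul_of_nonneg_left (log_mono hn) hg)) (⌊g * Real.log X⌋₊ + 1) hX
  set P : ℕ → Prop := fun n => ∃ t < ⌊g * Real.log X⌋₊ + 1, H t n ∧ (t : ℝ) ≤ g * Real.log n with hP
  have h0 := h.one.tr X hX
  have e : ∀ n ∈ Icc 1 X, ind (Slow g) n = 1 - ind P n := by
    intro n hn
    by_cases h3 : P n
    · rw [ind_pos h3, sub_self]
      apply ind_neg
      obtain ⟨t, _, h4, h5⟩ := h3
      exact fun h6 => h6 ⟨t, h4, h5⟩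
    · rw [ind_neg h3, sub_zero]
      apply ind_pos
      rintro ⟨t, h4, h5⟩
      apply h3
      refine ⟨t, ?_, h4, h5⟩
      have h6 : (t : ℝ) ≤ g * Real.log X := h5.trans (mul_le_mul_of_nonneg_left (log_mono (mem_Icc.1 hn).2) hg)
      exact Nat.lt_succ_of_le (Nat.le_floor h6)
  have e1 : ∑ n ∈ Icc 1 X, ind E n * ind (Slow g) n = ∑ n ∈ Icc 1 X, ind E n * ind (fun _ => True) n - ∑ n ∈ Icc 1 X, ind E n * ind P n := by
    rw [← sum_sub_distrib]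
    apply sum_congr rfl
    intro n hn
    rw [e n hn, ind_pos (P := fun _ : ℕ => True) trivial]; ring
  have e2 : ∑ n ∈ Icc 1 X, ind (Slow g) n = ∑ n ∈ Icc 1 X, ind (fun _ => True) n - ∑ n ∈ Icc 1 X, ind P n := by
    rw [← sum_sub_distrib]
    apply sum_congr rfl
    intro n hn
    rw [e n hn, ind_pos (P := fun _ : ℕ => True) trivial]
  rw [e1, e2]
  have e3 : ∑ n ∈ Icc 1 X, ind E n * ind (fun _ => True) n - ∑ n ∈ Icc 1 X, ind E n * ind P n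
      - ρ * (∑ n ∈ Icc 1 X, ind (fun _ => True) n - ∑ n ∈ Icc 1 X, ind P n) =
      (∑ n ∈ Icc 1 X, ind E n * ind (fun _ => True) n - ρ * ∑ n ∈ Icc 1 X, ind (fun _ => True) n) -
      (∑ n ∈ Icc 1 X, ind E n * ind P n - ρ * ∑ n ∈ Icc 1 X, ind P n) := by ring
  rw [e3]
  refine (abs_sub _ _).trans ?_
  have h2 := log_abs hc0 hg hX
  have h3 : (1 : ℝ) ≤ ((⌊g * Real.log X⌋₊ + 1 : ℕ) : ℝ) := by
    push_cast
    have : (0 : ℝ) ≤ ⌊g * Real.log X⌋₊ := Nat.cast_nonneg _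
    linarith
  set Y := ((⌊g * Real.log X⌋₊ + 1 : ℕ) : ℝ) with hY
  have h4 : C * (X : ℝ) ^ (1 - c) ≤ C * (Y * (X : ℝ) ^ (1 - c)) := by
    apply mul_le_mul_of_nonneg_left _ hC
    exact le_mul_of_one_le_left (by positivity) h3
  have h5 : C * (Y * (X : ℝ) ^ (1 - c)) ≤ C * ((1 + 2 / c) * (g + 1) * (X : ℝ) ^ (1 - c / 2)) :=
    mul_le_mul_of_nonneg_left h2 hC
  calc _ ≤ C * (X : ℝ) ^ (1 - c) + Y * (2 * C * (X : ℝ) ^ (1 - c)) := add_le_add h0 h1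
    _ ≤ C * (Y * (X : ℝ) ^ (1 - c)) + 2 * (C * (Y * (X : ℝ) ^ (1 - c))) := by
        have : Y * (2 * C * (X : ℝ) ^ (1 - c)) = 2 * (C * (Y * (X : ℝ) ^ (1 - c))) := by ring
        rw [this]; linarith
    _ ≤ 3 * (C * ((1 + 2 / c) * (g + 1) * (X : ℝ) ^ (1 - c / 2))) := by linarith
    _ = _ := by ring

end Pool.Agent.Run7.h439.DC
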