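import Pool.Agent.Run7.h439.DC.Tr
import Pool.Agent.H395R2.G3.Main

/-! Windows, thresholds and large deviations in the classes. -/

set_option autoImplicit false

namespace Pool.Agent.Run7.h439.DC

open Finset Filter Topology Pool.Agent.Y965.PL
open Pool.Agent.H499R2.HL (H H_unique)
open Pool.Agent.H499R2.LT (odn)
open Pool.Agent.H395R2.G3 (SetLD SetLD_finite fT rate count expo_eq FF FF_cont rr mu_gt)

theorem CTA.thr2 {E : ℕ → Prop} {ρ C c : ℝ} (h : CTA E ρ C c) (hC : 0 ≤ C) (hc : c ≤ 1) {Q R : ℕ → ℕ → Prop}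
    (hQ : ∀ t n n', n ≤ n' → Q t n → Q t n') (hR : ∀ t n n', n ≤ n' → R t n → R t n') (hRQ : ∀ t n, R t n → Q t n)
    (T : ℕ) {X : ℕ} (hX : 1 ≤ X) :
    |∑ n ∈ Icc 1 X, ind E n * ind (fun n => ∃ t < T, H t n ∧ Q t n ∧ ¬ R t n) n
      - ρ * ∑ n ∈ Icc 1 X, ind (fun n => ∃ t < T, H t n ∧ Q t n ∧ ¬ R t n) n| ≤ T * (4 * C * (X : ℝ) ^ (1 - c)) := by
  have e0 : ∀ n, ind (fun n => ∃ t < T, H t n ∧ Q t n ∧ ¬ R t n) n =
      ind (fun n => ∃ t < T, H t n ∧ Q t n) n - ind (fun n => ∃ t < T, H t n ∧ R t n) n := by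
    intro n
    by_cases h2 : ∃ t < T, H t n ∧ R t n
    · obtain ⟨t, ht, h3, h4⟩ := h2
      rw [ind_pos (P := fun n => ∃ t < T, H t n ∧ R t n) ⟨t, ht, h3, h4⟩,
        ind_pos (P := fun n => ∃ t < T, H t n ∧ Q t n) ⟨t, ht, h3, hRQ _ _ h4⟩, sub_self]
      apply ind_neg
      rintro ⟨t', _, h5, _, h6⟩
      have := H_unique h5 h3
      subst this
      exact h6 h4
    · rw [ind_neg (P := fun n => ∃ t < T, H t n ∧ R t n) h2, sub_zero]
      apply ind_congr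
      constructor
      · rintro ⟨t, ht, h3, h4, _⟩; exact ⟨t, ht, h3, h4⟩
      · rintro ⟨t, ht, h3, h4⟩
        exact ⟨t, ht, h3, h4, fun h5 => h2 ⟨t, ht, h3, h5⟩⟩
  have h1 := h.thr hC hc hQ T hX
  have h2 := h.thr hC hc hR T hX
  have e1 : ∑ n ∈ Icc 1 X, ind E n * ind (fun n => ∃ t < T, H t n ∧ Q t n ∧ ¬ R t n) n
      - ρ * ∑ n ∈ Icc 1 X, ind (fun n => ∃ t < T, H t n ∧ Q t n ∧ ¬ R t n) n =
      (∑ n ∈ Icc 1 X, ind E n * ind (fun n => ∃ t < T, H t n ∧ Q t n) n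
      - ρ * ∑ n ∈ Icc 1 X, ind (fun n => ∃ t < T, H t n ∧ Q t n) n) -
      (∑ n ∈ Icc 1 X, ind E n * ind (fun n => ∃ t < T, H t n ∧ R t n) n
      - ρ * ∑ n ∈ Icc 1 X, ind (fun n => ∃ t < T, H t n ∧ R t n) n) := by
    have a1 : ∑ n ∈ Icc 1 X, ind E n * ind (fun n => ∃ t < T, H t n ∧ Q t n ∧ ¬ R t n) n =
      ∑ n ∈ Icc 1 X, ind E n * ind (fun n => ∃ t < T, H t n ∧ Q t n) n -
      ∑ n ∈ Icc 1 X, ind E n * ind (fun n => ∃ t < T, H t n ∧ R t n) n := by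
      rw [← sum_sub_distrib]
      apply sum_congr rfl
      intro n _
      rw [e0 n, mul_sub]
    have a2 : ∑ n ∈ Icc 1 X, ind (fun n => ∃ t < T, H t n ∧ Q t n ∧ ¬ R t n) n =
      ∑ n ∈ Icc 1 X, ind (fun n => ∃ t < T, H t n ∧ Q t n) n - ∑ n ∈ Icc 1 X, ind (fun n => ∃ t < T, H t n ∧ R t n) n := by
      rw [← sum_sub_distrib]
      apply sum_congr rfl
      intro n _
      rw [e0 n]
    rw [a1, a2]; ring
  rw [e1]
  refine (abs_sub _ _).trans ?_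
  linarith

/-- the total stopping time is between `g1 log n` and `g2 log n` -/
def Win (g1 g2 : ℝ) (n0 n : ℕ) : Prop := n0 ≤ n ∧ ∃ t : ℕ, H t n ∧ g1 * Real.log n ≤ t ∧ (t : ℝ) ≤ g2 * Real.log n

theorem log_mono {n n' : ℕ} (h : n ≤ n') : Real.log n ≤ Real.log n' := by
  rcases Nat.eq_zero_or_pos n with h0 | h0
  · subst h0
    rw [Nat.cast_zero, Real.log_zero]
    exact Real.log_natCast_nonneg _
  · exact Real.log_le_log (by exact_mod_cast h0) (by exact_mod_cast h)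

theorem log_abs {c : ℝ} (hc : 0 < c) {g : ℝ} (hg : 0 ≤ g) {X : ℕ} (hX : 1 ≤ X) :
    ((⌊g * Real.log X⌋₊ + 1 : ℕ) : ℝ) * (X : ℝ) ^ (1 - c) ≤ (1 + 2 / c) * (g + 1) * (X : ℝ) ^ (1 - c / 2) := by
  have hXR : (1 : ℝ) ≤ X := by exact_mod_cast hX
  have hX0 : (0 : ℝ) < X := by linarith
  have h0 : 0 ≤ Real.log X := Real.log_nonneg hXR
  have h1 : ((⌊g * Real.log X⌋₊ + 1 : ℕ) : ℝ) ≤ g * Real.log X + 1 := by
    push_cast
    have := Nat.floor_le (show 0 ≤ g * Real.log X by positivity)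
    linarith
  have h2 : Real.log X ≤ (X : ℝ) ^ (c / 2) / (c / 2) := Real.log_le_rpow_div hX0.le (by positivity)
  have h3 : (1 : ℝ) ≤ (X : ℝ) ^ (c / 2) := Real.one_le_rpow hXR (by positivity)
  have h4 : (X : ℝ) ^ (c / 2) / (c / 2) = 2 / c * (X : ℝ) ^ (c / 2) := by field_simp
  have h5 : g * Real.log X + 1 ≤ (1 + 2 / c) * (g + 1) * (X : ℝ) ^ (c / 2) := by
    rw [h4] at h2
    have h6 : g * Real.log X ≤ g * (2 / c * (X : ℝ) ^ (c / 2)) := mul_le_mul_of_nonneg_left h2 hg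
    have h7 : 0 ≤ 2 / c * (X : ℝ) ^ (c / 2) := by positivity
    have h8 : 0 ≤ g * (X : ℝ) ^ (c / 2) := by positivity
    nlinarith
  have h6 : (X : ℝ) ^ (1 - c / 2) = (X : ℝ) ^ (c / 2) * (X : ℝ) ^ (1 - c) := by
    rw [← Real.rpow_add hX0]; congr 1; ring
  rw [h6, ← mul_assoc]
  exact mul_le_mul_of_nonneg_right (h1.trans h5) (by positivity)

theorem win_iff {g1 g2 : ℝ} (hg : g1 ≤ g2) (hg1 : 0 ≤ g1) (n0 : ℕ) {X n : ℕ} (hn : n ≤ X) : Win g1 g2 n0 n ↔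
    ∃ t < ⌊g2 * Real.log X⌋₊ + 1, H t n ∧ (n0 ≤ n ∧ (t : ℝ) ≤ g2 * Real.log n) ∧ ¬ (n0 ≤ n ∧ (t : ℝ) < g1 * Real.log n) := by
  constructor
  · rintro ⟨h0, t, h1, h2, h3⟩
    refine ⟨t, ?_, h1, ⟨h0, h3⟩, fun h4 => absurd h4.2 (not_lt.2 h2)⟩
    have h4 : (t : ℝ) ≤ g2 * Real.log X := h3.trans (mul_le_mul_of_nonneg_left (log_mono hn) (by linarith))
    exact Nat.lt_succ_of_le (Nat.le_floor h4)
  · rintro ⟨t, _, h1, ⟨h0, h3⟩, h4⟩
    refine ⟨h0, t, h1, ?_, h3⟩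
    by_contra hcon
    exact h4 ⟨h0, not_le.1 hcon⟩

/-- WINDOWS -/
theorem CTA.win {E : ℕ → Prop} {ρ C c : ℝ} (h : CTA E ρ C c) (hC : 0 ≤ C) (hc0 : 0 < c) (hc : c ≤ 1) (n0 : ℕ) {g1 g2 : ℝ}
    (hg1 : 0 ≤ g1) (hg : g1 ≤ g2) {X : ℕ} (hX : 1 ≤ X) :
    |∑ n ∈ Icc 1 X, ind E n * ind (Win g1 g2 n0) n - ρ * ∑ n ∈ Icc 1 X, ind (Win g1 g2 n0) n|
      ≤ 4 * C * (1 + 2 / c) * (g2 + 1) * (X : ℝ) ^ (1 - c / 2) := by
  have h1 := h.thr2 hC hc (Q := fun t n => n0 ≤ n ∧ (t : ℝ) ≤ g2 * Real.log n)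
    (R := fun t n => n0 ≤ n ∧ (t : ℝ) < g1 * Real.log n)
    (fun t n n' hn h2 => ⟨h2.1.trans hn, h2.2.trans (mul_le_mul_of_nonneg_left (log_mono hn) (by linarith))⟩)
    (fun t n n' hn h2 => ⟨h2.1.trans hn, h2.2.trans_le (mul_le_mul_of_nonneg_left (log_mono hn) hg1)⟩)
    (fun t n h2 => ⟨h2.1, h2.2.le.trans (mul_le_mul_of_nonneg_right hg (Real.log_natCast_nonneg n))⟩)
    (⌊g2 * Real.log X⌋₊ + 1) hX
  have e : ∀ n ∈ Icc 1 X, ind (Win g1 g2 n0) n = ind (fun n => ∃ t < ⌊g2 * Real.log X⌋₊ + 1, H t n ∧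
      (n0 ≤ n ∧ (t : ℝ) ≤ g2 * Real.log n) ∧ ¬ (n0 ≤ n ∧ (t : ℝ) < g1 * Real.log n)) n := by
    intro n hn
    exact ind_congr (win_iff hg hg1 n0 (mem_Icc.1 hn).2)
  rw [sum_congr rfl e, sum_congr rfl (fun n hn => by rw [e n hn])]
  refine h1.trans ?_
  have h2 := log_abs hc0 (show 0 ≤ g2 by linarith) hX
  calc ((⌊g2 * Real.log X⌋₊ + 1 : ℕ) : ℝ) * (4 * C * (X : ℝ) ^ (1 - c))
      = 4 * C * (((⌊g2 * Real.log X⌋₊ + 1 : ℕ) : ℝ) * (X : ℝ) ^ (1 - c)) := by ring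
    _ ≤ 4 * C * ((1 + 2 / c) * (g2 + 1) * (X : ℝ) ^ (1 - c / 2)) := mul_le_mul_of_nonneg_left h2 (by positivity)
    _ = _ := by ring

/-- the total stopping time is at least `g log n`, or infinite -/
def Big (g : ℝ) (n0 n : ℕ) : Prop := n0 ≤ n ∧ ¬ ∃ t : ℕ, H t n ∧ (t : ℝ) < g * Real.log n

/-- LARGE VALUES -/
theorem CTA.big {E : ℕ → Prop} {ρ C c : ℝ} (h : CTA E ρ C c) (hC : 0 ≤ C) (hc0 : 0 < c) (hc : c ≤ 1) (n0 : ℕ) {g : ℝ}
    (hg : 0 ≤ g) {X : ℕ} (hX : 1 ≤ X) :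
    |∑ n ∈ Icc 1 X, ind E n * ind (Big g n0) n - ρ * ∑ n ∈ Icc 1 X, ind (Big g n0) n|
      ≤ 4 * C * (1 + 2 / c) * (g + 1) * (X : ℝ) ^ (1 - c / 2) := by
  have h1 := h.thr hC hc (Q := fun t n => n0 ≤ n ∧ (t : ℝ) < g * Real.log n)
    (fun t n n' hn h2 => ⟨h2.1.trans hn, h2.2.trans_le (mul_le_mul_of_nonneg_left (log_mono hn) hg)⟩)
    (⌊g * Real.log X⌋₊ + 1) hX
  set P : ℕ → Prop := fun n => ∃ t < ⌊g * Real.log X⌋₊ + 1, H t n ∧ (n0 ≤ n ∧ (t : ℝ) < g * Real.log n) with hP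
  set Q : ℕ → Prop := fun n => n0 ≤ n with hQ
  have h0 := h.one.seg' hC hc (P := Q) (fun n n' hn h2 => h2.trans hn) hX
  have e : ∀ n ∈ Icc 1 X, ind (Big g n0) n = ind (fun _ => True) n * ind Q n - ind P n := by
    intro n hn
    rw [ind_pos (P := fun _ : ℕ => True) trivial, one_mul]
    by_cases h3 : P n
    · have h3' := h3
      obtain ⟨t, _, h4, h5⟩ := h3
      rw [ind_pos h3', ind_pos (P := Q) h5.1, sub_self]
      apply ind_neg
      exact fun h6 => h6.2 ⟨t, h4, h5.2⟩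
    · rw [ind_neg h3, sub_zero]
      apply ind_congr
      constructor
      · intro h4; exact h4.1
      · intro h4
        refine ⟨h4, ?_⟩
        rintro ⟨t, h5, h6⟩
        apply h3
        refine ⟨t, ?_, h5, h4, h6⟩
        have h7 : (t : ℝ) ≤ g * Real.log X := h6.le.trans (mul_le_mul_of_nonneg_left (log_mono (mem_Icc.1 hn).2) hg)
        exact Nat.lt_succ_of_le (Nat.le_floor h7)
  have e1 : ∑ n ∈ Icc 1 X, ind E n * ind (Big g n0) n = ∑ n ∈ Icc 1 X, ind E n * (ind (fun _ => True) n * ind Q n) -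
      ∑ n ∈ Icc 1 X, ind E n * ind P n := by
    rw [← sum_sub_distrib]
    apply sum_congr rfl
    intro n hn
    rw [e n hn]; ring
  have e2 : ∑ n ∈ Icc 1 X, ind (Big g n0) n = ∑ n ∈ Icc 1 X, ind (fun _ => True) n * ind Q n - ∑ n ∈ Icc 1 X, ind P n := by
    rw [← sum_sub_distrib]
    apply sum_congr rfl
    intro n hn
    rw [e n hn]
  rw [e1, e2]
  have e3 : ∑ n ∈ Icc 1 X, ind E n * (ind (fun _ => True) n * ind Q n) - ∑ n ∈ Icc 1 X, ind E n * ind P n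
      - ρ * (∑ n ∈ Icc 1 X, ind (fun _ => True) n * ind Q n - ∑ n ∈ Icc 1 X, ind P n) =
      (∑ n ∈ Icc 1 X, ind E n * (ind (fun _ => True) n * ind Q n) - ρ * ∑ n ∈ Icc 1 X, ind (fun _ => True) n * ind Q n) -
      (∑ n ∈ Icc 1 X, ind E n * ind P n - ρ * ∑ n ∈ Icc 1 X, ind P n) := by ring
  rw [e3]
  refine (abs_sub _ _).trans ?_
  have h2 := log_abs hc0 hg hX
  have hXR : (1 : ℝ) ≤ X := by exact_mod_cast hX
  have h3 : (1 : ℝ) ≤ ((⌊g * Real.log X⌋₊ + 1 : ℕ) : ℝ) := by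
    push_cast
    have : (0 : ℝ) ≤ ⌊g * Real.log X⌋₊ := Nat.cast_nonneg _
    linarith
  set Y := ((⌊g * Real.log X⌋₊ + 1 : ℕ) : ℝ) with hY
  have h4 : C * (X : ℝ) ^ (1 - c) ≤ C * (Y * (X : ℝ) ^ (1 - c)) := by
    apply mul_le_mul_of_nonneg_left _ hC
    exact le_mul_of_one_le_left (by positivity) h3
  have h5 : C * (Y * (X : ℝ) ^ (1 - c)) ≤ C * ((1 + 2 / c) * (g + 1) * (X : ℝ) ^ (1 - c / 2)) :=
    mul_le_mul_of_nonneg_left h2 hC
  calc _ ≤ 2 * C * (X : ℝ) ^ (1 - c) + Y * (2 * C * (X : ℝ) ^ (1 - c)) := add_le_add h0 h1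
    _ ≤ 2 * (C * (Y * (X : ℝ) ^ (1 - c))) + 2 * (C * (Y * (X : ℝ) ^ (1 - c))) := by
        have : Y * (2 * C * (X : ℝ) ^ (1 - c)) = 2 * (C * (Y * (X : ℝ) ^ (1 - c))) := by ring
        rw [this]; linarith
    _ ≤ 4 * (C * ((1 + 2 / c) * (g + 1) * (X : ℝ) ^ (1 - c / 2))) := by linarith
    _ = _ := by ring

/-! ### large deviations -/

theorem fT_eq : fT = Pool.Agent.H499R2.ND.Tn := by funext a; rfl

theorem H_iff_least {k n : ℕ} : IsLeast {j : ℕ | fT^[j] n = 1} k ↔ H k n := by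
  rw [fT_eq]
  constructor
  · rintro ⟨h1, h2⟩
    refine ⟨h1, fun i hi h3 => ?_⟩
    have := h2 h3
    omega
  · rintro ⟨h1, h2⟩
    refine ⟨h1, fun j hj => ?_⟩
    by_contra hcon
    exact h2 j (not_le.1 hcon) hj

open Classical in
theorem setLD_card {α ε x : ℝ} (hx : 0 ≤ x) : ((SetLD α ε x).ncard : ℝ) = ∑ n ∈ Icc 1 ⌊x⌋₊, ind (Win (α - ε) (α + ε) 2) n := by
  unfold ind
  rw [sum_boole, ← Set.ncard_coe_finset]
  congr 2
  ext n
  simp only [Finset.coe_filter, mem_Icc, Set.mem_ofPred_eq]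
  unfold SetLD Win
  rw [Set.mem_ofPred_eq]
  constructor
  · rintro ⟨h1, h2, k, h3, h4⟩
    refine ⟨⟨by omega, Nat.le_floor h2⟩, h1, k, H_iff_least.1 h3, ?_⟩
    have hn : (0 : ℝ) < Real.log n := Real.log_pos (by exact_mod_cast h1)
    rw [abs_le] at h4
    have h5 := h4.1
    have h6 := h4.2
    constructor
    · have : α - ε ≤ k / Real.log n := by linarith
      rwa [le_div_iff₀ hn] at this
    · have : k / Real.log n ≤ α + ε := by linarith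
      rwa [div_le_iff₀ hn] at this
  · rintro ⟨⟨_, h2⟩, h1, k, h3, h5, h6⟩
    refine ⟨h1, (Nat.le_floor_iff hx).1 h2, k, H_iff_least.2 h3, ?_⟩
    have hn : (0 : ℝ) < Real.log n := Real.log_pos (by exact_mod_cast h1)
    rw [abs_le]
    constructor
    · have : α - ε ≤ k / Real.log n := by rwa [le_div_iff₀ hn]
      linarith
    · have : k / Real.log n ≤ α + ε := by rwa [div_le_iff₀ hn]
      linarith

/-- LARGE DEVIATIONS in the class -/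
theorem CTA.ld {E : ℕ → Prop} {ρ C c : ℝ} (h : CTA E ρ C c) (hρ : 0 < ρ) (hC : 0 ≤ C) (hc0 : 0 < c) (hc : c ≤ 1) {α : ℝ}
    (hα : 1 / Real.log 2 < α) (hαc : α * rate (1 / α) < c / 2) {ε : ℝ} (hε : 0 < ε) :
    ∃ X₀ : ℝ, ∀ x : ℝ, X₀ ≤ x → x ^ (1 - α * rate (1 / α) - ε) ≤ ∑ n ∈ Icc 1 ⌊x⌋₊, ind E n * ind (Win (α - ε) (α + ε) 2) n := by
  have hl2 : 0 < Real.log 2 := Real.log_pos (by norm_num)
  have hα0 : 0 < α := lt_trans (by positivity) hα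
  have hF : 0 < FF (rr α) := by
    have h1 := expo_eq hα
    have h2 : 0 < α * FF (rr α) := by rw [← h1]; linarith
    exact pos_of_mul_pos_right h2 hα0.le
  set e := α * rate (1 / α) with he
  set ε' : ℝ := min (min (ε / 2) α) ((c / 2 - e) / 2) with hε'
  have hε'0 : 0 < ε' := lt_min (lt_min (by positivity) hα0) (by linarith)
  have hε'1 : ε' ≤ ε / 2 := (min_le_left _ _).trans (min_le_left _ _)
  have hε'2 : ε' ≤ α := (min_le_left _ _).trans (min_le_right _ _)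
  have hε'3 : ε' ≤ (c / 2 - e) / 2 := min_le_right _ _
  obtain ⟨X₀, hX₀⟩ := count hα hF hε'0
  rw [← he] at hX₀
  set D : ℝ := 4 * C * (1 + 2 / c) * (α + ε' + 1) with hD
  have hD0 : 0 ≤ D := by positivity
  have t1 : Tendsto (fun x : ℝ => x ^ (ε - ε')) atTop atTop := tendsto_rpow_atTop (by linarith)
  have t2 : Tendsto (fun x : ℝ => x ^ ((c / 2 - e - ε'))) atTop atTop := tendsto_rpow_atTop (by linarith)
  obtain ⟨X₁, hX₁⟩ := ((t1.eventually_ge_atTop (2 / ρ)).and ((t2.eventually_ge_atTop (2 * D / ρ)).and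
    ((eventually_ge_atTop X₀).and (eventually_ge_atTop 1)))).exists_forall_of_atTop
  refine ⟨X₁, fun x hx => ?_⟩
  obtain ⟨g1, g2, g3, g4⟩ := hX₁ x hx
  have hx0 : 0 < x := by linarith
  have hfl : 1 ≤ ⌊x⌋₊ := (Nat.one_le_floor_iff x).2 g4
  have h1 := hX₀ x g3
  rw [setLD_card hx0.le] at h1
  have h2 := h.win hC hc0 hc 2 (g1 := α - ε') (g2 := α + ε') (by linarith) (by linarith) hfl
  have h3 := (abs_le.1 h2).1
  have h4 : (⌊x⌋₊ : ℝ) ^ (1 - c / 2) ≤ x ^ (1 - c / 2) :=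
    Real.rpow_le_rpow (by positivity) (Nat.floor_le hx0.le) (by linarith)
  have h5 : D * (⌊x⌋₊ : ℝ) ^ (1 - c / 2) ≤ D * x ^ (1 - c / 2) := mul_le_mul_of_nonneg_left h4 hD0
  have h6 : ρ * x ^ (1 - e - ε') ≤ ρ * ∑ n ∈ Icc 1 ⌊x⌋₊, ind (Win (α - ε') (α + ε') 2) n :=
    mul_le_mul_of_nonneg_left h1 hρ.le
  have h7 : x ^ (1 - e - ε') = x ^ (c / 2 - e - ε') * x ^ (1 - c / 2) := by
    rw [← Real.rpow_add hx0]; congr 1; ring
  have h8 : x ^ (1 - e - ε') = x ^ (ε - ε') * x ^ (1 - e - ε) := by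
    rw [← Real.rpow_add hx0]; congr 1; ring
  have h9 : D * x ^ (1 - c / 2) ≤ ρ / 2 * x ^ (1 - e - ε') := by
    rw [h7]
    have : 2 * D / ρ * x ^ (1 - c / 2) ≤ x ^ (c / 2 - e - ε') * x ^ (1 - c / 2) :=
      mul_le_mul_of_nonneg_right g2 (by positivity)
    calc D * x ^ (1 - c / 2) = ρ / 2 * (2 * D / ρ * x ^ (1 - c / 2)) := by field_simp
      _ ≤ _ := mul_le_mul_of_nonneg_left this (by positivity)
  have h10 : x ^ (1 - e - ε) ≤ ρ / 2 * x ^ (1 - e - ε') := by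
    rw [h8]
    have : 2 / ρ * x ^ (1 - e - ε) ≤ x ^ (ε - ε') * x ^ (1 - e - ε) := mul_le_mul_of_nonneg_right g1 (by positivity)
    calc x ^ (1 - e - ε) = ρ / 2 * (2 / ρ * x ^ (1 - e - ε)) := by field_simp
      _ ≤ _ := mul_le_mul_of_nonneg_left this (by positivity)
  have h11 : ∑ n ∈ Icc 1 ⌊x⌋₊, ind E n * ind (Win (α - ε') (α + ε') 2) n ≤
      ∑ n ∈ Icc 1 ⌊x⌋₊, ind E n * ind (Win (α - ε) (α + ε) 2) n := by
    apply sum_le_sum
    intro n _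
    apply mul_le_mul_of_nonneg_left _ (ind_nonneg _ _)
    apply ind_mono
    rintro ⟨a1, t, a2, a3, a4⟩
    have hn : 0 ≤ Real.log (n : ℝ) := Real.log_natCast_nonneg n
    exact ⟨a1, t, a2, (mul_le_mul_of_nonneg_right (by linarith) hn).trans a3,
      a4.trans (mul_le_mul_of_nonneg_right (by linarith) hn)⟩
  linarith

/-- slopes with a small rate -/
theorem exists_alpha {κ : ℝ} (hκ : 0 < κ) : ∃ α : ℝ, 2 / Real.log (4 / 3) < α ∧ 1 / Real.log 2 < α ∧ α * rate (1 / α) < κ := by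
  have hl2 : 0 < Real.log 2 := Real.log_pos (by norm_num)
  have hl3 : 0 < Real.log 3 := Real.log_pos (by norm_num)
  have h43 : 0 < Real.log (4 / 3) := Real.log_pos (by norm_num)
  have hμe : ((1 / 2) * Real.log (4 / 3))⁻¹ = 2 / Real.log (4 / 3) := by field_simp
  have hμ := mu_gt
  rw [hμe] at hμ
  set μ := 2 / Real.log (4 / 3) with hμdef
  have hμ0 : 0 < μ := by positivity
  have h43' : Real.log (4 / 3) = 2 * Real.log 2 - Real.log 3 := by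
    rw [Real.log_div (by norm_num) (by norm_num), show (4 : ℝ) = 2 ^ 2 by norm_num, Real.log_pow]
    norm_num
  have hrr : rr μ = 1 / 2 := by
    unfold rr
    rw [hμdef, one_div_div, h43']
    field_simp
    ring
  have hFF : FF (1 / 2) = Real.log (4 / 3) / 2 := by
    unfold FF
    rw [one_div, Real.binEntropy_two_inv, h43']
    ring
  have hcont : ContinuousAt (fun α : ℝ => 1 - α * FF (rr α)) μ := by
    have h1 : ContinuousAt rr μ := by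
      unfold rr
      exact ((continuousAt_const).sub (continuousAt_const.div continuousAt_id hμ0.ne')).div_const _
    have h2 : ContinuousAt (fun α => FF (rr α)) μ := FF_cont.continuousAt.comp h1
    exact continuousAt_const.sub (continuousAt_id.mul h2)
  have hval : 1 - μ * FF (rr μ) = 0 := by
    rw [hrr, hFF, hμdef]
    field_simp
    ring
  have h3 : ∀ᶠ α in 𝓝 μ, 1 - α * FF (rr α) < κ := by
    have := hcont.tendsto
    rw [hval] at this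
    exact this.eventually (gt_mem_nhds hκ)
  have h4 : ∀ᶠ α in 𝓝[>] μ, 1 - α * FF (rr α) < κ := h3.filter_mono nhdsWithin_le_nhds
  obtain ⟨α, h5, h6⟩ := (h4.and self_mem_nhdsWithin).exists
  have h6' : μ < α := h6
  refine ⟨α, h6', hμ.trans h6', ?_⟩
  have h7 := expo_eq (hμ.trans h6')
  linarith

end Pool.Agent.Run7.h439.DC
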