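import Pool.Agent.Run7.h439.DC.Inv3
import Pool.Agent.Run7.h439.DC.H3
import Pool.Agent.W26.HN.D

/-! Odd integers in the classes: invariant sets and first entrances, for the Syracuse map on the negative odd integers. -/

set_option autoImplicit false

namespace Pool.Agent.Run7.h439.DC

open Finset Filter Topology Pool.Agent.H319R3.GC
open Pool.Agent.Y965.PS (Tz ac)
open Pool.Agent.Y965.PL (Mn MnS th ind ind_pos ind_neg ind_congr Mn_of_Dn)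
open Pool.Agent.W26.HN (Sy En E Lift)

/-- the sums over the odd integers in the classes: functions constant on the classes of trajectories which meet -/
theorem inv_ct_odd {l : ℕ} {q m : Fin l → ℕ} {W : Fin l → ℕ → ℤ} (hD : DD 2 q m W) :
    ∃ C c : ℝ, 0 ≤ C ∧ 0 < c ∧ c ≤ 1 ∧ ∀ S : Set ℤ, (∀ N : ℤ, N < 0 → N % 2 = 1 → (N ∈ S ↔ Sy N ∈ S)) →
    ∀ a : Fin l → ℤ, CT (Ed m W a) (∏ i, (1 / (m i : ℝ))) C c (ind (fun n => n % 2 = 1 ∧ -(n : ℤ) ∈ S)) := by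
  classical
  obtain ⟨C, c, hC, hc, H⟩ := ct_digits_odd (adm3 (k := 1) odd_one) 1 0 q hD.three hD.copd hD.cop W hD.add m hD.pos
    (fun i => obs_one (hD.free i))
  refine ⟨C, min c 1, hC, lt_min hc one_pos, min_le_right _ _, fun S hS a => ?_⟩
  have h1 := H (-1) (Or.inr rfl) _ (ksync_f (f := fun x => if x ∈ Lift S then 1 else 0)
    (fun x => by split_ifs <;> simp) (fun x => by
      rw [Tm3]
      have h2 : x ∈ Lift S ↔ Tz 1 x ∈ Lift S := Pool.Agent.W26.HN.lift_inv hS x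
      by_cases hx : x ∈ Lift S
      · rw [if_pos hx, if_pos (show Tz 1 x ∈ Lift S from h2.1 hx)]
      · rw [if_neg hx, if_neg (fun h => hx (h2.2 h))])) a
  refine (h1.mono hC (min_le_left _ _)).congr fun n => ?_
  by_cases hn : n % 2 = 1
  · rw [if_pos hn]
    have e : -1 * (n : ℤ) ∈ Lift S ↔ -(n : ℤ) ∈ S := by
      rw [neg_one_mul]
      exact Pool.Agent.W26.HN.lift_odd (by omega) (by omega)
    by_cases h2 : -(n : ℤ) ∈ S
    · rw [if_pos (e.2 h2), ind_pos (P := fun n : ℕ => n % 2 = 1 ∧ -(n : ℤ) ∈ S) ⟨hn, h2⟩]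
    · rw [if_neg (fun h => h2 (e.1 h)), ind_neg (P := fun n : ℕ => n % 2 = 1 ∧ -(n : ℤ) ∈ S) (fun h => h2 h.2)]
  · rw [if_neg hn, ind_neg (P := fun n : ℕ => n % 2 = 1 ∧ -(n : ℤ) ∈ S) (fun h => hn h.1)]

/-- the sums over the odd integers in the classes: first entrances of the Syracuse map -/
theorem en_ct_odd {l : ℕ} {q m : Fin l → ℕ} {W : Fin l → ℕ → ℤ} (hD : DD 2 q m W) (R : ℕ) :
    ∃ C c : ℝ, 0 ≤ C ∧ 0 < c ∧ c ≤ 1 ∧ ∀ Z : Finset ℤ, (∀ y ∈ Z, y % 2 = 1) → (∀ y ∈ Z, |y| ≤ (R : ℤ)) →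
    ∀ (B : Set (ℕ × ℤ)) (a : Fin l → ℤ), CT (Ed m W a) (∏ i, (1 / (m i : ℝ))) C c
      (ind (fun n => n % 2 = 1 ∧ ∃ k, En Z k (-(n : ℤ)) ∧ (k, Sy^[k] (-(n : ℤ))) ∈ B)) := by
  classical
  obtain ⟨k0, hk0⟩ := ksync_fe (adm3 (k := 1) odd_one) R
  obtain ⟨C, c, hC, hc, H⟩ := ct_digits_odd (adm3 (k := 1) odd_one) 2 k0 q hD.three hD.copd hD.cop W hD.add m hD.pos
    (fun i => obs_one (hD.free i))
  refine ⟨C, min c 1, hC, lt_min hc one_pos, min_le_right _ _, fun Z hZ hR B a => ?_⟩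
  set f : ℤ → ℝ := fun x => if ∃ k, FE (Tz 1) (fun x => x ∈ Z) k x ∧ (ac 1 k x, (Tz 1)^[k] x) ∈ B then 1 else 0 with hf
  have hO : OfH 1 (fun x => x ∈ Z) f := by
    refine ⟨fun y => ?_, fun k y z hy hz hyz1 hyz2 => ?_, fun y z hy hz => ?_⟩
    · rw [hf]; dsimp only; split_ifs <;> simp
    · have e : (∃ k, FE (Tz 1) (fun x => x ∈ Z) k y ∧ (ac 1 k y, (Tz 1)^[k] y) ∈ B) ↔
          (∃ k, FE (Tz 1) (fun x => x ∈ Z) k z ∧ (ac 1 k z, (Tz 1)^[k] z) ∈ B) := by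
        constructor
        · rintro ⟨j, h1, h2⟩
          have hj := FE_unique h1 hy
          subst hj
          exact ⟨j, hz, by rw [← hyz1, ← hyz2]; exact h2⟩
        · rintro ⟨j, h1, h2⟩
          have hj := FE_unique h1 hz
          subst hj
          exact ⟨j, hy, by rw [hyz1, hyz2]; exact h2⟩
      rw [hf]
      simp only [e]
    · rw [hf]
      dsimp only
      rw [if_neg, if_neg]
      · rintro ⟨j, h2, _⟩; exact hz j h2
      · rintro ⟨j, h2, _⟩; exact hy j h2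
  have h1 := H (-1) (Or.inr rfl) _ (hk0 (-1) (Or.inr rfl) _ (fun x hx => hR x hx) _ (hO.ef (-1))) a
  refine (h1.mono hC (min_le_left _ _)).congr fun n => ?_
  by_cases hn : n % 2 = 1
  · rw [if_pos hn]
    have hx : (-(n : ℤ)) % 2 = 1 := by omega
    have e : (∃ k, FE (Tz 1) (fun x => x ∈ Z) k (-1 * (n : ℤ)) ∧ (ac 1 k (-1 * (n : ℤ)), (Tz 1)^[k] (-1 * (n : ℤ))) ∈ B) ↔
        ∃ k, En Z k (-(n : ℤ)) ∧ (k, Sy^[k] (-(n : ℤ))) ∈ B := by
      rw [neg_one_mul]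
      constructor
      · rintro ⟨k, hk, hkB⟩
        obtain ⟨j, hj, hj'⟩ := Pool.Agent.W26.HN.En_of_E hZ k _ hx hk
        have h2 : ((Tz 1)^[k] (-(n : ℤ))) % 2 = 1 := hZ _ hk.1
        obtain ⟨i, hi, hi'⟩ := Pool.Agent.W26.HN.Td_iter hx k h2
        have hij : i = j := by
          have : (i : ℤ) = j := by rw [hi, hj]
          exact_mod_cast this
        subst hij
        refine ⟨i, hj', ?_⟩
        rw [hi']
        rw [od_ac] at hj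
        have hj2 : i = ac 1 k (-(n : ℤ)) := by exact_mod_cast hj
        rw [hj2]
        exact hkB
      · rintro ⟨j, hj, hjB⟩
        obtain ⟨k, hk, hk'⟩ := Pool.Agent.W26.HN.E_of_En hZ j _ hx hj
        have h2 : ((Tz 1)^[k] (-(n : ℤ))) % 2 = 1 := hZ _ hk'.1
        obtain ⟨i, hi, hi'⟩ := Pool.Agent.W26.HN.Td_iter hx k h2
        have hij : i = j := by
          have : (i : ℤ) = j := by rw [hi, hk]
          exact_mod_cast this
        subst hij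
        refine ⟨k, hk', ?_⟩
        rw [od_ac] at hk
        have hj2 : i = ac 1 k (-(n : ℤ)) := by exact_mod_cast hk
        rw [← hj2]
        have h3 : (Tz 1)^[k] (-(n : ℤ)) = Sy^[i] (-(n : ℤ)) := hi'.symm
        rw [h3]
        exact hjB
    rw [hf]
    dsimp only
    by_cases h2 : ∃ k, En Z k (-(n : ℤ)) ∧ (k, Sy^[k] (-(n : ℤ))) ∈ B
    · rw [if_pos (e.2 h2), ind_pos (P := fun n : ℕ => n % 2 = 1 ∧ ∃ k, En Z k (-(n : ℤ)) ∧ (k, Sy^[k] (-(n : ℤ))) ∈ B) ⟨hn, h2⟩]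
    · rw [if_neg (fun h => h2 (e.1 h)),
        ind_neg (P := fun n : ℕ => n % 2 = 1 ∧ ∃ k, En Z k (-(n : ℤ)) ∧ (k, Sy^[k] (-(n : ℤ))) ∈ B) (fun h => h2 h.2)]
  · rw [if_neg hn, ind_neg (P := fun n : ℕ => n % 2 = 1 ∧ ∃ k, En Z k (-(n : ℤ)) ∧ (k, Sy^[k] (-(n : ℤ))) ∈ B) (fun h => hn h.1)]

/-- the constants of the normal law of the entrance times -/
noncomputable def bS : ℝ := Real.log 2 * Real.sqrt (2 / Real.log (4 / 3) ^ 3)

theorem bS_pos : 0 < bS := by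
  unfold bS
  have h3 := Real.log_pos (by norm_num : (1 : ℝ) < 2)
  have h4 := Real.log_pos (by norm_num : (1 : ℝ) < 4 / 3)
  positivity

theorem th_S (x : ℝ) (n : ℕ) : th (1 / Real.log (4 / 3)) bS x n = Pool.Agent.H499R2.HL.bo x (Real.log n) := by
  have h4 := Real.log_pos (by norm_num : (1 : ℝ) < 4 / 3)
  unfold th bS Pool.Agent.H499R2.HL.bo
  have e : Real.sqrt (2 * Real.log n / Real.log (4 / 3) ^ 3) = Real.sqrt (2 / Real.log (4 / 3) ^ 3) * Real.sqrt (Real.log n) := by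
    rw [← Real.sqrt_mul (by positivity)]
    congr 1
    ring
  rw [e]
  ring

/-- THE LAW OF THE ENTRANCE TIMES IN THE CLASS -/
theorem en_law {Z : Finset ℤ} {δ : ℝ} {r : ℕ} {b : ℤ}
    (hδ : ∀ x : ℝ, Pool.Agent.H499R2.ND.Dn (fun n : ℕ => n % 2 = 1 ∧ ∃ k : ℕ, En Z k (-(n : ℤ)) ∧
        (k : ℝ) ≤ Pool.Agent.H499R2.HL.bo x (Real.log n) ∧ (k : ℤ) ≡ b [ZMOD r]) (δ / r * Pool.Agent.H499R2.ND.Phi x / 2))
    {E' : ℕ → Prop} {ρ C c : ℝ} (hρ0 : 0 ≤ ρ) (hρ1 : ρ ≤ 1) (hc : 0 < c)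
    (hT : ∀ B : Set (ℕ × ℤ), CT E' ρ C c (ind (fun n => n % 2 = 1 ∧ ∃ k, En Z k (-(n : ℤ)) ∧ (k, Sy^[k] (-(n : ℤ))) ∈ B)))
    (x : ℝ) :
    MnS id (ind (fun n => E' n ∧ n % 2 = 1 ∧ ∃ k : ℕ, En Z k (-(n : ℤ)) ∧
        (k : ℝ) ≤ Pool.Agent.H499R2.HL.bo x (Real.log n) ∧ (k : ℤ) ≡ b [ZMOD r]))
      (ρ * (δ / r * Pool.Agent.H499R2.ND.Phi x / 2)) := by
  have h4 := Real.log_pos (by norm_num : (1 : ℝ) < 4 / 3)
  have h1 := cls_law' (C := C) (L := fun (t : ℝ) (n : ℕ) => n % 2 = 1 ∧ ∃ k : ℕ, En Z k (-(n : ℤ)) ∧ (k : ℝ) ≤ t ∧ (k : ℤ) ≡ b [ZMOD r])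
    (dd := fun x => δ / r * Pool.Agent.H499R2.ND.Phi x / 2) (A := 1 / Real.log (4 / 3)) (b := bS) hρ0 hρ1 hc
    (fun t t' htt n => by
      rintro ⟨h0, k, h1, h2, h3⟩
      exact ⟨h0, k, h1, h2.trans htt, h3⟩)
    (fun t => (hT {p | (p.1 : ℝ) ≤ t ∧ (p.1 : ℤ) ≡ b [ZMOD r]}).congr fun n => ind_congr Iff.rfl)
    (by positivity) bS_pos
    ((Pool.Agent.H499R2.ND.Phi_continuous.const_mul _).div_const _)
    (fun y => by
      refine Mn_of_Dn (Pool.Agent.H499R2.LT.Dn_iff (fun n hn => ?_) (hδ y))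
      rw [th_S]) x
  simp only [th_S] at h1
  exact h1

end Pool.Agent.Run7.h439.DC
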