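import Pool.Agent.Run7.h439.DC.Inv3
import Pool.Agent.Run7.h439.DC.H3

/-! Odd integers in the classes: invariant sets and first entrances for the maps `3x+d`. -/

set_option autoImplicit false

namespace Pool.Agent.Run7.h439.DC

open Finset Filter Topology Pool.Agent.H319R3.GC
open Pool.Agent.Y965.PS (Tz ac)
open Pool.Agent.Y965.PL (Mn MnS th ind ind_pos ind_neg ind_congr Mn_of_Dn)

open Classical in
/-- odd integers in the classes: invariant sets -/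
theorem set_ct_odd {l : ℕ} {q m : Fin l → ℕ} {W : Fin l → ℕ → ℤ} (hD : DD 2 q m W) :
    ∃ C c : ℝ, 0 ≤ C ∧ 0 < c ∧ c ≤ 1 ∧ ∀ s : ℤ, (s = 1 ∨ s = -1) → ∀ S : Set ℤ, (∀ x, x ∈ S ↔ Tz 1 x ∈ S) →
    ∀ a : Fin l → ℤ, CT (Ed m W a) (∏ i, (1 / (m i : ℝ))) C c (ind (fun n => n % 2 = 1 ∧ s * (n : ℤ) ∈ S)) := by
  obtain ⟨C, c, hC, hc, H⟩ := ct_digits_odd (adm3 (k := 1) odd_one) 1 0 q hD.three hD.copd hD.cop W hD.add m hD.pos
    (fun i => obs_one (hD.free i))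
  refine ⟨C, min c 1, hC, lt_min hc one_pos, min_le_right _ _, fun s hs S hS a => ?_⟩
  have h1 := H s hs _ (ksync_f (f := fun x => if x ∈ S then 1 else 0)
    (fun x => by split_ifs <;> simp) (fun x => by
      rw [Tm3]
      by_cases hx : x ∈ S
      · rw [if_pos hx, if_pos (show Tz 1 x ∈ S from (hS x).1 hx)]
      · rw [if_neg hx, if_neg (fun h => hx ((hS x).2 h))])) a
  refine (h1.mono hC (min_le_left _ _)).congr fun n => ?_
  by_cases hn : n % 2 = 1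
  · rw [if_pos hn]
    by_cases h2 : s * (n : ℤ) ∈ S
    · rw [if_pos h2, ind_pos (P := fun n : ℕ => n % 2 = 1 ∧ s * (n : ℤ) ∈ S) ⟨hn, h2⟩]
    · rw [if_neg h2, ind_neg (P := fun n : ℕ => n % 2 = 1 ∧ s * (n : ℤ) ∈ S) (fun h => h2 h.2)]
  · rw [if_neg hn, ind_neg (P := fun n : ℕ => n % 2 = 1 ∧ s * (n : ℤ) ∈ S) (fun h => hn h.1)]

/-- odd integers in the classes: first entrances -/
theorem fe_ct_odd {l : ℕ} {q m : Fin l → ℕ} {W : Fin l → ℕ → ℤ} (hD : DD 2 q m W) (R : ℕ) :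
    ∃ C c : ℝ, 0 ≤ C ∧ 0 < c ∧ c ≤ 1 ∧ ∀ s : ℤ, (s = 1 ∨ s = -1) → ∀ A : ℤ → Prop, (∀ x, A x → |x| ≤ (R : ℤ)) →
    ∀ (B : Set (ℕ × ℤ)) (a : Fin l → ℤ), CT (Ed m W a) (∏ i, (1 / (m i : ℝ))) C c
      (ind (fun n => n % 2 = 1 ∧ ∃ k, FE (Tz 1) A k (s * (n : ℤ)) ∧ (k, (Tz 1)^[k] (s * (n : ℤ))) ∈ B)) := by
  classical
  obtain ⟨k0, hk0⟩ := ksync_fe (adm3 (k := 1) odd_one) R
  obtain ⟨C, c, hC, hc, H⟩ := ct_digits_odd (adm3 (k := 1) odd_one) 2 k0 q hD.three hD.copd hD.cop W hD.add m hD.pos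
    (fun i => obs_one (hD.free i))
  refine ⟨C, min c 1, hC, lt_min hc one_pos, min_le_right _ _, fun s hs A hA B a => ?_⟩
  set P : ℕ → Prop := fun n => ∃ k, FE (Tz 1) A k (s * (n : ℤ)) ∧ (k, (Tz 1)^[k] (s * (n : ℤ))) ∈ B with hP
  have hEF : EF 2 m3 (r3 1) s A (ind P) := by
    refine ⟨fun n => by unfold ind; split_ifs <;> simp, fun k n n' h1 h2 _ h4 => ?_, fun n n' h1 h2 => ?_⟩
    · rw [Tm3] at h1 h2 h4
      apply ind_congr
      constructor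
      · rintro ⟨j, hj, hB⟩
        have := FE_unique hj h1
        subst this
        exact ⟨j, h2, by rw [← h4]; exact hB⟩
      · rintro ⟨j, hj, hB⟩
        have := FE_unique hj h2
        subst this
        exact ⟨j, h1, by rw [h4]; exact hB⟩
    · rw [Tm3] at h1 h2
      rw [ind_neg (P := P), ind_neg (P := P)]
      · rintro ⟨j, hj, _⟩; exact h2 j hj
      · rintro ⟨j, hj, _⟩; exact h1 j hj
  have h1 := H s hs _ (hk0 s hs A hA _ hEF) a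
  refine (h1.mono hC (min_le_left _ _)).congr fun n => ?_
  by_cases hn : n % 2 = 1
  · rw [if_pos hn]
    by_cases h2 : P n
    · rw [ind_pos h2, ind_pos (P := fun n : ℕ => n % 2 = 1 ∧ ∃ k, FE (Tz 1) A k (s * (n : ℤ)) ∧ (k, (Tz 1)^[k] (s * (n : ℤ))) ∈ B) ⟨hn, h2⟩]
    · rw [ind_neg h2, ind_neg (P := fun n : ℕ => n % 2 = 1 ∧ ∃ k, FE (Tz 1) A k (s * (n : ℤ)) ∧ (k, (Tz 1)^[k] (s * (n : ℤ))) ∈ B) (fun h => h2 h.2)]
  · rw [if_neg hn, ind_neg (P := fun n : ℕ => n % 2 = 1 ∧ ∃ k, FE (Tz 1) A k (s * (n : ℤ)) ∧ (k, (Tz 1)^[k] (s * (n : ℤ))) ∈ B) (fun h => hn h.1)]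

end Pool.Agent.Run7.h439.DC
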