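import Pool.Agent.Run7.h439.DC.Fix
import Pool.Agent.Y55.DS.Param

/-! Orthogonality of functions of the trajectory to sequences with small correlations. -/

set_option autoImplicit false

namespace Pool.Agent.Run7.h439.DC

open Finset Pool.Agent.H319R3.GC Pool.Agent.Y965.GP

variable {d : ℕ} {m r : ℕ → ℤ}

/-- correlations along the progressions modulo the powers of `d`, with a saving -/
def Corr (d : ℕ) (Z : ℕ → (ℕ → ℂ) → Prop) : Prop := ∃ P : ℝ, 1 ≤ P ∧ ∀ (E : ℕ) (A : ℝ), 1 ≤ A →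
  ∃ B C : ℝ, 1 ≤ B ∧ 0 ≤ C ∧ ∀ K N : ℕ, B ^ K ≤ (N : ℝ) → ∀ z, Z N z → ∃ β : ℕ → ℝ, (∀ h, 0 ≤ β h) ∧
    (∀ h : ℕ, 1 ≤ h → (h : ℝ) ≤ A ^ K → ∀ m0 J : ℕ, (∀ j < J, m0 + d ^ (E * K) * j + h ≤ N) →
      ‖∑ j ∈ range J, z (m0 + d ^ (E * K) * j) * (starRingEnd ℂ) (z (m0 + d ^ (E * K) * j + h))‖ ≤ β h) ∧
    ∀ X : ℝ, P ^ K ≤ X → X ≤ A ^ K → (d : ℝ) ^ (E * K) * ∑ h ∈ Icc 1 ⌊X⌋₊, β h ≤ C * (1 / 4) ^ K * N * X

/-- functions of the point and the multiplier at the time `k`, for the integers larger than `d ^ (c0 k)`, where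
`d ^ (c0 k) ≤ N` -/
def KSyncN (d : ℕ) (m r : ℕ → ℤ) (s : ℤ) (c0 k0 N : ℕ) (F : ℕ → ℝ) : Prop := (∀ n, |F n| ≤ 1) ∧
  ∀ k, k0 ≤ k → d ^ (c0 * k) ≤ N → ∀ n n' : ℕ, d ^ (c0 * k) < n → d ^ (c0 * k) < n' →
    key d m r s k n = key d m r s k n' → F n = F n'

/-- functions of the point and the multiplier at the time `k`, for the integers larger than `d ^ (c0 k)` -/
def KSync (d : ℕ) (m r : ℕ → ℤ) (s : ℤ) (c0 k0 : ℕ) (F : ℕ → ℝ) : Prop := (∀ n, |F n| ≤ 1) ∧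
  ∀ k, k0 ≤ k → ∀ n n' : ℕ, d ^ (c0 * k) < n → d ^ (c0 * k) < n' →
    key d m r s k n = key d m r s k n' → F n = F n'

theorem KSync.toN {s : ℤ} {c0 k0 : ℕ} {F : ℕ → ℝ} (h : KSync d m r s c0 k0 F) (N : ℕ) : KSyncN d m r s c0 k0 N F :=
  ⟨h.1, fun k hk _ => h.2 k hk⟩

theorem poly_exp (a e : ℕ) {μ : ℝ} (h0 : 0 ≤ μ) (h1 : μ < 1) : ∃ C : ℝ, 0 ≤ C ∧ ∀ K : ℕ, ((a * K : ℕ) + 1 : ℝ) ^ e * μ ^ K ≤ C := by
  have h2 : Filter.Tendsto (fun n : ℕ => (n : ℝ) ^ e * μ ^ n) Filter.atTop (nhds 0) :=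
    tendsto_pow_const_mul_const_pow_of_lt_one e h0 h1
  obtain ⟨C, hC⟩ := h2.bddAbove_range
  have hC' : ∀ n : ℕ, (n : ℝ) ^ e * μ ^ n ≤ C := fun n => hC ⟨n, rfl⟩
  have hC0 : 0 ≤ C := le_trans (by positivity) (hC' 0)
  refine ⟨1 + ((a : ℝ) + 1) ^ e * C, by positivity, fun K => ?_⟩
  rcases Nat.eq_zero_or_pos K with h | h
  · subst h
    simp only [mul_zero, Nat.cast_zero, zero_add, one_pow, pow_zero, mul_one]
    have : 0 ≤ ((a : ℝ) + 1) ^ e * C := by positivity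
    linarith
  · have h3 : ((a * K : ℕ) + 1 : ℝ) ≤ (a + 1) * K := by
      have : (1 : ℝ) ≤ K := by exact_mod_cast h
      push_cast; nlinarith
    calc ((a * K : ℕ) + 1 : ℝ) ^ e * μ ^ K ≤ ((a + 1) * K) ^ e * μ ^ K :=
          mul_le_mul_of_nonneg_right (pow_le_pow_left₀ (by positivity) h3 e) (by positivity)
      _ = ((a : ℝ) + 1) ^ e * ((K : ℝ) ^ e * μ ^ K) := by rw [mul_pow]; ring
      _ ≤ ((a : ℝ) + 1) ^ e * C := mul_le_mul_of_nonneg_left (hC' K) (by positivity)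
      _ ≤ _ := by linarith

/-- one multiplier -/
theorem one_mult (h : Adm d m r) {s : ℤ} (hs : s = 1 ∨ s = -1) {E K N N1 : ℕ} (hK : 1 ≤ K) {σ A P C1 : ℝ}
    (hσ0 : 0 < σ) (hP : 1 ≤ P) (hEa : σ ^ E ≤ 1 / 4) (hEb : P ≤ (1 / σ) ^ E) (hA : A = 4 * (d : ℝ) ^ E)
    (hC1 : 0 ≤ C1) (hAN : A ^ K ≤ (N : ℝ)) {M : ℤ} (hM1 : 1 ≤ |(M : ℝ)|) (hM2 : |(M : ℝ)| ≤ (σ * d) ^ (E * K))
    {F : ℕ → ℝ} (hF1 : ∀ n, |F n| ≤ 1)
    (hF2 : ∀ n n' : ℕ, N1 < n → N1 < n' → key d m r s (E * K) n = key d m r s (E * K) n' → F n = F n')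
    {z : ℕ → ℂ} (hz1 : ∀ n, ‖z n‖ ≤ 1) {β : ℕ → ℝ} (hβ : ∀ h, 0 ≤ β h)
    (hz : ∀ h : ℕ, 1 ≤ h → (h : ℝ) ≤ A ^ K → ∀ m0 J : ℕ, (∀ j < J, m0 + d ^ (E * K) * j + h ≤ N) →
      ‖∑ j ∈ range J, z (m0 + d ^ (E * K) * j) * (starRingEnd ℂ) (z (m0 + d ^ (E * K) * j + h))‖ ≤ β h)
    (hsum : ∀ X : ℝ, P ^ K ≤ X → X ≤ A ^ K → (d : ℝ) ^ (E * K) * ∑ h ∈ Icc 1 ⌊X⌋₊, β h ≤ C1 * (1 / 4) ^ K * N * X) :
    ‖∑ n ∈ GS (GM d m r (2 ^ K) s (E * K) M) N1 N, (F n : ℂ) * z n‖ ≤ N * (Real.sqrt (5 + 14 * C1) * (3 / 4) ^ K) := by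
  have hd2 : (2 : ℝ) ≤ d := by exact_mod_cast h.two_le
  have hd0 : (0 : ℝ) < d := by linarith
  set k := E * K with hk
  set R : ℝ := 2 ^ K with hR
  have hR1 : 1 ≤ R := one_le_pow₀ (by norm_num)
  have hdk : 0 < (d : ℝ) ^ k := by positivity
  have hMp : 0 < |(M : ℝ)| := by linarith
  have hσk : σ ^ k ≤ (1 / 4) ^ K := by rw [hk, pow_mul]; exact pow_le_pow_left₀ (by positivity) hEa K
  have hσk1 : σ ^ k ≤ 1 := hσk.trans (pow_le_one₀ (by norm_num) (by norm_num))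
  have hMd : |(M : ℝ)| ≤ (d : ℝ) ^ k := by
    refine hM2.trans ?_
    rw [mul_pow]
    exact mul_le_of_le_one_left hdk.le hσk1
  have Kd := kdM h hs k N hR1 hM1 hMd
  set X : ℝ := 2 * R * (d : ℝ) ^ k / |(M : ℝ)| with hX
  set w : ℝ := |(M : ℝ)| / (d : ℝ) ^ k with hw
  have hw0 : 0 < w := by positivity
  have hwσ : w ≤ (1 / 4) ^ K := by
    rw [hw, div_le_iff₀ hdk]
    refine hM2.trans ?_
    rw [mul_pow]
    exact mul_le_mul_of_nonneg_right hσk hdk.le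
  have hwX : w * X = 2 * R := by rw [hw, hX]; field_simp
  have hXA : X ≤ A ^ K := by
    have h1 : X ≤ 2 * R * (d : ℝ) ^ k := by
      rw [hX, div_le_iff₀ hMp]
      exact le_mul_of_one_le_right (by positivity) hM1
    have h2 : (2 : ℝ) ≤ 2 ^ K := by
      calc (2 : ℝ) = 2 ^ 1 := by norm_num
        _ ≤ 2 ^ K := pow_le_pow_right₀ (by norm_num) hK
    have h3 : A ^ K = 2 ^ K * 2 ^ K * (d : ℝ) ^ k := by
      rw [hA, mul_pow, ← pow_mul, ← mul_pow, hk]; norm_num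
    rw [h3]
    refine h1.trans ?_
    rw [hR]
    gcongr
  have hXP : P ^ K ≤ X := by
    have h1 : P ^ K ≤ (1 / σ) ^ k := by
      rw [hk, pow_mul]; exact pow_le_pow_left₀ (by linarith) hEb K
    refine h1.trans ?_
    rw [hX, le_div_iff₀ hMp]
    have h2 : (1 / σ) ^ k * |(M : ℝ)| ≤ (d : ℝ) ^ k := by
      calc (1 / σ) ^ k * |(M : ℝ)| ≤ (1 / σ) ^ k * (σ * d) ^ k := mul_le_mul_of_nonneg_left hM2 (by positivity)
        _ = (d : ℝ) ^ k := by rw [← mul_pow]; congr 1; field_simp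
    nlinarith
  have hX0 : 0 ≤ X := by positivity
  have key1 := disp Kd N1 hF1 (fun n n' hn hn' g g' hkk => hF2 n n' hn hn' (by
      rw [key_eq, key_eq, Prod.mk.injEq]
      exact ⟨hkk, g.1.trans g'.1.symm⟩)) hz1 hβ (fun t ht1 ht2 m0 J _ hJ => hz t ht1 (ht2.trans hXA) m0 J hJ)
  have hs1 := hsum X hXP hXA
  have hN0 : (0 : ℝ) ≤ N := Nat.cast_nonneg _
  have hXN : X ≤ N := hXA.trans hAN
  have h4K : (4 : ℝ) ^ K ≤ N := by
    refine le_trans ?_ hAN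
    rw [hA]
    apply pow_le_pow_left₀ (by norm_num)
    have : (1 : ℝ) ≤ (d : ℝ) ^ E := one_le_pow₀ (by linarith)
    linarith
  have hRN : R ≤ N * (1 / 2) ^ K := by
    have h1 : (4 : ℝ) ^ K * (1 / 2) ^ K = 2 ^ K := by rw [← mul_pow]; norm_num
    calc R = (4 : ℝ) ^ K * (1 / 2) ^ K := by rw [h1]
      _ ≤ N * (1 / 2) ^ K := mul_le_mul_of_nonneg_right h4K (by positivity)
  have hR4 : (1 / 4 : ℝ) ^ K * R = (1 / 2) ^ K := by rw [hR, ← mul_pow]; norm_num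
  have h24 : (1 / 4 : ℝ) ^ K ≤ (1 / 2) ^ K := pow_le_pow_left₀ (by norm_num) (by norm_num) K
  have key2 : ‖∑ n ∈ GS (GM d m r R s k M) N1 N, (F n : ℂ) * z n‖ ^ 2 ≤ (N : ℝ) ^ 2 * ((5 + 14 * C1) * (1 / 2) ^ K) := by
    refine key1.trans ?_
    push_cast
    have e1 : (2 * (N * w + R) + 1) * (N + 2 * ((d : ℝ) ^ k * ∑ h ∈ Icc 1 ⌊X⌋₊, β h)) ≤
        (2 * (N * w + R) + 1) * (N + 2 * (C1 * (1 / 4) ^ K * N * X)) := by
      apply mul_le_mul_of_nonneg_left _ (by positivity)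
      linarith
    refine e1.trans ?_
    have e2 : (2 * (N * w + R) + 1) * (N + 2 * (C1 * (1 / 4) ^ K * N * X)) =
        2 * N ^ 2 * w + (2 * R + 1) * N + 2 * C1 * (1 / 4) ^ K * N * (2 * N * (w * X) + (2 * R + 1) * X) := by ring
    rw [e2, hwX]
    have e3 : 2 * N ^ 2 * w ≤ 2 * (N : ℝ) ^ 2 * (1 / 2) ^ K := mul_le_mul_of_nonneg_left (hwσ.trans h24) (by positivity)
    have e4 : (2 * R + 1) * N ≤ 3 * (N : ℝ) ^ 2 * (1 / 2) ^ K := by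
      have : (2 * R + 1) * N ≤ (3 * R) * N := mul_le_mul_of_nonneg_right (by linarith) hN0
      have h5 : (3 * R) * N ≤ (3 * (N * (1 / 2) ^ K)) * N := mul_le_mul_of_nonneg_right (by linarith) hN0
      nlinarith
    have e5 : 2 * N * (2 * R) + (2 * R + 1) * X ≤ 7 * (R * N) := by
      have : (2 * R + 1) * X ≤ (3 * R) * N := mul_le_mul (by linarith) hXN hX0 (by positivity)
      linarith
    have e6 : 2 * C1 * (1 / 4) ^ K * N * (2 * N * (2 * R) + (2 * R + 1) * X) ≤ 14 * C1 * (N : ℝ) ^ 2 * (1 / 2) ^ K := by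
      calc _ ≤ 2 * C1 * (1 / 4) ^ K * N * (7 * (R * N)) := mul_le_mul_of_nonneg_left e5 (by positivity)
        _ = 14 * C1 * (N : ℝ) ^ 2 * ((1 / 4) ^ K * R) := by ring
        _ = _ := by rw [hR4]
    linarith
  have h5 : ‖∑ n ∈ GS (GM d m r R s k M) N1 N, (F n : ℂ) * z n‖ ^ 2 ≤ (N * (Real.sqrt (5 + 14 * C1) * (3 / 4) ^ K)) ^ 2 := by
    refine key2.trans (le_of_eq_of_le rfl ?_)
    rw [mul_pow, mul_pow, Real.sq_sqrt (by positivity), ← pow_mul, mul_comm K 2, pow_mul]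
    have : (1 / 2 : ℝ) ^ K ≤ ((3 / 4) ^ 2) ^ K := pow_le_pow_left₀ (by norm_num) (by norm_num) K
    gcongr
  exact (pow_le_pow_iff_left₀ (norm_nonneg _) (by positivity) two_ne_zero).1 h5

open Classical in
/-- ONE LEVEL -/
theorem one_level (h : Adm d m r) (c0 k0 : ℕ) {Z : ℕ → (ℕ → ℂ) → Prop} (hZ : Corr d Z) (hz1 : ∀ N z, Z N z → ∀ n, ‖z n‖ ≤ 1) :
    ∃ (E : ℕ) (B C lam : ℝ), k0 ≤ E ∧ 1 < B ∧ 0 ≤ C ∧ 0 < lam ∧ lam < 1 ∧ ∀ K N : ℕ, 1 ≤ K → B ^ K ≤ (N : ℝ) →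
      d ^ (c0 * (E * K)) ≤ N ∧ ∀ s : ℤ, (s = 1 ∨ s = -1) → ∀ z, Z N z →
      ∀ F : ℕ → ℝ, (∀ n, |F n| ≤ 1) → (∀ n n' : ℕ, d ^ (c0 * (E * K)) < n → d ^ (c0 * (E * K)) < n' →
        key d m r s (E * K) n = key d m r s (E * K) n' → F n = F n') →
      ‖∑ n ∈ Icc 1 N, (F n : ℂ) * z n‖ ≤ C * N * lam ^ K := by
  obtain ⟨σ, ρ, C0, lam', hσ0, hσ1, hρ0, hρσ, hC0, hl0, hl1, hkd⟩ := kd h
  obtain ⟨P, hP, hc⟩ := hZ
  have hd2 : (2 : ℝ) ≤ d := by exact_mod_cast h.two_le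
  have hd0 : (0 : ℝ) < d := by linarith
  have hd1 : (1 : ℝ) ≤ d := by linarith
  obtain ⟨E1, hE1⟩ := exists_pow_lt_of_lt_one (show (0 : ℝ) < 1 / 4 by norm_num) hσ1
  obtain ⟨E2, hE2⟩ := pow_unbounded_of_one_lt P (show 1 < 1 / σ by rw [lt_div_iff₀ hσ0]; linarith)
  set E := E1 + E2 + k0 with hE
  have hEa : σ ^ E ≤ 1 / 4 := (pow_le_pow_of_le_one hσ0.le hσ1.le (by omega)).trans hE1.le
  have hEb : P ≤ (1 / σ) ^ E := by
    refine hE2.le.trans (pow_le_pow_right₀ ?_ (by omega))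
    rw [le_div_iff₀ hσ0]; linarith
  set A : ℝ := 4 * (d : ℝ) ^ E with hA
  have hdE : (1 : ℝ) ≤ (d : ℝ) ^ E := one_le_pow₀ hd1
  have hA1 : 1 ≤ A := by rw [hA]; linarith
  obtain ⟨B1, C1, hB1, hC1, hcorr⟩ := hc E A hA1
  set D : ℝ := (d : ℝ) ^ (c0 * E) with hD
  have hD1 : 1 ≤ D := one_le_pow₀ hd1
  set B : ℝ := B1 * (4 * D) * A with hB
  set μ : ℝ := (2 : ℝ) ^ (-lam') with hμ
  have hμ0 : 0 < μ := Real.rpow_pos_of_pos (by norm_num) _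
  have hμ1 : μ < 1 := Real.rpow_lt_one_of_one_lt_of_neg (by norm_num) (by linarith)
  set lam : ℝ := max (7 / 8) μ with hlam
  have hlam1 : lam < 1 := max_lt (by norm_num) hμ1
  have hlam7 : 7 / 8 ≤ lam := le_max_left _ _
  have hlam0 : 0 < lam := by linarith
  obtain ⟨C3, hC3, hpoly⟩ := poly_exp E d (show (0 : ℝ) ≤ 6 / 7 by norm_num) (by norm_num)
  have hBA : A ≤ B := by
    have h1 : 1 ≤ B1 * (4 * D) := by nlinarith
    rw [hB]; exact le_mul_of_one_le_left (by linarith) h1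
  have hB1' : B1 ≤ B := by
    have h1 : 1 ≤ (4 * D) * A := by nlinarith
    rw [hB, mul_assoc]; exact le_mul_of_one_le_right (by linarith) h1
  have hB4 : 4 * D ≤ B := by
    have h1 : 4 * D ≤ B1 * (4 * D) := le_mul_of_one_le_left (by linarith) hB1
    refine h1.trans ?_
    rw [hB]; exact le_mul_of_one_le_right (by nlinarith) hA1
  refine ⟨E, B, 1 + 2 * (1 + C0) + Real.sqrt (5 + 14 * C1) * C3, lam, by omega, by linarith, by positivity, hlam0, hlam1, ?_⟩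
  intro K N hK hN
  have hB0 : 0 ≤ B := by linarith
  have hpw : ∀ x : ℝ, 0 ≤ x → x ≤ B → x ^ K ≤ N := fun x hx hxB => (pow_le_pow_left₀ hx hxB K).trans hN
  have hAN := hpw A (by linarith) hBA
  have h4D := hpw (4 * D) (by linarith) hB4
  have hB1N := hpw B1 (by linarith) hB1'
  have hN0 : (0 : ℝ) ≤ N := Nat.cast_nonneg _
  have hlamK : 0 < lam ^ K := by positivity
  have hDK : (d : ℝ) ^ (c0 * (E * K)) = D ^ K := by rw [hD, ← pow_mul]; congr 1; ring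
  have hN1r : (d : ℝ) ^ (c0 * (E * K)) ≤ N * lam ^ K := by
    rw [hDK]
    have e1 : D ^ K = (4 * D) ^ K * (1 / 4) ^ K := by rw [← mul_pow]; congr 1; ring
    rw [e1]
    have e2 : (1 / 4 : ℝ) ^ K ≤ lam ^ K := pow_le_pow_left₀ (by norm_num) (by linarith) K
    exact mul_le_mul h4D e2 (by positivity) hN0
  have hN1 : d ^ (c0 * (E * K)) ≤ N := by
    have e1 : (d : ℝ) ^ (c0 * (E * K)) ≤ N := hN1r.trans (mul_le_of_le_one_right hN0 (pow_le_one₀ hlam0.le hlam1.le))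
    exact_mod_cast e1
  refine ⟨hN1, ?_⟩
  intro s hs z hz F hF1 hF2
  obtain ⟨β, hβ, hβ1, hβ2⟩ := hcorr K N hB1N z hz
  set N1 := d ^ (c0 * (E * K)) with hN1def
  set k := E * K with hk
  set R : ℝ := 2 ^ K with hR
  have hR1 : 1 ≤ R := one_le_pow₀ (by norm_num)
  have hdkN : d ^ k ≤ N := by
    have e1 : (d : ℝ) ^ k ≤ N := by
      refine le_trans ?_ hAN
      rw [hA, mul_pow, ← pow_mul, hk]
      exact le_mul_of_one_le_left (by positivity) (one_le_pow₀ (by norm_num))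
    exact_mod_cast e1
  have Kd := hkd s hs k N R hdkN hR1
  have hterm : ∀ n, ‖(F n : ℂ) * z n‖ ≤ 1 := by
    intro n
    rw [norm_mul, Complex.norm_real, Real.norm_eq_abs]
    have a := hF1 n
    have b := hz1 N z hz n
    nlinarith [norm_nonneg (z n), abs_nonneg (F n)]
  have htriv : ∀ S : Finset ℕ, ‖∑ n ∈ S, (F n : ℂ) * z n‖ ≤ S.card := by
    intro S
    refine (norm_sum_le _ _).trans ((sum_le_sum fun n _ => hterm n).trans ?_)
    rw [sum_const, nsmul_eq_mul, mul_one]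
  -- decomposition
  have hdec : ∑ n ∈ Icc 1 N, (F n : ℂ) * z n = ∑ n ∈ Icc 1 N1, (F n : ℂ) * z n
      + (∑ n ∈ GS (Gd d m r ρ R s k) N1 N, (F n : ℂ) * z n
        + ∑ n ∈ (Ioc N1 N).filter (fun n : ℕ => ¬ Gd d m r ρ R s k n), (F n : ℂ) * z n) := by
    have h1 : Icc 1 N = Icc 1 N1 ∪ Ioc N1 N := by
      ext n; simp only [mem_union, mem_Icc, mem_Ioc]; omega
    rw [h1, sum_union]
    · congr 1
      unfold GS
      rw [sum_filter_add_sum_filter_not]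
    · rw [Finset.disjoint_left]
      intro n hn hn'
      rw [mem_Icc] at hn
      rw [mem_Ioc] at hn'
      omega
  have p1 : ‖∑ n ∈ Icc 1 N1, (F n : ℂ) * z n‖ ≤ N * lam ^ K := by
    refine (htriv _).trans ?_
    rw [Nat.card_Icc, Nat.add_sub_cancel, hN1def]
    push_cast
    exact hN1r
  have hμK : R ^ (-lam') = μ ^ K := by
    rw [hR, hμ, ← Real.rpow_natCast, ← Real.rpow_natCast, ← Real.rpow_mul (by norm_num), ← Real.rpow_mul (by norm_num)]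
    congr 1; ring
  have hσk : σ ^ k ≤ lam ^ K := by
    have e1 : σ ^ k ≤ (1 / 4) ^ K := by rw [hk, pow_mul]; exact pow_le_pow_left₀ (by positivity) hEa K
    exact e1.trans (pow_le_pow_left₀ (by norm_num) (by linarith) K)
  have p2 : ‖∑ n ∈ (Ioc N1 N).filter (fun n : ℕ => ¬ Gd d m r ρ R s k n), (F n : ℂ) * z n‖ ≤ 2 * (1 + C0) * N * lam ^ K := by
    refine (htriv _).trans ((Kd.bad _ ?_).trans ?_)
    · intro n hn
      rw [mem_filter, mem_Ioc] at hn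
      exact ⟨⟨by omega, hn.1.2⟩, hn.2⟩
    · rw [hμK]
      have e1 : μ ^ K ≤ lam ^ K := pow_le_pow_left₀ hμ0.le (le_max_right _ _) K
      have e2 : σ ^ k + C0 * μ ^ K ≤ (1 + C0) * lam ^ K := by
        have := mul_le_mul_of_nonneg_left e1 hC0
        linarith
      calc 2 * (N : ℝ) * (σ ^ k + C0 * μ ^ K) ≤ 2 * N * ((1 + C0) * lam ^ K) := mul_le_mul_of_nonneg_left e2 (by positivity)
        _ = _ := by ring
  have p3 : ‖∑ n ∈ GS (Gd d m r ρ R s k) N1 N, (F n : ℂ) * z n‖ ≤ Real.sqrt (5 + 14 * C1) * C3 * N * lam ^ K := by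
    set G := GS (Gd d m r ρ R s k) N1 N with hG
    rw [← sum_fiberwise_of_maps_to (s := G) (t := Ms d m k) (g := fun n : ℕ => Mw m (wd d m r k (s * n)))
      (fun n _ => by
        unfold Ms
        exact mem_image_of_mem _ (wd_mem h.two_le k _))]
    have hone : ∀ M ∈ Ms d m k, ‖∑ n ∈ G.filter (fun n : ℕ => Mw m (wd d m r k (s * n)) = M), (F n : ℂ) * z n‖ ≤
        N * (Real.sqrt (5 + 14 * C1) * (3 / 4) ^ K) := by
      intro M _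
      rcases (G.filter (fun n : ℕ => Mw m (wd d m r k (s * n)) = M)).eq_empty_or_nonempty with he | ⟨n0, hn0⟩
      · rw [he, sum_empty, norm_zero]; positivity
      · rw [mem_filter, hG, mem_GS] at hn0
        obtain ⟨⟨_, g1, _⟩, g2⟩ := hn0
        rw [g2] at g1
        have hM1 : 1 ≤ |(M : ℝ)| := by rw [← g2]; exact one_le_Mw h k _
        have hM2 : |(M : ℝ)| ≤ (σ * d) ^ k := g1.trans (pow_le_pow_left₀ (by positivity) (by gcongr) k)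
        have hset : G.filter (fun n : ℕ => Mw m (wd d m r k (s * n)) = M) = GS (GM d m r R s k M) N1 N := by
          ext n
          rw [mem_filter, hG, mem_GS, mem_GS]
          unfold Gd GM
          constructor
          · rintro ⟨⟨a1, a2, a3⟩, a4⟩
            exact ⟨a1, a4, a3⟩
          · rintro ⟨a1, a2, a3⟩
            exact ⟨⟨a1, by rw [a2]; exact g1, a3⟩, a2⟩
        rw [hset]
        exact one_mult h hs hK hσ0 hP hEa hEb hA hC1 hAN hM1 hM2 hF1 hF2 (hz1 N z hz) hβ hβ1 hβ2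
    refine (norm_sum_le _ _).trans ((sum_le_sum hone).trans ?_)
    rw [sum_const, nsmul_eq_mul]
    have hcard : ((Ms d m k).card : ℝ) ≤ ((E * K : ℕ) + 1 : ℝ) ^ d := by
      have := card_Ms (d := d) (m := m) k
      exact_mod_cast this
    have e1 : (3 / 4 : ℝ) ^ K = (6 / 7) ^ K * (7 / 8) ^ K := by rw [← mul_pow]; norm_num
    have e2 : (7 / 8 : ℝ) ^ K ≤ lam ^ K := pow_le_pow_left₀ (by norm_num) hlam7 K
    calc ((Ms d m k).card : ℝ) * (N * (Real.sqrt (5 + 14 * C1) * (3 / 4) ^ K))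
        ≤ ((E * K : ℕ) + 1 : ℝ) ^ d * (N * (Real.sqrt (5 + 14 * C1) * (3 / 4) ^ K)) :=
          mul_le_mul_of_nonneg_right hcard (by positivity)
      _ = Real.sqrt (5 + 14 * C1) * (((E * K : ℕ) + 1 : ℝ) ^ d * (6 / 7) ^ K) * N * (7 / 8) ^ K := by rw [e1]; ring
      _ ≤ Real.sqrt (5 + 14 * C1) * C3 * N * lam ^ K := by
          have := hpoly K
          gcongr
  rw [hdec]
  have q1 := norm_add_le (∑ n ∈ Icc 1 N1, (F n : ℂ) * z n) (∑ n ∈ GS (Gd d m r ρ R s k) N1 N, (F n : ℂ) * z n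
        + ∑ n ∈ (Ioc N1 N).filter (fun n : ℕ => ¬ Gd d m r ρ R s k n), (F n : ℂ) * z n)
  have q2 := norm_add_le (∑ n ∈ GS (Gd d m r ρ R s k) N1 N, (F n : ℂ) * z n)
    (∑ n ∈ (Ioc N1 N).filter (fun n : ℕ => ¬ Gd d m r ρ R s k n), (F n : ℂ) * z n)
  linarith

/-- THE ORTHOGONALITY PRINCIPLE -/
theorem orth (h : Adm d m r) (c0 k0 : ℕ) {Z : ℕ → (ℕ → ℂ) → Prop} (hZ : Corr d Z) (hz1 : ∀ N z, Z N z → ∀ n, ‖z n‖ ≤ 1) :
    ∃ C c : ℝ, 0 ≤ C ∧ 0 < c ∧ ∀ s : ℤ, (s = 1 ∨ s = -1) → ∀ N : ℕ, 1 ≤ N → ∀ F : ℕ → ℝ, KSyncN d m r s c0 k0 N F →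
      ∀ z, Z N z → ‖∑ n ∈ Icc 1 N, (F n : ℂ) * z n‖ ≤ C * (N : ℝ) ^ (1 - c) := by
  obtain ⟨E, B, C, lam, hEk, hB, hC, hl0, hl1, hH⟩ := one_level h c0 k0 hZ hz1
  refine ⟨(C + 1) / lam, -Real.log lam / Real.log B, by positivity,
    div_pos (neg_pos.2 (Real.log_neg hl0 hl1)) (Real.log_pos hB), ?_⟩
  intro s hs N hN F hF z hz
  refine Pool.Agent.Y55.DS.to_rpow hB hl0 hl1 (by positivity) hN fun K hK => ?_
  have hN0 : (0 : ℝ) ≤ N := Nat.cast_nonneg _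
  rcases Nat.eq_zero_or_pos K with h0 | h0
  · subst h0
    rw [pow_zero, mul_one]
    have hterm : ∀ n ∈ Icc 1 N, ‖(F n : ℂ) * z n‖ ≤ 1 := by
      intro n _
      rw [norm_mul, Complex.norm_real, Real.norm_eq_abs]
      have a := hF.1 n
      have b := hz1 N z hz n
      nlinarith [norm_nonneg (z n), abs_nonneg (F n)]
    refine (norm_sum_le _ _).trans ((sum_le_sum hterm).trans ?_)
    rw [sum_const, nsmul_eq_mul, mul_one, Nat.card_Icc, Nat.add_sub_cancel]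
    nlinarith
  · obtain ⟨h1, h2⟩ := hH K N h0 hK
    have hk : k0 ≤ E * K := hEk.trans (Nat.le_mul_of_pos_right E h0)
    have h3 := h2 s hs z hz F hF.1 (fun n n' hn hn' hkk => hF.2 (E * K) hk h1 n n' hn hn' hkk)
    refine h3.trans ?_
    have : 0 ≤ N * lam ^ K := by positivity
    nlinarith

end Pool.Agent.Run7.h439.DC
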