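import Pool.Agent.Run7.h439.DC.Orth
import Pool.Agent.Y55.DS.Disc2

/-! Polynomial phases and functions of the trajectory of a generalised Collatz map. -/

set_option autoImplicit false

namespace Pool.Agent.Run7.h439.DC

open Finset Pool.Agent.Y55.DS Pool.Agent.H373R2.NB
open Pool.Agent.Helper602.MK (ee)
open Pool.Agent.Helper602.MK.N_J5b (ee_add ee_zero ee_conj norm_ee)

/-- polynomial phases with the leading coefficient on the minor arcs -/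
def ZP (k : ℕ) (η : ℝ) (N : ℕ) (z : ℕ → ℂ) : Prop := ∃ (α : ℝ) (φ : ℕ → ℝ), Ph (k + 1) α φ ∧
  (∀ l : ℕ, 1 ≤ l → (l : ℝ) ≤ (N : ℝ) ^ η → ∀ a : ℤ, (N : ℝ) ^ (η - k) ≤ |l * α - a|) ∧ z = fun n => ee (φ n)

theorem corr_poly {d : ℕ} (hd : 1 ≤ d) {k : ℕ} (hk : 1 ≤ k) {η : ℝ} (hη : 0 < η) : Corr d (ZP k η) := by
  obtain ⟨c₁, m₁, hc₁, hIW⟩ := IW_all k hk
  refine ⟨1, le_rfl, fun E A hA1 => ?_⟩
  have hdR : (1 : ℝ) ≤ d := by exact_mod_cast hd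
  have hdE : (1 : ℝ) ≤ (d : ℝ) ^ E := one_le_pow₀ hdR
  obtain ⟨v, hv⟩ : ∃ v : ℝ, v = 4 := ⟨_, rfl⟩
  have hv1 : 1 ≤ v := by rw [hv]; norm_num
  set G : ℝ := (c₁ + 1) * (v ^ (m₁ + k) * (d : ℝ) ^ (E * k) * A) with hG
  have hc₁R : (1 : ℝ) ≤ c₁ := by exact_mod_cast hc₁
  have hG1 : 1 ≤ v ^ (m₁ + k) * (d : ℝ) ^ (E * k) * A :=
    one_le_mul_of_one_le_of_one_le (one_le_mul_of_one_le_of_one_le (one_le_pow₀ hv1) (one_le_pow₀ hdR)) hA1
  have hG2 : 2 ≤ G := by rw [hG]; nlinarith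
  have hG0 : 0 < G := by linarith
  set B2 : ℝ := (d : ℝ) ^ E * A * v with hB2
  have hB21 : 1 ≤ B2 := by
    rw [hB2]
    exact one_le_mul_of_one_le_of_one_le (one_le_mul_of_one_le_of_one_le hdE hA1) hv1
  set B : ℝ := G ^ (1 / η) * B2 with hB
  have hGη : 1 < G ^ (1 / η) := Real.one_lt_rpow (by linarith) (by positivity)
  have hB1 : 1 < B := by rw [hB]; nlinarith
  refine ⟨B, 2, hB1.le, by norm_num, ?_⟩
  rintro K N hK z ⟨α, φ, hφ, hα, rfl⟩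
  have hN1 : (1 : ℝ) ≤ N := le_trans (one_le_pow₀ hB1.le) hK
  have hN0 : (0 : ℝ) < N := by linarith
  -- consequences of `B ^ K ≤ N`
  have hBK : (G ^ (1 / η)) ^ K * B2 ^ K ≤ N := by rw [← mul_pow]; exact hK
  have hB2K : B2 ^ K ≤ N := by
    refine le_trans ?_ hBK
    exact le_mul_of_one_le_left (by positivity) (one_le_pow₀ hGη.le)
  have hGK : G ^ K ≤ (N : ℝ) ^ η := by
    have h1 : (G ^ (1 / η)) ^ K ≤ N := by
      refine le_trans ?_ hBK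
      exact le_mul_of_one_le_right (by positivity) (one_le_pow₀ hB21)
    have h2 : ((G ^ (1 / η)) ^ K) ^ η ≤ (N : ℝ) ^ η := Real.rpow_le_rpow (by positivity) h1 hη.le
    have h3 : ((G ^ (1 / η)) ^ K) ^ η = G ^ K := by
      rw [← Real.rpow_natCast, ← Real.rpow_mul hG0.le, ← Real.rpow_mul hG0.le, ← Real.rpow_natCast]
      congr 1
      field_simp
    rw [h3] at h2
    exact h2
  have hB2e : B2 ^ K = ((d : ℝ) ^ E) ^ K * A ^ K * v ^ K := by rw [hB2, mul_pow, mul_pow]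
  rw [hB2e] at hB2K
  have hv1K : 1 ≤ v ^ K := one_le_pow₀ hv1
  have h25K : (1 : ℝ) ≤ ((d : ℝ) ^ E) ^ K := one_le_pow₀ hdE
  have hAK : 1 ≤ A ^ K := one_le_pow₀ hA1
  have n1 : ((d : ℝ) ^ E) ^ K ≤ N := by
    refine le_trans ?_ hB2K
    rw [mul_assoc]
    exact le_mul_of_one_le_right (by positivity) (one_le_mul_of_one_le_of_one_le hAK hv1K)
  have he5 : (d : ℝ) ^ (E * K) = ((d : ℝ) ^ E) ^ K := by rw [← pow_mul]
  have hdp : (0 : ℝ) < (d : ℝ) ^ (E * K) := by rw [he5]; positivity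
  set u : ℝ := v ^ K with hu
  have hu1 : 1 ≤ u := hv1K
  have hu0 : 0 < u := by linarith
  have hui : 1 / u = (1 / 4) ^ K := by rw [hu, hv, one_div, one_div, inv_pow]
  set Jm : ℝ := N / (d : ℝ) ^ (E * K) + 1 with hJm
  have hJm0 : 0 < Jm := by rw [hJm]; positivity
  have hJm2 : (d : ℝ) ^ (E * K) * Jm ≤ 2 * N := by
    rw [hJm, mul_add, mul_one, mul_div_cancel₀ _ hdp.ne', he5]
    linarith
  refine ⟨fun _ => Jm / u, fun _ => by positivity, ?_, ?_⟩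
  · intro h hh1 hh2 m0 J hJ
    have hJJ : (J : ℝ) ≤ Jm := by
      rcases Nat.eq_zero_or_pos J with h0 | h0
      · rw [h0]; simpa using hJm0.le
      · have h1 := hJ (J - 1) (by omega)
        have h2 : d ^ (E * K) * (J - 1) ≤ N := by omega
        have h3 : (d : ℝ) ^ (E * K) * ((J - 1 : ℕ) : ℝ) ≤ N := by exact_mod_cast h2
        rw [Nat.cast_sub h0, Nat.cast_one] at h3
        have h4 : (J : ℝ) - 1 ≤ N / (d : ℝ) ^ (E * K) := by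
          rw [le_div_iff₀ hdp]; linarith
        rw [hJm]; linarith
    rcases Nat.eq_zero_or_pos K with hK0 | hK0
    · have hu' : u = 1 := by rw [hu, hK0, pow_zero]
      rw [hu', div_one]
      refine (norm_sum_le _ _).trans (le_trans ?_ hJJ)
      have : ∀ j ∈ range J, ‖ee (φ (m0 + d ^ (E * K) * j)) * (starRingEnd ℂ) (ee (φ (m0 + d ^ (E * K) * j + h)))‖ ≤ 1 := by
        intro j _
        rw [norm_mul, RCLike.norm_conj, norm_ee, norm_ee, one_mul]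
      refine (sum_le_sum this).trans ?_
      simp
    have hGK2 : (c₁ + 1 : ℝ) * (u ^ (m₁ + k) * ((d : ℝ) ^ (E * K)) ^ k * A ^ K) ≤ G ^ K := by
      have e1 : G ^ K = (c₁ + 1) ^ K * ((v ^ (m₁ + k)) ^ K * ((d : ℝ) ^ (E * k)) ^ K * A ^ K) := by
        rw [hG, mul_pow, mul_pow, mul_pow]
      have e2 : u ^ (m₁ + k) = (v ^ (m₁ + k)) ^ K := by rw [hu, ← pow_mul, ← pow_mul]; congr 1; ring
      have e3 : ((d : ℝ) ^ (E * K)) ^ k = ((d : ℝ) ^ (E * k)) ^ K := by rw [← pow_mul, ← pow_mul]; congr 1; ring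
      rw [e1, e2, e3]
      apply mul_le_mul_of_nonneg_right _ (by positivity)
      calc (c₁ + 1 : ℝ) = (c₁ + 1) ^ 1 := (pow_one _).symm
        _ ≤ (c₁ + 1) ^ K := pow_le_pow_right₀ (by linarith) hK0
    have hfin := hGK2.trans hGK
    have hum : 0 < u ^ m₁ := by positivity
    have huk : 1 ≤ u ^ k := one_le_pow₀ hu1
    have hdp1 : (1 : ℝ) ≤ (d : ℝ) ^ (E * K) := one_le_pow₀ hdR
    have hD0 : (1 : ℝ) ≤ ((d : ℝ) ^ (E * K)) ^ k := one_le_pow₀ hdp1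
    refine phase_corr (k := k) (c := c₁) (m := m₁) hIW hφ (D := d ^ (E * K)) (Nat.one_le_pow _ _ (by omega)) hh1 hu1 hJm0
      (Y := (N : ℝ) ^ η) (Z := (N : ℝ) ^ (η - k)) ?_ ?_ hα m0 J hJJ
    · push_cast
      refine le_trans ?_ hfin
      have e1 : (c₁ : ℝ) * u ^ m₁ * (((d : ℝ) ^ (E * K)) ^ k * h) ≤ c₁ * u ^ m₁ * (((d : ℝ) ^ (E * K)) ^ k * A ^ K) := by
        gcongr
      refine e1.trans ?_
      rw [pow_add]
      have e2 : (c₁ : ℝ) * u ^ m₁ * (((d : ℝ) ^ (E * K)) ^ k * A ^ K) ≤ (c₁ + 1) * (u ^ m₁ * (((d : ℝ) ^ (E * K)) ^ k * A ^ K)) := by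
        rw [mul_assoc]
        apply mul_le_mul_of_nonneg_right (by linarith) (by positivity)
      refine e2.trans ?_
      apply mul_le_mul_of_nonneg_left _ (by positivity)
      have e3 : u ^ m₁ * u ^ k * ((d : ℝ) ^ (E * K)) ^ k * A ^ K = (u ^ m₁ * (((d : ℝ) ^ (E * K)) ^ k * A ^ K)) * u ^ k := by ring
      rw [e3]
      exact le_mul_of_one_le_right (by positivity) huk
    · -- the second condition
      have hNk : (N : ℝ) ^ (η - k) = (N : ℝ) ^ η / (N : ℝ) ^ k := by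
        rw [Real.rpow_sub hN0, Real.rpow_natCast]
      rw [hNk, div_pow, div_div_eq_mul_div]
      have hJN : (N : ℝ) / (d : ℝ) ^ (E * K) ≤ Jm := by rw [hJm]; linarith
      have e1 : (c₁ : ℝ) * u ^ m₁ * u ^ k / Jm ^ k ≤ c₁ * u ^ m₁ * u ^ k / (N / (d : ℝ) ^ (E * K)) ^ k := by
        gcongr
      refine e1.trans_lt ?_
      rw [div_pow, div_div_eq_mul_div]
      apply div_lt_div_of_pos_right _ (by positivity)
      refine lt_of_lt_of_le ?_ hfin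
      have e2 : (c₁ : ℝ) * u ^ m₁ * u ^ k * ((d : ℝ) ^ (E * K)) ^ k < (c₁ + 1) * (u ^ (m₁ + k) * ((d : ℝ) ^ (E * K)) ^ k * 1) := by
        rw [pow_add]
        have : 0 < u ^ m₁ * u ^ k * ((d : ℝ) ^ (E * K)) ^ k := by positivity
        linarith
      refine e2.trans_le ?_
      gcongr
  · intro X hX1 hX2
    have hX0 : 0 ≤ X := le_trans (by positivity) hX1
    have hcard : ((Icc 1 ⌊X⌋₊).card : ℝ) ≤ X := by
      rw [Nat.card_Icc, Nat.add_sub_cancel]; exact Nat.floor_le hX0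
    rw [sum_const, nsmul_eq_mul]
    have h1 : Jm / u = Jm * (1 / 4) ^ K := by rw [← hui]; ring
    rw [h1]
    calc (d : ℝ) ^ (E * K) * (((Icc 1 ⌊X⌋₊).card : ℝ) * (Jm * (1 / 4) ^ K))
        = ((d : ℝ) ^ (E * K) * Jm) * (1 / 4) ^ K * ((Icc 1 ⌊X⌋₊).card : ℝ) := by ring
      _ ≤ (2 * N) * (1 / 4) ^ K * X := by gcongr
      _ = _ := by ring

/-- THE WEYL INEQUALITY for functions of the trajectory -/
theorem weyl {d : ℕ} {m r : ℕ → ℤ} (h : Pool.Agent.H319R3.GC.Adm d m r) (c0 k0 : ℕ) {k : ℕ} (hk : 1 ≤ k) {η : ℝ}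
    (hη : 0 < η) : ∃ C c : ℝ, 0 ≤ C ∧ 0 < c ∧ ∀ s : ℤ, (s = 1 ∨ s = -1) → ∀ N : ℕ, 1 ≤ N →
    ∀ F : ℕ → ℝ, KSyncN d m r s c0 k0 N F → ∀ (α : ℝ) (φ : ℕ → ℝ), Ph (k + 1) α φ →
    (∀ l : ℕ, 1 ≤ l → (l : ℝ) ≤ (N : ℝ) ^ η → ∀ a : ℤ, (N : ℝ) ^ (η - k) ≤ |l * α - a|) →
    ‖∑ n ∈ Icc 1 N, (F n : ℂ) * ee (φ n)‖ ≤ C * (N : ℝ) ^ (1 - c) := by
  obtain ⟨C, c, hC, hc, H⟩ := orth h c0 k0 (corr_poly (d := d) (by have := h.two_le; omega) hk hη) (by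
    rintro N z ⟨α, φ, _, _, rfl⟩ n
    exact (norm_ee _).le)
  exact ⟨C, c, hC, hc, fun s hs N hN F hF α φ hφ hα => H s hs N hN F hF _ ⟨α, φ, hφ, hα, rfl⟩⟩

open Polynomial Pool.Agent.Y965.PS in
/-- sums with the sawtooth function of a polynomial -/
theorem psi_poly {d : ℕ} {m r : ℕ → ℤ} (h : Pool.Agent.H319R3.GC.Adm d m r) (c0 k0 : ℕ) {k : ℕ} (hk : 1 ≤ k) {α : ℝ}
    (hα : Dioph α) : ∃ C c : ℝ, 0 ≤ C ∧ 0 < c ∧ c < 1 ∧ ∀ s : ℤ, (s = 1 ∨ s = -1) → ∀ N : ℕ, 1 ≤ N →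
    ∀ F : ℕ → ℝ, KSyncN d m r s c0 k0 N F → (∀ x, 0 ≤ F x) → ∀ P : ℝ[X], P.natDegree ≤ k + 1 → P.coeff (k + 1) = α →
      |∑ n ∈ Icc 1 N, F n * psi (P.eval (n : ℝ))| ≤ C * (N : ℝ) ^ (1 - c) := by
  obtain ⟨η, hη0, hη1, N0, hN0, hmin⟩ := dioph_minor hk hα
  obtain ⟨C1, c1, hC1, hc1, hW⟩ := weyl h c0 k0 hk hη0
  set c : ℝ := min (η / 2) (c1 / 2) with hc
  have hcpos : 0 < c := lt_min (by positivity) (by positivity)
  have hcη : c ≤ η / 2 := min_le_left _ _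
  have hcc : c ≤ c1 / 2 := min_le_right _ _
  refine ⟨N0 + 5 + (2 + 2 / c1) * C1, c, by positivity, hcpos, by linarith, ?_⟩
  intro s hs N hN F hF hF0 P hP hPc
  have hNR : (1 : ℝ) ≤ N := by exact_mod_cast hN
  have hN00 : (0 : ℝ) < N := by linarith
  have hp1 : (1 : ℝ) ≤ (N : ℝ) ^ (1 - c) := Real.one_le_rpow hNR (by linarith)
  have hpsi : ∀ x : ℝ, |psi x| ≤ 1 := by
    intro x
    unfold psi
    have h1 := Int.fract_nonneg x
    have h2 := (Int.fract_lt_one x).le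
    rw [abs_le]; constructor <;> linarith
  rcases lt_or_ge N N0 with hsm | hbig
  · -- small `N`
    have h1 : |∑ n ∈ Icc 1 N, F n * psi (P.eval (n : ℝ))| ≤ N := by
      refine (abs_sum_le_sum_abs _ _).trans ?_
      have h2 : ∀ n ∈ Icc 1 N, |F n * psi (P.eval ((n : ℕ) : ℝ))| ≤ 1 := by
        intro n _
        rw [abs_mul]
        have a1 := hF.1 n
        have a2 := hpsi (P.eval (n : ℝ))
        calc |F n| * |psi (P.eval ((n : ℕ) : ℝ))| ≤ 1 * 1 := mul_le_mul a1 a2 (abs_nonneg _) zero_le_one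
          _ = 1 := one_mul 1
      refine (sum_le_sum h2).trans ?_
      simp
    have h2 : (N : ℝ) ≤ N0 := by exact_mod_cast hsm.le
    have h3 : (0 : ℝ) ≤ 5 + (2 + 2 / c1) * C1 := by positivity
    calc _ ≤ (N : ℝ) := h1
      _ ≤ N0 + 5 + (2 + 2 / c1) * C1 := by linarith
      _ ≤ _ := le_mul_of_one_le_right (by positivity) hp1
  set K := ⌈(N : ℝ) ^ η⌉₊ with hK
  have hNη : 1 ≤ (N : ℝ) ^ η := Real.one_le_rpow hNR hη0.le
  have hK1 : (N : ℝ) ^ η ≤ K := Nat.le_ceil _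
  have hK2 : (K : ℝ) ≤ 2 * (N : ℝ) ^ η := by
    have := Nat.ceil_lt_add_one (by positivity : 0 ≤ (N : ℝ) ^ η)
    linarith
  have hK3 : (1 : ℝ) ≤ K := hNη.trans hK1
  have hK4 : 1 ≤ K := by exact_mod_cast hK3
  set η' : ℝ := (N : ℝ) ^ (-(η / 2)) / 2 with hη'
  have hη'0 : 0 < η' := by positivity
  have hη'1 : η' < 1 := by
    have : (N : ℝ) ^ (-(η / 2)) ≤ 1 := Real.rpow_le_one_of_one_le_of_nonpos hNR (by linarith)
    rw [hη']; linarith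
  have key := psi_sum (Icc 1 N) (F := F) hF0 (fun m => (abs_le.1 (hF.1 _)).2)
    (fun m : ℕ => P.eval (m : ℝ)) hK4 hη'0 hη'1
  have hcard : ((Icc 1 N).card : ℝ) = N := by rw [Nat.card_Icc, Nat.add_sub_cancel]
  rw [hcard] at key
  refine key.trans ?_
  have hP1 := Ph_real (k + 1) P hP
  rw [hPc] at hP1
  -- the exponential sums
  have hsums : ∀ j ∈ Icc 1 K, ‖∑ m ∈ Icc 1 N, (F m : ℂ) * Pool.Agent.H469R2.NK.e (j * P.eval ((m : ℕ) : ℝ))‖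
      ≤ C1 * (N : ℝ) ^ (1 - c1) := by
    intro j hj
    rw [mem_Icc] at hj
    have h1 := Ph_mul (k + 1) (j : ℝ) _ _ hP1
    have h2 := hW s hs N hN F hF _ _ h1 (hmin N hbig j hj.1 ((by exact_mod_cast hj.2 : (j : ℝ) ≤ K).trans hK2))
    simp only [e_eq_ee]
    exact h2
  have hharm : ∑ j ∈ Icc 1 K, 1 / (j : ℝ) ≤ (2 + 2 / c1) * (N : ℝ) ^ (c1 / 2) := by
    have h1 : ∑ j ∈ Icc 1 K, 1 / (j : ℝ) ≤ 1 + Real.log K := by
      have := harmonic_le_one_add_log K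
      rw [harmonic_eq_sum_Icc] at this
      push_cast at this
      simpa [one_div] using this
    have h2 : Real.log K ≤ Real.log 2 + η * Real.log N := by
      have e1 : Real.log K ≤ Real.log (2 * (N : ℝ) ^ η) := Real.log_le_log (by linarith) hK2
      rwa [Real.log_mul (by norm_num) (by positivity), Real.log_rpow hN00] at e1
    have h3 : Real.log N ≤ (N : ℝ) ^ (c1 / 2) / (c1 / 2) := Real.log_le_rpow_div hN00.le (by positivity)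
    have h4 : (1 : ℝ) ≤ (N : ℝ) ^ (c1 / 2) := Real.one_le_rpow hNR (by positivity)
    have h5 : Real.log 2 ≤ 1 := by have := Real.log_two_lt_d9; linarith
    have h6 : 0 ≤ Real.log N := Real.log_nonneg hNR
    have h7 : η * Real.log N ≤ Real.log N := mul_le_of_le_one_left h6 hη1.le
    have h8 : (N : ℝ) ^ (c1 / 2) / (c1 / 2) = 2 / c1 * (N : ℝ) ^ (c1 / 2) := by field_simp
    calc _ ≤ 1 + Real.log K := h1
      _ ≤ 2 + 2 / c1 * (N : ℝ) ^ (c1 / 2) := by linarith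
      _ ≤ _ := by linarith
  have t1 : η' * (N : ℝ) ≤ (N : ℝ) ^ (1 - c) := by
    have e1 : (N : ℝ) ^ (-(η / 2)) * N = (N : ℝ) ^ (1 - η / 2) := by
      rw [sub_eq_neg_add, Real.rpow_add hN00, Real.rpow_one]
    have e2 : (N : ℝ) ^ (1 - η / 2) ≤ (N : ℝ) ^ (1 - c) := Real.rpow_le_rpow_of_exponent_le hNR (by linarith)
    have e3 : η' * (N : ℝ) = (N : ℝ) ^ (1 - η / 2) / 2 := by rw [hη', ← e1]; ring
    have e4 : (0 : ℝ) ≤ (N : ℝ) ^ (1 - η / 2) := by positivity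
    rw [e3]; linarith
  have t2 : 2 * (N : ℝ) / (η' * K) ≤ 4 * (N : ℝ) ^ (1 - c) := by
    rw [div_le_iff₀ (by positivity)]
    have e1 : (N : ℝ) ^ (1 - η / 2) ≤ (N : ℝ) ^ (1 - c) := Real.rpow_le_rpow_of_exponent_le hNR (by linarith)
    have e2 : (N : ℝ) ^ (1 - η / 2) * ((N : ℝ) ^ (-(η / 2)) * (N : ℝ) ^ η) = N := by
      rw [← Real.rpow_add hN00, ← Real.rpow_add hN00]
      have : 1 - η / 2 + (-(η / 2) + η) = 1 := by ring
      rw [this, Real.rpow_one]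
    calc 2 * (N : ℝ) = 4 * (N : ℝ) ^ (1 - η / 2) * (((N : ℝ) ^ (-(η / 2)) / 2) * (N : ℝ) ^ η) := by
          rw [show 4 * (N : ℝ) ^ (1 - η / 2) * (((N : ℝ) ^ (-(η / 2)) / 2) * (N : ℝ) ^ η)
            = 2 * ((N : ℝ) ^ (1 - η / 2) * ((N : ℝ) ^ (-(η / 2)) * (N : ℝ) ^ η)) by ring, e2]
      _ ≤ 4 * (N : ℝ) ^ (1 - c) * (η' * K) := by
          rw [← hη']
          gcongr
  have t3 : ∑ j ∈ Icc 1 K, 1 / (j : ℝ) * ‖∑ m ∈ Icc 1 N, (F m : ℂ) * Pool.Agent.H469R2.NK.e (j * P.eval ((m : ℕ) : ℝ))‖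
      ≤ (2 + 2 / c1) * C1 * (N : ℝ) ^ (1 - c) := by
    calc _ ≤ ∑ j ∈ Icc 1 K, 1 / (j : ℝ) * (C1 * (N : ℝ) ^ (1 - c1)) :=
          sum_le_sum fun j hj => mul_le_mul_of_nonneg_left (hsums j hj) (by positivity)
      _ = (∑ j ∈ Icc 1 K, 1 / (j : ℝ)) * (C1 * (N : ℝ) ^ (1 - c1)) := by rw [sum_mul]
      _ ≤ ((2 + 2 / c1) * (N : ℝ) ^ (c1 / 2)) * (C1 * (N : ℝ) ^ (1 - c1)) := by gcongr
      _ = (2 + 2 / c1) * C1 * (N : ℝ) ^ (1 - c1 / 2) := by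
          have : (N : ℝ) ^ (1 - c1 / 2) = (N : ℝ) ^ (c1 / 2) * (N : ℝ) ^ (1 - c1) := by
            rw [← Real.rpow_add hN00]; congr 1; ring
          rw [this]; ring
      _ ≤ _ := by
          apply mul_le_mul_of_nonneg_left _ (by positivity)
          exact Real.rpow_le_rpow_of_exponent_le hNR (by linarith)
  have hN0R : (0 : ℝ) ≤ N0 := Nat.cast_nonneg _
  have hfin : (N : ℝ) ^ (1 - c) + 4 * (N : ℝ) ^ (1 - c) + (2 + 2 / c1) * C1 * (N : ℝ) ^ (1 - c)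
      ≤ (N0 + 5 + (2 + 2 / c1) * C1) * (N : ℝ) ^ (1 - c) := by
    have : 0 ≤ N0 * (N : ℝ) ^ (1 - c) := by positivity
    linarith
  exact (add_le_add (add_le_add t1 t2) t3).trans hfin

theorem half_sync {d : ℕ} {m r : ℕ → ℤ} {s : ℤ} {c0 k0 N : ℕ} {F : ℕ → ℝ} (hF : KSyncN d m r s c0 k0 N F) :
    KSyncN d m r s c0 k0 N (fun x => (1 + F x) / 2) := by
  refine ⟨fun x => ?_, fun k hk hkN n n' hn hn' h => ?_⟩
  · have := abs_le.1 (hF.1 x)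
    rw [abs_le]; constructor <;> linarith [this.1, this.2]
  · simp only; rw [hF.2 k hk hkN n n' hn hn' h]

open Polynomial Pool.Agent.Y965.PS in
theorem psi_poly' {d : ℕ} {m r : ℕ → ℤ} (h : Pool.Agent.H319R3.GC.Adm d m r) (c0 k0 : ℕ) {k : ℕ} (hk : 1 ≤ k) {α : ℝ}
    (hα : Dioph α) : ∃ C c : ℝ, 0 ≤ C ∧ 0 < c ∧ c < 1 ∧ ∀ s : ℤ, (s = 1 ∨ s = -1) → ∀ N : ℕ, 1 ≤ N →
    ∀ F : ℕ → ℝ, KSyncN d m r s c0 k0 N F → ∀ P : ℝ[X], P.natDegree ≤ k + 1 → P.coeff (k + 1) = α →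
      |∑ n ∈ Icc 1 N, F n * psi (P.eval (n : ℝ))| ≤ C * (N : ℝ) ^ (1 - c) := by
  obtain ⟨C, c, hC, hc, hc1, H⟩ := psi_poly h c0 k0 hk hα
  refine ⟨3 * C, c, by positivity, hc, hc1, fun s hs N hN F hF P hP hPc => ?_⟩
  have h1 := H s hs N hN _ (half_sync hF) (fun x => by
    have := (abs_le.1 (hF.1 x)).1; show 0 ≤ (1 + F x) / 2; linarith) P hP hPc
  have h2 := H s hs N hN (fun _ => 1) ⟨fun x => by simp, fun _ _ _ _ _ _ _ _ => rfl⟩ (fun x => by norm_num) P hP hPc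
  have e2 : ∑ n ∈ Icc 1 N, F n * psi (P.eval (n : ℝ)) = 2 * ∑ n ∈ Icc 1 N, (1 + F n) / 2 * psi (P.eval (n : ℝ))
      - ∑ n ∈ Icc 1 N, 1 * psi (P.eval (n : ℝ)) := by
    rw [mul_sum, ← sum_sub_distrib]
    apply sum_congr rfl
    intro n _; ring
  rw [e2]
  refine (abs_sub _ _).trans ?_
  rw [abs_mul, abs_two]
  linarith

open Classical Polynomial Pool.Agent.Y965.PS in
/-- DISCREPANCY of polynomials, weighted by `F` -/
theorem disc {d : ℕ} {m r : ℕ → ℤ} (h : Pool.Agent.H319R3.GC.Adm d m r) (c0 k0 : ℕ) {k : ℕ} (hk : 1 ≤ k) {α : ℝ}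
    (hα : Dioph α) : ∃ C c : ℝ, 0 ≤ C ∧ 0 < c ∧ c < 1 ∧ ∀ s : ℤ, (s = 1 ∨ s = -1) → ∀ N : ℕ, 1 ≤ N →
    ∀ F : ℕ → ℝ, KSyncN d m r s c0 k0 N F → ∀ P : ℝ[X], P.natDegree ≤ k + 1 → P.coeff (k + 1) = α →
    ∀ u v : ℝ, 0 ≤ u → u ≤ v → v ≤ 1 →
      |∑ n ∈ Icc 1 N, (if u ≤ Int.fract (P.eval (n : ℝ)) ∧ Int.fract (P.eval (n : ℝ)) < v then (1 : ℝ) else 0) * F n
        - (v - u) * ∑ n ∈ Icc 1 N, F n| ≤ C * (N : ℝ) ^ (1 - c) := by
  obtain ⟨C, c, hC, hc, hc1, H⟩ := psi_poly' h c0 k0 hk hα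
  refine ⟨2 * C, c, by positivity, hc, hc1, fun s hs N hN F hF P hP hPc u v hu huv hv => ?_⟩
  have hsub : ∀ w : ℝ, |∑ n ∈ Icc 1 N, F n * psi (P.eval (n : ℝ) - w)| ≤ C * (N : ℝ) ^ (1 - c) := by
    intro w
    have h1 : (P - Polynomial.C w).natDegree ≤ k + 1 := by
      refine (natDegree_sub_le _ _).trans ?_
      rw [natDegree_C]
      omega
    have h2 : (P - Polynomial.C w).coeff (k + 1) = α := by
      rw [coeff_sub, coeff_C, if_neg (by omega), sub_zero]; exact hPc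
    have h3 := H s hs N hN F hF _ h1 h2
    simpa using h3
  have e1 : ∑ n ∈ Icc 1 N, (if u ≤ Int.fract (P.eval (n : ℝ)) ∧ Int.fract (P.eval (n : ℝ)) < v then (1 : ℝ) else 0) * F n
      - (v - u) * ∑ n ∈ Icc 1 N, F n
      = ∑ n ∈ Icc 1 N, F n * psi (P.eval (n : ℝ) - v) - ∑ n ∈ Icc 1 N, F n * psi (P.eval (n : ℝ) - u) := by
    rw [mul_sum, ← sum_sub_distrib, ← sum_sub_distrib]
    apply sum_congr rfl
    intro n _
    rw [fract_ind hu huv hv (P.eval (n : ℝ))]; ring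
  rw [e1]
  refine (abs_sub _ _).trans ?_
  have h1 := hsub v
  have h2 := hsub u
  linarith

end Pool.Agent.Run7.h439.DC
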