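import Pool.Agent.Run7.h439.DC.Cls

/-! The `3x+k` maps, and the classes defined by digits. -/

set_option autoImplicit false

namespace Pool.Agent.Run7.h439.DC

open Finset Pool.Agent.H319R3.GC Pool.Agent.Y965.GP Pool.Agent.Y965.PS
open Pool.Agent.Y965.PL (ASync ind ind_pos ind_neg ind_congr)

/-- multipliers of the `3x+k` map -/
def m3 : ℕ → ℤ := fun i => if i = 0 then 1 else 3

/-- offsets of the `3x+k` map -/
def r3 (k : ℤ) : ℕ → ℤ := fun i => if i = 0 then 0 else -k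

theorem adm3 {k : ℤ} (hk : Odd k) : Adm 2 m3 (r3 k) where
  two_le := le_refl _
  cop := by
    intro i hi
    interval_cases i
    · simp [m3]
    · simp only [m3]
      norm_num
  adm := by
    intro i hi
    obtain ⟨t, ht⟩ := hk
    interval_cases i
    · simp [m3, r3]
    · simp only [m3, r3]
      norm_num
      omega
  contr := by
    unfold Pool.Agent.H319R3.GC.PP m3
    simp [Finset.prod_range_succ]
  big := by
    unfold Pool.Agent.H319R3.GC.PP m3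
    simp [Finset.prod_range_succ]

theorem Tm3 (k : ℤ) : Tm 2 m3 (r3 k) = Tz k := by
  funext x
  unfold Tm Tz
  rcases Int.emod_two_eq_zero_or_one x with h | h
  · rw [if_pos h]
    have : (x % ((2 : ℕ) : ℤ)).toNat = 0 := by
      push_cast; rw [h]; rfl
    rw [this]
    simp [m3, r3]
  · rw [if_neg (by omega)]
    have : (x % ((2 : ℕ) : ℤ)).toNat = 1 := by
      push_cast; rw [h]; rfl
    rw [this]
    simp [m3, r3]

theorem ac_front (k : ℤ) (t : ℕ) : ∀ x : ℤ, ac k (t + 1) x = (if x % 2 = 0 then 0 else 1) + ac k t (Tz k x) := by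
  induction t with
  | zero => intro x; simp [ac]
  | succ t ih =>
    intro x
    rw [ac_succ, ih, ac_succ, Function.iterate_succ_apply]
    ring

theorem Mw3 (k : ℤ) (t : ℕ) : ∀ x : ℤ, Mw m3 (wd 2 m3 (r3 k) t x) = 3 ^ (ac k t x) := by
  induction t with
  | zero => intro x; simp [wd, Mw, ac]
  | succ t ih =>
    intro x
    simp only [wd]
    rw [Mw_cons, Tm3, ih, ac_front, pow_add]
    congr 1
    rcases Int.emod_two_eq_zero_or_one x with h | h
    · rw [if_pos h, pow_zero]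
      have : (x % ((2 : ℕ) : ℤ)).toNat = 0 := by push_cast; rw [h]; rfl
      rw [this]; rfl
    · rw [if_neg (by omega), pow_one]
      have : (x % ((2 : ℕ) : ℤ)).toNat = 1 := by push_cast; rw [h]; rfl
      rw [this]; rfl

theorem ksync_async {k : ℤ} {F : ℤ → ℝ} (hF : ASync k F) : KSync 2 m3 (r3 k) 1 1 0 (fun n => F (n : ℤ)) := by
  refine ⟨fun n => hF.1 _, fun t _ n n' hn hn' hk => ?_⟩
  rw [one_mul] at hn hn'
  unfold key at hk
  rw [Prod.mk.injEq, Tm3, one_mul, one_mul, Mw3, Mw3] at hk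
  exact hF.2 t n n' (by exact_mod_cast hn) (by exact_mod_cast hn') hk.1
    (Int.pow_right_injective (by norm_num) hk.2)

/-- the class defined by the functions `W i` modulo `m i` -/
def Ed {ι : Type*} (m : ι → ℕ) (W : ι → ℕ → ℤ) (a : ι → ℤ) (n : ℕ) : Prop := ∀ i, (m i : ℤ) ∣ W i n - a i

open Classical in
theorem sum_Ed {ι : Type*} (m : ι → ℕ) (W : ι → ℕ → ℤ) (a : ι → ℤ) (F : ℕ → ℝ) (N : ℕ) :
    ∑ n ∈ (Icc 1 N).filter (fun n => Pool.Agent.Y55.DS.Cl m W a 1 0 n), F n = ∑ n ∈ Icc 1 N, ind (Ed m W a) n * F n := by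
  rw [sum_filter]
  apply sum_congr rfl
  intro n _
  by_cases h : Ed m W a n
  · rw [if_pos ⟨h, by simp⟩, ind_pos h, one_mul]
  · rw [if_neg (fun h' => h h'.1), ind_neg h, zero_mul]

open Classical in
theorem sum_Ed_odd {ι : Type*} (m : ι → ℕ) (W : ι → ℕ → ℤ) (a : ι → ℤ) (F : ℕ → ℝ) (N : ℕ) :
    ∑ n ∈ (Icc 1 N).filter (fun n => Pool.Agent.Y55.DS.Cl m W a 2 1 n), F n
      = ∑ n ∈ Icc 1 N, ind (Ed m W a) n * (if n % 2 = 1 then F n else 0) := by
  rw [sum_filter]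
  apply sum_congr rfl
  intro n _
  by_cases h2 : n % 2 = 1
  · rw [if_pos h2]
    by_cases h : Ed m W a n
    · rw [if_pos ⟨h, by push_cast; omega⟩, ind_pos h, one_mul]
    · rw [if_neg (fun h' => h h'.1), ind_neg h, zero_mul]
  · rw [if_neg h2, mul_zero, if_neg]
    rintro ⟨_, h'⟩
    push_cast at h'
    omega

/-- THE CLASSES -/
theorem ct_digits {d : ℕ} {mm r : ℕ → ℤ} (h : Adm d mm r) (c0 k0 : ℕ) {ι : Type*} [Fintype ι] [DecidableEq ι]
    (q : ι → ℕ) (hq : ∀ i, 3 ≤ q i) (hdq : ∀ i, Nat.Coprime d (q i)) (hc : ∀ i j, i ≠ j → Nat.Coprime (q i) (q j))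
    (W : ι → ℕ → ℤ) (hW : ∀ i, Pool.Agent.Y55.DS.SA (q i) (W i)) (m : ι → ℕ) (hm : ∀ i, 1 ≤ m i)
    (hobs : ∀ i, Pool.Agent.Y55.DS.obs (q i) (W i) (m i) = 1) : ∃ C c : ℝ, 0 ≤ C ∧ 0 < c ∧
    ∀ s : ℤ, (s = 1 ∨ s = -1) → ∀ F : ℕ → ℝ, KSync d mm r s c0 k0 F → ∀ a : ι → ℤ,
      CT (Ed m W a) (∏ i, (1 / (m i : ℝ))) C c F := by
  classical
  obtain ⟨C, c, hC, hc0, H⟩ := kim h c0 k0 q hq hdq hc W hW m hm (M := 1) le_rfl
  refine ⟨C, c, hC, hc0, fun s hs F hF a => ⟨hF.1, fun N hN => ?_⟩⟩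
  have h1 := H s hs N hN F (hF.toN N) a 0
  rw [sum_Ed] at h1
  have e1 : (∏ i, ((Pool.Agent.Y55.DS.obs (q i) (W i) (m i) : ℝ) / m i)) = ∏ i, (1 / (m i : ℝ)) := by
    apply prod_congr rfl
    intro i _
    rw [hobs i, Nat.cast_one]
  have e2 : (Icc 1 N).filter (fun n => Pool.Agent.Y55.DS.Cl (fun i => Pool.Agent.Y55.DS.obs (q i) (W i) (m i))
      (fun i n => n * W i 1) a 1 0 n) = Icc 1 N := by
    apply filter_true_of_mem
    intro n _
    refine ⟨fun i => ?_, by simp⟩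
    simp only [hobs i]; simp
  rw [e1, e2] at h1
  exact h1

/-- the odd integers in the classes -/
theorem ct_digits_odd {d : ℕ} {mm r : ℕ → ℤ} (h : Adm d mm r) (c0 k0 : ℕ) {ι : Type*} [Fintype ι] [DecidableEq ι]
    (q : ι → ℕ) (hq : ∀ i, 3 ≤ q i) (hdq : ∀ i, Nat.Coprime d (q i)) (hc : ∀ i j, i ≠ j → Nat.Coprime (q i) (q j))
    (W : ι → ℕ → ℤ) (hW : ∀ i, Pool.Agent.Y55.DS.SA (q i) (W i)) (m : ι → ℕ) (hm : ∀ i, 1 ≤ m i)
    (hobs : ∀ i, Pool.Agent.Y55.DS.obs (q i) (W i) (m i) = 1) : ∃ C c : ℝ, 0 ≤ C ∧ 0 < c ∧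
    ∀ s : ℤ, (s = 1 ∨ s = -1) → ∀ F : ℕ → ℝ, KSync d mm r s c0 k0 F → ∀ a : ι → ℤ,
      CT (Ed m W a) (∏ i, (1 / (m i : ℝ))) C c (fun n => if n % 2 = 1 then F n else 0) := by
  classical
  obtain ⟨C, c, hC, hc0, H⟩ := kim h c0 k0 q hq hdq hc W hW m hm (M := 2) (by norm_num)
  refine ⟨C, c, hC, hc0, fun s hs F hF a => ⟨fun n => ?_, fun N hN => ?_⟩⟩
  · split_ifs
    · exact hF.1 n
    · simp
  have h1 := H s hs N hN F (hF.toN N) a 1
  rw [sum_Ed_odd] at h1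
  have e1 : (∏ i, ((Pool.Agent.Y55.DS.obs (q i) (W i) (m i) : ℝ) / m i)) = ∏ i, (1 / (m i : ℝ)) := by
    apply prod_congr rfl
    intro i _
    rw [hobs i, Nat.cast_one]
  have e2 : ∑ n ∈ (Icc 1 N).filter (fun n => Pool.Agent.Y55.DS.Cl (fun i => Pool.Agent.Y55.DS.obs (q i) (W i) (m i))
      (fun i n => n * W i 1) a 2 1 n), F n = ∑ n ∈ Icc 1 N, (if n % 2 = 1 then F n else 0) := by
    rw [sum_filter]
    apply sum_congr rfl
    intro n _
    by_cases h2 : n % 2 = 1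
    · rw [if_pos h2, if_pos]
      refine ⟨fun i => ?_, by push_cast; omega⟩
      simp only [hobs i]; simp
    · rw [if_neg h2, if_neg]
      rintro ⟨_, h'⟩
      push_cast at h'
      omega
  rw [e1, e2] at h1
  exact h1

theorem rho01 {ι : Type*} [Fintype ι] {m : ι → ℕ} (hm : ∀ i, 1 ≤ m i) :
    0 < ∏ i, (1 / (m i : ℝ)) ∧ ∏ i, (1 / (m i : ℝ)) ≤ 1 := by
  have h : ∀ i, (1 : ℝ) ≤ m i := fun i => by exact_mod_cast hm i
  constructor
  · apply prod_pos
    intro i _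
    have := h i
    positivity
  · apply prod_le_one
    · intro i _
      have := h i
      positivity
    · intro i _
      rw [div_le_one (by linarith [h i])]
      exact h i

/-- the sum of the digits in base `q` -/
def sd (q n : ℕ) : ℤ := ((Nat.digits q n).sum : ℤ)

theorem sd_SA {q : ℕ} (hq : 2 ≤ q) : Pool.Agent.Y55.DS.SA q (sd q) := by
  intro n r hr
  unfold sd
  rcases Nat.eq_zero_or_pos (q * n + r) with h0 | h0
  · have hn : n = 0 := by
      by_contra hn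
      have : 0 < q * n := Nat.mul_pos (by omega) (by omega)
      omega
    have hr0 : r = 0 := by omega
    subst hn; subst hr0
    simp
  · rw [Nat.digits_def' (by omega) h0]
    have e1 : (q * n + r) % q = r := by rw [Nat.mul_add_mod]; exact Nat.mod_eq_of_lt hr
    have e2 : (q * n + r) / q = n := by
      rw [Nat.mul_add_div (by omega), Nat.div_eq_of_lt hr, add_zero]
    rw [e1, e2, List.sum_cons]
    rcases Nat.eq_zero_or_pos r with h1 | h1
    · subst h1; simp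
    · rw [Nat.digits_of_lt q r (by omega) hr]
      simp only [List.sum_cons, List.sum_nil, add_zero]
      push_cast; ring

theorem sd_lt {q r : ℕ} (h : r < q) : sd q r = r := by
  unfold sd
  rcases Nat.eq_zero_or_pos r with h1 | h1
  · subst h1; simp
  · rw [Nat.digits_of_lt q r (by omega) h]; simp

theorem sd_self {q : ℕ} (h : 2 ≤ q) : sd q q = 1 := by
  have h1 := sd_SA h 1 0 (by omega)
  rw [mul_one, add_zero, sd_lt (by omega : 1 < q), sd_lt (by omega : 0 < q)] at h1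
  rw [h1]; norm_num

theorem sd_obs {q m : ℕ} (hq : 2 ≤ q) (hm : Nat.Coprime m (q - 1)) : Pool.Agent.Y55.DS.obs q (sd q) m = 1 := by
  have h1 := Pool.Agent.Y55.DS.obs_dvd q (sd q) m
  have h2 := Pool.Agent.Y55.DS.obs_dvd' (q := q) (W := sd q) (m := m) (le_refl q)
  rw [sd_self hq, sd_lt (by omega : 1 < q)] at h2
  have h3 : Pool.Agent.Y55.DS.obs q (sd q) m ∣ q - 1 := by
    have h4 : (Pool.Agent.Y55.DS.obs q (sd q) m : ℤ) ∣ ((q - 1 : ℕ) : ℤ) := by
      have e : ((q - 1 : ℕ) : ℤ) = -(1 - (q : ℤ) * ((1 : ℕ) : ℤ)) := by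
        push_cast [Nat.cast_sub (by omega : 1 ≤ q)]; ring
      rw [e]
      exact (dvd_neg).2 h2
    exact_mod_cast h4
  have h5 : Pool.Agent.Y55.DS.obs q (sd q) m ∣ Nat.gcd m (q - 1) := Nat.dvd_gcd h1 h3
  rw [Nat.Coprime.gcd_eq_one hm] at h5
  exact Nat.dvd_one.1 h5

end Pool.Agent.Run7.h439.DC
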