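import Pool.Agent.Run7.h439.DC.Poly
import Pool.Agent.Run7.h439.DC.Two
import Pool.Agent.Y55.DS.Kim

/-! Classes given by the fractional parts of polynomials, together with residue classes. -/

set_option autoImplicit false

namespace Pool.Agent.Run7.h439.DC

open Finset Pool.Agent.Y55.DS Pool.Agent.H373R2.NB
open Pool.Agent.Helper602.MK (ee)
open Pool.Agent.Helper602.MK.N_J5b (ee_add ee_zero ee_conj norm_ee)

/-- the restriction of `F` to a residue class -/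
noncomputable def Rs (M b : ℕ) (F : ℕ → ℝ) (n : ℕ) : ℝ := if n % M = b % M then F n else 0

theorem Rs_eq {M : ℕ} (hM : 1 ≤ M) (b : ℕ) (F : ℕ → ℝ) (n : ℕ) :
    ((Rs M b F n : ℝ) : ℂ) = 1 / M * ∑ t ∈ range M, (F n : ℂ) * ee (t * ((n : ℝ) - b) / M) := by
  have hM0 : (M : ℂ) ≠ 0 := by exact_mod_cast (by omega : M ≠ 0)
  have h1 := root_sum hM ((n : ℤ) - b)
  have e1 : ∀ t ∈ range M, Pool.Agent.Y55.DS.e ((t : ℝ) * (((n : ℤ) - (b : ℤ) : ℤ) : ℝ) / M) = ee (t * ((n : ℝ) - b) / M) := by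
    intro t _
    have e0 : Pool.Agent.Y55.DS.e ((t : ℝ) * (((n : ℤ) - (b : ℤ) : ℤ) : ℝ) / M) =
        Pool.Agent.H469R2.NK.e ((t : ℝ) * (((n : ℤ) - (b : ℤ) : ℤ) : ℝ) / M) := rfl
    rw [e0, e_eq_ee]
    congr 1
    push_cast
    ring
  rw [sum_congr rfl e1] at h1
  rw [← mul_sum, h1]
  unfold Rs
  have hmod : ((M : ℤ) ∣ (n : ℤ) - (b : ℤ)) ↔ n % M = b % M := by
    rw [← Int.modEq_iff_dvd]
    constructor
    · intro h2
      exact ((Int.natCast_modEq_iff).1 h2).symm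
    · intro h2
      exact (Int.natCast_modEq_iff).2 (Nat.ModEq.symm h2)
  by_cases h : n % M = b % M
  · rw [if_pos h, if_pos (hmod.2 h)]
    field_simp
  · rw [if_neg h, if_neg (fun h' => h (hmod.1 h'))]
    simp

theorem avg_norm {M : ℕ} (hM : 1 ≤ M) (z : ℕ → ℂ) {B : ℝ} (h : ∀ t ∈ range M, ‖z t‖ ≤ B) :
    ‖(1 / M : ℂ) * ∑ t ∈ range M, z t‖ ≤ B := by
  have hMR : (0 : ℝ) < M := by exact_mod_cast hM
  have e2 : ‖(1 / M : ℂ)‖ = 1 / M := by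
    rw [norm_div, norm_one, Complex.norm_natCast]
  rw [norm_mul, e2]
  have h1 : ‖∑ t ∈ range M, z t‖ ≤ M * B := by
    refine (norm_sum_le _ _).trans ((sum_le_sum h).trans (le_of_eq ?_))
    rw [sum_const, card_range, nsmul_eq_mul]
  calc 1 / (M : ℝ) * ‖∑ t ∈ range M, z t‖ ≤ 1 / (M : ℝ) * (M * B) := mul_le_mul_of_nonneg_left h1 (by positivity)
    _ = B := by field_simp

open Polynomial in
/-- THE WEYL INEQUALITY on residue classes -/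
theorem weyl_res {d : ℕ} {m r : ℕ → ℤ} (h : Pool.Agent.H319R3.GC.Adm d m r) (c0 k0 : ℕ) {k : ℕ} (hk : 1 ≤ k) {η : ℝ}
    (hη : 0 < η) : ∃ C c : ℝ, 0 ≤ C ∧ 0 < c ∧ ∀ s : ℤ, (s = 1 ∨ s = -1) → ∀ N : ℕ, 1 ≤ N →
    ∀ F : ℕ → ℝ, KSyncN d m r s c0 k0 N F → ∀ P : ℝ[X], P.natDegree ≤ k + 1 →
    (∀ l : ℕ, 1 ≤ l → (l : ℝ) ≤ (N : ℝ) ^ η → ∀ a : ℤ,
      (N : ℝ) ^ (η - k) ≤ |l * (((k + 1).factorial : ℝ) * P.coeff (k + 1)) - a|) → ∀ M b : ℕ, 1 ≤ M →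
    ‖∑ n ∈ Icc 1 N, ((Rs M b F n : ℝ) : ℂ) * ee (P.eval (n : ℝ))‖ ≤ C * (N : ℝ) ^ (1 - c) := by
  obtain ⟨C0, c, hC, hc, H⟩ := weyl h c0 k0 hk hη
  refine ⟨C0, c, hC, hc, fun s hs N hN F hF P hP hα M b hM => ?_⟩
  have e1 : ∑ n ∈ Icc 1 N, ((Rs M b F n : ℝ) : ℂ) * ee (P.eval (n : ℝ)) =
      1 / M * ∑ t ∈ range M, ∑ n ∈ Icc 1 N, (F n : ℂ) * ee ((P + C ((t : ℝ) / M) * X - C ((t : ℝ) * b / M)).eval (n : ℝ)) := by
    rw [sum_comm, mul_sum]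
    apply sum_congr rfl
    intro n _
    rw [Rs_eq hM, mul_assoc, sum_mul]
    congr 1
    apply sum_congr rfl
    intro t _
    rw [mul_assoc, ← ee_add]
    congr 2
    simp only [eval_sub, eval_add, eval_mul, eval_C, eval_X]
    ring
  have h2 : ∀ t ∈ range M, ‖∑ n ∈ Icc 1 N, (F n : ℂ) * ee ((P + C ((t : ℝ) / M) * X - C ((t : ℝ) * b / M)).eval (n : ℝ))‖ ≤
      C0 * (N : ℝ) ^ (1 - c) := by
    intro t _
    set Q : ℝ[X] := P + C ((t : ℝ) / M) * X - C ((t : ℝ) * b / M) with hQ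
    have hQd : Q.natDegree ≤ k + 1 := by
      refine (natDegree_sub_le _ _).trans (max_le ((natDegree_add_le _ _).trans (max_le hP ?_)) ?_)
      · exact (natDegree_C_mul_le _ _).trans (natDegree_X_le.trans (by omega))
      · rw [natDegree_C]; omega
    have hQc : Q.coeff (k + 1) = P.coeff (k + 1) := by
      rw [hQ, coeff_sub, coeff_add, coeff_C_mul, coeff_X, coeff_C, if_neg (by omega), if_neg (by omega)]
      ring
    have h3 := Ph_real (k + 1) Q hQd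
    rw [hQc] at h3
    exact H s hs N hN F hF _ _ h3 hα
  rw [e1]
  exact avg_norm hM _ h2

open Polynomial Pool.Agent.Y965.PS in
/-- sums with the sawtooth function of a polynomial -/
theorem psi_res {d : ℕ} {m r : ℕ → ℤ} (h : Pool.Agent.H319R3.GC.Adm d m r) (c0 k0 : ℕ) {k : ℕ} (hk : 1 ≤ k) {α : ℝ}
    (hα : Dioph α) : ∃ C c : ℝ, 0 ≤ C ∧ 0 < c ∧ c < 1 ∧ ∀ s : ℤ, (s = 1 ∨ s = -1) → ∀ N : ℕ, 1 ≤ N →
    ∀ F : ℕ → ℝ, KSyncN d m r s c0 k0 N F → (∀ x, 0 ≤ F x) → ∀ P : ℝ[X], P.natDegree ≤ k + 1 → P.coeff (k + 1) = α →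
      ∀ M b : ℕ, 1 ≤ M → |∑ n ∈ Icc 1 N, Rs M b F n * psi (P.eval (n : ℝ))| ≤ C * (N : ℝ) ^ (1 - c) := by
  obtain ⟨η, hη0, hη1, N0, hN0, hmin⟩ := dioph_minor hk hα
  obtain ⟨C1, c1, hC1, hc1, hW⟩ := weyl_res h c0 k0 hk hη0
  set c : ℝ := min (η / 2) (c1 / 2) with hc
  have hcpos : 0 < c := lt_min (by positivity) (by positivity)
  have hcη : c ≤ η / 2 := min_le_left _ _
  have hcc : c ≤ c1 / 2 := min_le_right _ _
  refine ⟨N0 + 5 + (2 + 2 / c1) * C1, c, by positivity, hcpos, by linarith, ?_⟩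
  intro s hs N hN F hF hF0 P hP hPc M b hM
  have hG0 : ∀ n, 0 ≤ Rs M b F n := by
    intro n; unfold Rs; split_ifs
    · exact hF0 n
    · exact le_rfl
  have hG1 : ∀ n, Rs M b F n ≤ 1 := by
    intro n; unfold Rs; split_ifs
    · exact (abs_le.1 (hF.1 n)).2
    · exact zero_le_one
  have hNR : (1 : ℝ) ≤ N := by exact_mod_cast hN
  have hN00 : (0 : ℝ) < N := by linarith
  have hp1 : (1 : ℝ) ≤ (N : ℝ) ^ (1 - c) := Real.one_le_rpow hNR (by linarith)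
  have hpsi : ∀ x : ℝ, |psi x| ≤ 1 := by
    intro x
    unfold psi
    have h1 := Int.fract_nonneg x
    have h2 := (Int.fract_lt_one x).le
    rw [abs_le]; constructor <;> linarith
  rcases lt_or_ge N N0 with hsm | hbig
  · -- small `N`
    have h1 : |∑ n ∈ Icc 1 N, Rs M b F n * psi (P.eval (n : ℝ))| ≤ N := by
      refine (abs_sum_le_sum_abs _ _).trans ?_
      have h2 : ∀ n ∈ Icc 1 N, |Rs M b F n * psi (P.eval ((n : ℕ) : ℝ))| ≤ 1 := by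
        intro n _
        rw [abs_mul]
        have a1 : |Rs M b F n| ≤ 1 := by rw [abs_of_nonneg (hG0 n)]; exact hG1 n
        have a2 := hpsi (P.eval (n : ℝ))
        calc |Rs M b F n| * |psi (P.eval ((n : ℕ) : ℝ))| ≤ 1 * 1 := mul_le_mul a1 a2 (abs_nonneg _) zero_le_one
          _ = 1 := one_mul 1
      refine (sum_le_sum h2).trans ?_
      simp
    have h2 : (N : ℝ) ≤ N0 := by exact_mod_cast hsm.le
    have h3 : (0 : ℝ) ≤ 5 + (2 + 2 / c1) * C1 := by positivity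
    calc _ ≤ (N : ℝ) := h1
      _ ≤ N0 + 5 + (2 + 2 / c1) * C1 := by linarith
      _ ≤ _ := le_mul_of_one_le_right (by positivity) hp1
  set K := ⌈(N : ℝ) ^ η⌉₊ with hK
  have hNη : 1 ≤ (N : ℝ) ^ η := Real.one_le_rpow hNR hη0.le
  have hK1 : (N : ℝ) ^ η ≤ K := Nat.le_ceil _
  have hK2 : (K : ℝ) ≤ 2 * (N : ℝ) ^ η := by
    have := Nat.ceil_lt_add_one (by positivity : 0 ≤ (N : ℝ) ^ η)
    linarith
  have hK3 : (1 : ℝ) ≤ K := hNη.trans hK1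
  have hK4 : 1 ≤ K := by exact_mod_cast hK3
  set η' : ℝ := (N : ℝ) ^ (-(η / 2)) / 2 with hη'
  have hη'0 : 0 < η' := by positivity
  have hη'1 : η' < 1 := by
    have : (N : ℝ) ^ (-(η / 2)) ≤ 1 := Real.rpow_le_one_of_one_le_of_nonpos hNR (by linarith)
    rw [hη']; linarith
  have key := psi_sum (Icc 1 N) (F := Rs M b F) hG0 (fun m => hG1 _)
    (fun m : ℕ => P.eval (m : ℝ)) hK4 hη'0 hη'1
  have hcard : ((Icc 1 N).card : ℝ) = N := by rw [Nat.card_Icc, Nat.add_sub_cancel]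
  rw [hcard] at key
  refine key.trans ?_
  -- the exponential sums
  have hsums : ∀ j ∈ Icc 1 K, ‖∑ m ∈ Icc 1 N, ((Rs M b F m : ℝ) : ℂ) * Pool.Agent.H469R2.NK.e (j * P.eval ((m : ℕ) : ℝ))‖
      ≤ C1 * (N : ℝ) ^ (1 - c1) := by
    intro j hj
    rw [mem_Icc] at hj
    have hd1 : (Polynomial.C (j : ℝ) * P).natDegree ≤ k + 1 := (natDegree_C_mul_le _ _).trans hP
    have hc1' : (Polynomial.C (j : ℝ) * P).coeff (k + 1) = j * α := by rw [coeff_C_mul, hPc]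
    have h2 := hW s hs N hN F hF (Polynomial.C (j : ℝ) * P) hd1 (fun l hl1 hl2 a => by
      have h3 := hmin N hbig j hj.1 ((by exact_mod_cast hj.2 : (j : ℝ) ≤ K).trans hK2) l hl1 hl2 a
      have e : (((k + 1).factorial : ℝ) * (Polynomial.C (j : ℝ) * P).coeff (k + 1)) = (j * (((k + 1).factorial : ℝ) * α)) := by
        rw [hc1']; ring
      rw [e]
      exact h3) M b hM
    simp only [e_eq_ee]
    refine le_trans (le_of_eq ?_) h2
    congr 1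
    apply sum_congr rfl
    intro n _
    rw [Polynomial.eval_mul, Polynomial.eval_C]
  have hharm : ∑ j ∈ Icc 1 K, 1 / (j : ℝ) ≤ (2 + 2 / c1) * (N : ℝ) ^ (c1 / 2) := by
    have h1 : ∑ j ∈ Icc 1 K, 1 / (j : ℝ) ≤ 1 + Real.log K := by
      have := harmonic_le_one_add_log K
      rw [harmonic_eq_sum_Icc] at this
      push_cast at this
      simpa [one_div] using this
    have h2 : Real.log K ≤ Real.log 2 + η * Real.log N := by
      have e1 : Real.log K ≤ Real.log (2 * (N : ℝ) ^ η) := Real.log_le_log (by linarith) hK2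
      rwa [Real.log_mul (by norm_num) (by positivity), Real.log_rpow hN00] at e1
    have h3 : Real.log N ≤ (N : ℝ) ^ (c1 / 2) / (c1 / 2) := Real.log_le_rpow_div hN00.le (by positivity)
    have h4 : (1 : ℝ) ≤ (N : ℝ) ^ (c1 / 2) := Real.one_le_rpow hNR (by positivity)
    have h5 : Real.log 2 ≤ 1 := by have := Real.log_two_lt_d9; linarith
    have h6 : 0 ≤ Real.log N := Real.log_nonneg hNR
    have h7 : η * Real.log N ≤ Real.log N := mul_le_of_le_one_left h6 hη1.le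
    have h8 : (N : ℝ) ^ (c1 / 2) / (c1 / 2) = 2 / c1 * (N : ℝ) ^ (c1 / 2) := by field_simp
    calc _ ≤ 1 + Real.log K := h1
      _ ≤ 2 + 2 / c1 * (N : ℝ) ^ (c1 / 2) := by linarith
      _ ≤ _ := by linarith
  have t1 : η' * (N : ℝ) ≤ (N : ℝ) ^ (1 - c) := by
    have e1 : (N : ℝ) ^ (-(η / 2)) * N = (N : ℝ) ^ (1 - η / 2) := by
      rw [sub_eq_neg_add, Real.rpow_add hN00, Real.rpow_one]
    have e2 : (N : ℝ) ^ (1 - η / 2) ≤ (N : ℝ) ^ (1 - c) := Real.rpow_le_rpow_of_exponent_le hNR (by linarith)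
    have e3 : η' * (N : ℝ) = (N : ℝ) ^ (1 - η / 2) / 2 := by rw [hη', ← e1]; ring
    have e4 : (0 : ℝ) ≤ (N : ℝ) ^ (1 - η / 2) := by positivity
    rw [e3]; linarith
  have t2 : 2 * (N : ℝ) / (η' * K) ≤ 4 * (N : ℝ) ^ (1 - c) := by
    rw [div_le_iff₀ (by positivity)]
    have e1 : (N : ℝ) ^ (1 - η / 2) ≤ (N : ℝ) ^ (1 - c) := Real.rpow_le_rpow_of_exponent_le hNR (by linarith)
    have e2 : (N : ℝ) ^ (1 - η / 2) * ((N : ℝ) ^ (-(η / 2)) * (N : ℝ) ^ η) = N := by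
      rw [← Real.rpow_add hN00, ← Real.rpow_add hN00]
      have : 1 - η / 2 + (-(η / 2) + η) = 1 := by ring
      rw [this, Real.rpow_one]
    calc 2 * (N : ℝ) = 4 * (N : ℝ) ^ (1 - η / 2) * (((N : ℝ) ^ (-(η / 2)) / 2) * (N : ℝ) ^ η) := by
          rw [show 4 * (N : ℝ) ^ (1 - η / 2) * (((N : ℝ) ^ (-(η / 2)) / 2) * (N : ℝ) ^ η)
            = 2 * ((N : ℝ) ^ (1 - η / 2) * ((N : ℝ) ^ (-(η / 2)) * (N : ℝ) ^ η)) by ring, e2]
      _ ≤ 4 * (N : ℝ) ^ (1 - c) * (η' * K) := by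
          rw [← hη']
          gcongr
  have t3 : ∑ j ∈ Icc 1 K, 1 / (j : ℝ) * ‖∑ m ∈ Icc 1 N, ((Rs M b F m : ℝ) : ℂ) * Pool.Agent.H469R2.NK.e (j * P.eval ((m : ℕ) : ℝ))‖
      ≤ (2 + 2 / c1) * C1 * (N : ℝ) ^ (1 - c) := by
    calc _ ≤ ∑ j ∈ Icc 1 K, 1 / (j : ℝ) * (C1 * (N : ℝ) ^ (1 - c1)) :=
          sum_le_sum fun j hj => mul_le_mul_of_nonneg_left (hsums j hj) (by positivity)
      _ = (∑ j ∈ Icc 1 K, 1 / (j : ℝ)) * (C1 * (N : ℝ) ^ (1 - c1)) := by rw [sum_mul]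
      _ ≤ ((2 + 2 / c1) * (N : ℝ) ^ (c1 / 2)) * (C1 * (N : ℝ) ^ (1 - c1)) := by gcongr
      _ = (2 + 2 / c1) * C1 * (N : ℝ) ^ (1 - c1 / 2) := by
          have : (N : ℝ) ^ (1 - c1 / 2) = (N : ℝ) ^ (c1 / 2) * (N : ℝ) ^ (1 - c1) := by
            rw [← Real.rpow_add hN00]; congr 1; ring
          rw [this]; ring
      _ ≤ _ := by
          apply mul_le_mul_of_nonneg_left _ (by positivity)
          exact Real.rpow_le_rpow_of_exponent_le hNR (by linarith)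
  have hN0R : (0 : ℝ) ≤ N0 := Nat.cast_nonneg _
  have hfin : (N : ℝ) ^ (1 - c) + 4 * (N : ℝ) ^ (1 - c) + (2 + 2 / c1) * C1 * (N : ℝ) ^ (1 - c)
      ≤ (N0 + 5 + (2 + 2 / c1) * C1) * (N : ℝ) ^ (1 - c) := by
    have : 0 ≤ N0 * (N : ℝ) ^ (1 - c) := by positivity
    linarith
  exact (add_le_add (add_le_add t1 t2) t3).trans hfin


open Polynomial Pool.Agent.Y965.PS in
theorem psi_res' {d : ℕ} {m r : ℕ → ℤ} (h : Pool.Agent.H319R3.GC.Adm d m r) (c0 k0 : ℕ) {k : ℕ} (hk : 1 ≤ k) {α : ℝ}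
    (hα : Dioph α) : ∃ C c : ℝ, 0 ≤ C ∧ 0 < c ∧ c < 1 ∧ ∀ s : ℤ, (s = 1 ∨ s = -1) → ∀ N : ℕ, 1 ≤ N →
    ∀ F : ℕ → ℝ, KSyncN d m r s c0 k0 N F → ∀ P : ℝ[X], P.natDegree ≤ k + 1 → P.coeff (k + 1) = α →
      ∀ M b : ℕ, 1 ≤ M → |∑ n ∈ Icc 1 N, Rs M b F n * psi (P.eval (n : ℝ))| ≤ C * (N : ℝ) ^ (1 - c) := by
  obtain ⟨C, c, hC, hc, hc1, H⟩ := psi_res h c0 k0 hk hα
  refine ⟨3 * C, c, by positivity, hc, hc1, fun s hs N hN F hF P hP hPc M b hM => ?_⟩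
  have h1 := H s hs N hN _ (half_sync hF) (fun x => by
    have := (abs_le.1 (hF.1 x)).1; show 0 ≤ (1 + F x) / 2; linarith) P hP hPc M b hM
  have h2 := H s hs N hN (fun _ => 1) ⟨fun x => by simp, fun _ _ _ _ _ _ _ _ => rfl⟩ (fun x => by norm_num) P hP hPc M b hM
  have e2 : ∑ n ∈ Icc 1 N, Rs M b F n * psi (P.eval (n : ℝ)) =
      2 * ∑ n ∈ Icc 1 N, Rs M b (fun x => (1 + F x) / 2) n * psi (P.eval (n : ℝ))
      - ∑ n ∈ Icc 1 N, Rs M b (fun _ => 1) n * psi (P.eval (n : ℝ)) := by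
    rw [mul_sum, ← sum_sub_distrib]
    apply sum_congr rfl
    intro n _
    unfold Rs
    split_ifs
    · ring
    · ring
  rw [e2]
  refine (abs_sub _ _).trans ?_
  rw [abs_mul, abs_two]
  linarith

/-- the class of the `n` with the fractional part of `P n` in `[u, v)` -/
def Ep (P : Polynomial ℝ) (u v : ℝ) (n : ℕ) : Prop := u ≤ Int.fract (P.eval (n : ℝ)) ∧ Int.fract (P.eval (n : ℝ)) < v

open Polynomial Pool.Agent.Y965.PS Pool.Agent.Y965.PL in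
/-- THE CLASSES OF A POLYNOMIAL, on residue classes -/
theorem ct_poly {d : ℕ} {m r : ℕ → ℤ} (h : Pool.Agent.H319R3.GC.Adm d m r) (c0 k0 : ℕ) {k : ℕ} (hk : 1 ≤ k) {α : ℝ}
    (hα : Dioph α) : ∃ C c : ℝ, 0 ≤ C ∧ 0 < c ∧ c < 1 ∧ ∀ s : ℤ, (s = 1 ∨ s = -1) →
    ∀ F : ℕ → ℝ, KSync d m r s c0 k0 F → ∀ P : ℝ[X], P.natDegree ≤ k + 1 → P.coeff (k + 1) = α →
    ∀ u v : ℝ, 0 ≤ u → u ≤ v → v ≤ 1 → ∀ M b : ℕ, 1 ≤ M → CT (Ep P u v) (v - u) C c (Rs M b F) := by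
  obtain ⟨C, c, hC, hc, hc1, H⟩ := psi_res' h c0 k0 hk hα
  refine ⟨2 * C, c, by positivity, hc, hc1, fun s hs F hF P hP hPc u v hu huv hv M b hM => ⟨fun n => ?_, fun N hN => ?_⟩⟩
  · unfold Rs
    split_ifs
    · exact hF.1 n
    · simp
  have hsub : ∀ w : ℝ, |∑ n ∈ Icc 1 N, Rs M b F n * psi (P.eval (n : ℝ) - w)| ≤ C * (N : ℝ) ^ (1 - c) := by
    intro w
    have h1 : (P - Polynomial.C w).natDegree ≤ k + 1 := by
      refine (natDegree_sub_le _ _).trans ?_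
      rw [natDegree_C]
      omega
    have h2 : (P - Polynomial.C w).coeff (k + 1) = α := by
      rw [coeff_sub, coeff_C, if_neg (by omega), sub_zero]; exact hPc
    have h3 := H s hs N hN F (hF.toN N) _ h1 h2 M b hM
    simpa using h3
  have e1 : ∑ n ∈ Icc 1 N, ind (Ep P u v) n * Rs M b F n - (v - u) * ∑ n ∈ Icc 1 N, Rs M b F n
      = ∑ n ∈ Icc 1 N, Rs M b F n * psi (P.eval (n : ℝ) - v) - ∑ n ∈ Icc 1 N, Rs M b F n * psi (P.eval (n : ℝ) - u) := by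
    rw [mul_sum, ← sum_sub_distrib, ← sum_sub_distrib]
    apply sum_congr rfl
    intro n _
    have e2 : ind (Ep P u v) n = (v - u) + (psi (P.eval (n : ℝ) - v) - psi (P.eval (n : ℝ) - u)) := by
      rw [← fract_ind hu huv hv (P.eval (n : ℝ))]
      unfold ind Ep
      congr
    rw [e2]; ring
  rw [e1]
  refine (abs_sub _ _).trans ?_
  have h1 := hsub v
  have h2 := hsub u
  linarith

end Pool.Agent.Run7.h439.DC
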