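import Pool.Agent.Run7.h439.DC.Poly2
import Pool.Agent.Run7.h439.DC.Inv3

/-! Invariant functions and first entrances in the classes of polynomials. -/

set_option autoImplicit false

namespace Pool.Agent.Run7.h439.DC

open Finset Pool.Agent.Y55.DS Pool.Agent.H319R3.GC
open Pool.Agent.Y965.PL (Mn MnS ind ind_pos ind_neg ind_congr)

theorem Rs_one (b : ℕ) (F : ℕ → ℝ) : Rs 1 b F = F := by
  funext n
  unfold Rs
  rw [Nat.mod_one, Nat.mod_one, if_pos rfl]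

/-- the polynomial classes: `P` has degree at most `k + 1` and the coefficient `α` there -/
structure PD (k : ℕ) (α : ℝ) (P : Polynomial ℝ) (u v : ℝ) : Prop where
  deg : P.natDegree ≤ k + 1
  lead : P.coeff (k + 1) = α
  u0 : 0 ≤ u
  uv : u ≤ v
  v1 : v ≤ 1

/-- invariant functions in the classes of polynomials -/
theorem inv_ctp {d : ℕ} {mm r : ℕ → ℤ} (h : Adm d mm r) {k : ℕ} (hk : 1 ≤ k) {α : ℝ} (hα : Dioph α) :
    ∃ C c : ℝ, 0 ≤ C ∧ 0 < c ∧ c < 1 ∧ ∀ s : ℤ, (s = 1 ∨ s = -1) → ∀ f : ℤ → ℝ, (∀ x, |f x| ≤ 1) →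
    (∀ x, f (Tm d mm r x) = f x) → ∀ (P : Polynomial ℝ) (u v : ℝ), PD k α P u v → ∀ M b : ℕ, 1 ≤ M →
      CT (Ep P u v) (v - u) C c (Rs M b (fun n => f (s * n))) := by
  obtain ⟨C, c, hC, hc, hc1, H⟩ := ct_poly h 1 0 hk hα
  exact ⟨C, c, hC, hc, hc1, fun s hs f hb hf P u v hP M b hM =>
    H s hs _ (ksync_f hb hf) P hP.deg hP.lead u v hP.u0 hP.uv hP.v1 M b hM⟩

/-- first entrances in the classes of polynomials -/
theorem fe_ctp {d : ℕ} {mm r : ℕ → ℤ} (h : Adm d mm r) (R : ℕ) {k : ℕ} (hk : 1 ≤ k) {α : ℝ} (hα : Dioph α) :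
    ∃ C c : ℝ, 0 ≤ C ∧ 0 < c ∧ c < 1 ∧ ∀ s : ℤ, (s = 1 ∨ s = -1) → ∀ A : ℤ → Prop, (∀ x, A x → |x| ≤ (R : ℤ)) →
    ∀ F : ℕ → ℝ, EF d mm r s A F → ∀ (P : Polynomial ℝ) (u v : ℝ), PD k α P u v → ∀ M b : ℕ, 1 ≤ M →
      CT (Ep P u v) (v - u) C c (Rs M b F) := by
  obtain ⟨k0, hk0⟩ := ksync_fe h R
  obtain ⟨C, c, hC, hc, hc1, H⟩ := ct_poly h 2 k0 hk hα
  exact ⟨C, c, hC, hc, hc1, fun s hs A hA F hF P u v hP M b hM =>
    H s hs _ (hk0 s hs A hA F hF) P hP.deg hP.lead u v hP.u0 hP.uv hP.v1 M b hM⟩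

open Classical in
theorem inv_ctp_set {d : ℕ} {mm r : ℕ → ℤ} {E : ℕ → Prop} {ρ C c : ℝ} {s : ℤ}
    (h : ∀ f : ℤ → ℝ, (∀ x, |f x| ≤ 1) → (∀ x, f (Tm d mm r x) = f x) → ∀ M b : ℕ, 1 ≤ M →
      CT E ρ C c (Rs M b (fun n => f (s * n))))
    {S : Set ℤ} (hS : ∀ x, x ∈ S ↔ Tm d mm r x ∈ S) {M : ℕ} (hM : 1 ≤ M) (b : ℕ) :
    CT E ρ C c (ind (fun n => n % M = b % M ∧ s * (n : ℤ) ∈ S)) := by
  have h1 := h (fun x => if x ∈ S then 1 else 0) (fun x => by split_ifs <;> simp) (fun x => by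
    by_cases hx : x ∈ S
    · rw [if_pos hx, if_pos ((hS x).1 hx)]
    · rw [if_neg hx, if_neg (fun h => hx ((hS x).2 h))]) M b hM
  refine h1.congr fun n => ?_
  unfold Rs
  by_cases hn : n % M = b % M
  · rw [if_pos hn]
    by_cases h2 : s * (n : ℤ) ∈ S
    · dsimp only
      rw [if_pos h2, ind_pos (P := fun n : ℕ => n % M = b % M ∧ s * (n : ℤ) ∈ S) ⟨hn, h2⟩]
    · dsimp only
      rw [if_neg h2, ind_neg (P := fun n : ℕ => n % M = b % M ∧ s * (n : ℤ) ∈ S) (fun h => h2 h.2)]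
  · rw [if_neg hn, ind_neg (P := fun n : ℕ => n % M = b % M ∧ s * (n : ℤ) ∈ S) (fun h => hn h.1)]

end Pool.Agent.Run7.h439.DC
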