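import Pool.Agent.Run7.h439.DC.Inv3
import Pool.Agent.Run7.h439.DC.Gen

/-! Classes and residue classes together; approximation of events from above. -/

set_option autoImplicit false

namespace Pool.Agent.Run7.h439.DC

open Finset Filter Topology Pool.Agent.H319R3.GC
open Pool.Agent.Y965.PL (Mn MnS MnS_of th ind ind_pos ind_neg ind_congr ind_nonneg ind_le_one ind_mono)

open Classical in
/-- one residue class modulo `M` -/
theorem ct_res {d : ℕ} {mm r : ℕ → ℤ} (h : Adm d mm r) (c0 k0 : ℕ) {l : ℕ} {q m : Fin l → ℕ} {W : Fin l → ℕ → ℤ}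
    (hD : DD d q m W) {M : ℕ} (hM : 1 ≤ M) : ∃ C c : ℝ, 0 ≤ C ∧ 0 < c ∧ c ≤ 1 ∧
    ∀ s : ℤ, (s = 1 ∨ s = -1) → ∀ F : ℕ → ℝ, KSync d mm r s c0 k0 F → ∀ (a : Fin l → ℤ) (b : ℕ),
      CT (Ed m W a) (∏ i, (1 / (m i : ℝ))) C c (fun n => if n % M = b % M then F n else 0) := by
  obtain ⟨C, c, hC, hc0, H⟩ := kim h c0 k0 q hD.three hD.copd hD.cop W hD.add m hD.pos hM
  refine ⟨C, min c 1, hC, lt_min hc0 one_pos, min_le_right _ _, fun s hs F hF a b => ?_⟩
  refine CT.mono (c := c) ⟨fun n => ?_, fun N hN => ?_⟩ hC (min_le_left _ _)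
  · split_ifs
    · exact hF.1 n
    · simp
  have h1 := H s hs N hN F (hF.toN N) a b
  have hmod : ∀ n : ℕ, ((M : ℤ) ∣ (n : ℤ) - (b : ℤ)) ↔ n % M = b % M := by
    intro n
    rw [← Int.modEq_iff_dvd]
    constructor
    · intro h2
      have h3 : b ≡ n [MOD M] := (Int.natCast_modEq_iff).1 h2
      exact h3.symm
    · intro h2
      exact (Int.natCast_modEq_iff).2 (Nat.ModEq.symm h2)
  have e1 : (∏ i, ((Pool.Agent.Y55.DS.obs (q i) (W i) (m i) : ℝ) / m i)) = ∏ i, (1 / (m i : ℝ)) := by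
    apply prod_congr rfl
    intro i _
    rw [obs_one (hD.free i), Nat.cast_one]
  have e2 : ∑ n ∈ (Icc 1 N).filter (fun n => Pool.Agent.Y55.DS.Cl m W a M b n), F n =
      ∑ n ∈ Icc 1 N, ind (Ed m W a) n * (if n % M = b % M then F n else 0) := by
    rw [sum_filter]
    apply sum_congr rfl
    intro n _
    by_cases h2 : n % M = b % M
    · rw [if_pos h2]
      by_cases h : Ed m W a n
      · rw [if_pos ⟨h, (hmod n).2 h2⟩, ind_pos h, one_mul]
      · rw [if_neg (fun h' => h h'.1), ind_neg h, zero_mul]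
    · rw [if_neg h2, mul_zero, if_neg]
      rintro ⟨_, h'⟩
      exact h2 ((hmod n).1 h')
  have e3 : ∑ n ∈ (Icc 1 N).filter (fun n => Pool.Agent.Y55.DS.Cl (fun i => Pool.Agent.Y55.DS.obs (q i) (W i) (m i))
      (fun i n => n * W i 1) a M b n), F n = ∑ n ∈ Icc 1 N, (if n % M = b % M then F n else 0) := by
    rw [sum_filter]
    apply sum_congr rfl
    intro n _
    by_cases h2 : n % M = b % M
    · rw [if_pos h2, if_pos]
      refine ⟨fun i => ?_, (hmod n).2 h2⟩
      simp only [obs_one (hD.free i)]; simp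
    · rw [if_neg h2, if_neg]
      rintro ⟨_, h'⟩
      exact h2 ((hmod n).1 h')
  rw [e1, e2, e3] at h1
  exact h1

theorem CT.finsum {E : ℕ → Prop} {ρ C c : ℝ} {ι : Type*} (A : Finset ι) (F : ι → ℕ → ℝ) (h : ∀ i ∈ A, CT E ρ C c (F i))
    (hb : ∀ n, |∑ i ∈ A, F i n| ≤ 1) : CT E ρ (A.card * C) c (fun n => ∑ i ∈ A, F i n) := by
  refine ⟨hb, fun N hN => ?_⟩
  have e : ∑ n ∈ Icc 1 N, ind E n * ∑ i ∈ A, F i n - ρ * ∑ n ∈ Icc 1 N, ∑ i ∈ A, F i n =
      ∑ i ∈ A, (∑ n ∈ Icc 1 N, ind E n * F i n - ρ * ∑ n ∈ Icc 1 N, F i n) := by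
    rw [sum_sub_distrib]
    congr 1
    · rw [sum_comm]
      apply sum_congr rfl
      intro n _
      rw [mul_sum]
    · rw [← mul_sum]
      congr 1
      exact sum_comm
  rw [e]
  refine (abs_sum_le_sum_abs _ _).trans ((sum_le_sum fun i hi => (h i hi).tr N hN).trans (le_of_eq ?_))
  rw [sum_const, nsmul_eq_mul]
  ring

open Classical in
/-- unions of residue classes modulo `M` -/
theorem ct_ress {d : ℕ} {mm r : ℕ → ℤ} (h : Adm d mm r) (c0 k0 : ℕ) {l : ℕ} {q m : Fin l → ℕ} {W : Fin l → ℕ → ℤ}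
    (hD : DD d q m W) {M : ℕ} (hM : 1 ≤ M) : ∃ C c : ℝ, 0 ≤ C ∧ 0 < c ∧ c ≤ 1 ∧
    ∀ s : ℤ, (s = 1 ∨ s = -1) → ∀ F : ℕ → ℝ, KSync d mm r s c0 k0 F → ∀ (a : Fin l → ℤ) (R : ℕ → Prop),
      (∀ n, R (n % M) ↔ R n) → CT (Ed m W a) (∏ i, (1 / (m i : ℝ))) C c (fun n => if R n then F n else 0) := by
  obtain ⟨C, c, hC, hc0, hc1, H⟩ := ct_res h c0 k0 hD hM
  refine ⟨M * C, c, by positivity, hc0, hc1, fun s hs F hF a R hR => ?_⟩
  set A := (range M).filter R with hA
  have key : ∀ n, (∑ b ∈ A, if n % M = b % M then F n else 0) = if R n then F n else 0 := by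
    intro n
    have hlt : n % M < M := Nat.mod_lt _ hM
    by_cases h1 : R n
    · rw [if_pos h1]
      rw [sum_eq_single (n % M)]
      · rw [if_pos (Nat.mod_mod _ _).symm]
      · intro b hb hbn
        rw [hA, mem_filter, mem_range] at hb
        rw [if_neg]
        intro h2
        rw [Nat.mod_eq_of_lt hb.1] at h2
        exact hbn h2.symm
      · intro h2
        exfalso
        apply h2
        rw [hA, mem_filter, mem_range]
        exact ⟨hlt, (hR n).2 h1⟩
    · rw [if_neg h1]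
      apply sum_eq_zero
      intro b hb
      rw [hA, mem_filter, mem_range] at hb
      rw [if_neg]
      intro h2
      rw [Nat.mod_eq_of_lt hb.1] at h2
      apply h1
      rw [← hR n, h2]
      exact hb.2
  have h1 := CT.finsum A (fun b n => if n % M = b % M then F n else 0) (fun b _ => H s hs F hF a b) (fun n => by
    rw [key]
    split_ifs
    · exact hF.1 n
    · simp)
  refine CT.congr ⟨h1.bd, fun N hN => (h1.tr N hN).trans ?_⟩ key
  apply mul_le_mul_of_nonneg_right _ (by positivity)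
  apply mul_le_mul_of_nonneg_right _ hC
  have h2 : A.card ≤ M := by
    have := card_filter_le (range M) R
    rw [card_range] at this
    exact this
  exact_mod_cast h2

/-- approximation of an event from above -/
theorem cls_approx {E A : ℕ → Prop} {B : ℕ → ℕ → Prop} {ρ a : ℝ} {b : ℕ → ℝ} (hρ0 : 0 ≤ ρ) (hρ1 : ρ ≤ 1)
    (hsub : ∀ K n, 1 ≤ n → A n → B K n) (hA : Mn (ind A) a) (hB : ∀ K, Mn (ind (B K)) (b K)) (hlim : Tendsto b atTop (𝓝 a))
    (hE : ∀ K, MnS id (ind (fun n => E n ∧ B K n)) (ρ * b K)) : MnS id (ind (fun n => E n ∧ A n)) (ρ * a) := by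
  apply MnS_of
  intro ε hε hε1
  obtain ⟨K, hK⟩ := ((Metric.tendsto_atTop.1 hlim) (ε / 8) (by positivity))
  have hK' := hK K le_rfl
  rw [Real.dist_eq, abs_lt] at hK'
  have hA' : MnS id (ind A) a := hA
  have hB' : MnS id (ind (B K)) (b K) := hB K
  filter_upwards [hA'.ev (show 0 < ε / 8 by positivity), hB'.ev (show 0 < ε / 8 by positivity),
    (hE K).ev (show 0 < ε / 8 by positivity)] with N h1 h2 h3
  have hN0 : (0 : ℝ) ≤ N := Nat.cast_nonneg _
  simp only [id_eq] at h1 h2 h3 ⊢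
  rw [abs_le] at h1 h2 h3
  have i1 : ∑ n ∈ Icc 1 N, ind (fun n => E n ∧ A n) n ≤ ∑ n ∈ Icc 1 N, ind (fun n => E n ∧ B K n) n := by
    apply sum_le_sum
    intro n hn
    exact ind_mono fun h => ⟨h.1, hsub K n (mem_Icc.1 hn).1 h.2⟩
  have i2 : ∑ n ∈ Icc 1 N, ind (fun n => E n ∧ B K n) n + ∑ n ∈ Icc 1 N, ind A n ≤
      ∑ n ∈ Icc 1 N, ind (fun n => E n ∧ A n) n + ∑ n ∈ Icc 1 N, ind (B K) n := by
    rw [← sum_add_distrib, ← sum_add_distrib]
    apply sum_le_sum
    intro n hn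
    have hs := hsub K n (mem_Icc.1 hn).1
    rw [ind_and, ind_and]
    have e0 := ind_nonneg E n
    have e1 := ind_le_one E n
    by_cases h5 : A n
    · rw [ind_pos h5, ind_pos (hs h5)]
    · rw [ind_neg h5]
      have := ind_nonneg (B K) n
      nlinarith
  have k1 : ρ * b K * N ≤ ρ * a * N + ε / 8 * N := by
    have : ρ * (b K - a) ≤ 1 * (ε / 8) := by
      rcases le_or_gt 0 (b K - a) with hh | hh
      · exact mul_le_mul hρ1 hK'.2.le hh zero_le_one
      · have := mul_nonpos_of_nonneg_of_nonpos hρ0 hh.le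
        linarith
    nlinarith
  have k2 : ρ * a * N - ε / 8 * N ≤ ρ * b K * N := by
    have : ρ * (a - b K) ≤ 1 * (ε / 8) := by
      rcases le_or_gt 0 (a - b K) with hh | hh
      · exact mul_le_mul hρ1 (by linarith) hh zero_le_one
      · have := mul_nonpos_of_nonneg_of_nonpos hρ0 hh.le
        linarith
    nlinarith
  have k3 : b K * N ≤ a * N + ε / 8 * N := by nlinarith
  rw [abs_le]
  constructor <;> linarith

end Pool.Agent.Run7.h439.DC
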