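import Pool.Agent.Run7.h439.DC.Two

/-! Transfer to the classes, thresholds, laws. -/

set_option autoImplicit false

namespace Pool.Agent.Run7.h439.DC

open Finset Filter Topology Pool.Agent.Y965.PL
open Pool.Agent.H499R2.HL (H H_unique)
open Pool.Agent.H499R2.LT (odn)
open Pool.Agent.H499R2.ND (Phi Phi_continuous)

theorem obs_one {q : ℕ} {W : ℕ → ℤ} {m : ℕ} (h : ∀ p : ℕ, p.Prime → p ∣ m → ∃ r : ℕ, r ≤ q ∧ ¬ W r ≡ r * W 1 [ZMOD p]) :
    Pool.Agent.Y55.DS.obs q W m = 1 := by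
  by_contra hcon
  obtain ⟨p, hp, hpo⟩ := Nat.exists_prime_and_dvd hcon
  obtain ⟨r, hr, hr'⟩ := h p hp (hpo.trans (Pool.Agent.Y55.DS.obs_dvd q W m))
  apply hr'
  have h1 := Pool.Agent.Y55.DS.obs_dvd' (W := W) (m := m) hr
  have h2 : (p : ℤ) ∣ W r - r * W 1 := (Int.natCast_dvd_natCast.2 hpo).trans h1
  exact (Int.modEq_iff_dvd.2 h2).symm

theorem CT.mono {E : ℕ → Prop} {ρ C c c' : ℝ} {F : ℕ → ℝ} (h : CT E ρ C c F) (hC : 0 ≤ C) (hc : c' ≤ c) : CT E ρ C c' F := by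
  refine ⟨h.bd, fun N hN => (h.tr N hN).trans ?_⟩
  apply mul_le_mul_of_nonneg_left _ hC
  exact Real.rpow_le_rpow_of_exponent_le (by exact_mod_cast hN) (by linarith)

theorem CT.congr {E : ℕ → Prop} {ρ C c : ℝ} {F G : ℕ → ℝ} (h : CT E ρ C c F) (hFG : ∀ n, F n = G n) : CT E ρ C c G := by
  have : F = G := funext hFG
  rw [← this]; exact h

/-- the classes -/
def CTA (E : ℕ → Prop) (ρ C c : ℝ) : Prop := ∀ F : ℤ → ℝ, ASync 1 F → CT E ρ C c (fun n => F (n : ℤ))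

theorem CTA.fg {E : ℕ → Prop} {ρ C c : ℝ} (h : CTA E ρ C c) {g : ℕ → ℕ → ℝ} {g0 : ℝ} (hg : ∀ k o, |g k o| ≤ 1)
    (hg0 : |g0| ≤ 1) : CT E ρ C c (Fg g g0) := by
  refine (h _ (async_Fg hg hg0)).congr fun n => ?_
  simp only [Int.toNat_natCast]

open Classical in
theorem CTA.lv {E : ℕ → Prop} {ρ C c : ℝ} (h : CTA E ρ C c) (val : ℕ → ℕ → ℝ) (cls : ℕ → ℕ → Prop) (t : ℝ) :
    CT E ρ C c (ind (fun n => True ∧ Lv val cls (fun _ => t) n)) := by
  refine (h.fg (g := fun k o => if val k o ≤ t ∧ cls k o then 1 else 0) (g0 := 0) ?_ (by simp)).congr fun n => ?_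
  · intro k o
    split_ifs <;> simp
  · rw [← ind_Lv_Fg]
    exact ind_congr (by simp)

theorem CTA.fin {E : ℕ → Prop} {ρ C c : ℝ} (h : CTA E ρ C c) : CT E ρ C c (ind (fun n => True ∧ ∃ k, H k n)) := by
  refine (h.lv (fun _ _ => 0) (fun _ _ => True) 0).congr fun n => ?_
  apply ind_congr
  unfold Lv
  simp

theorem CTA.one {E : ℕ → Prop} {ρ C c : ℝ} (h : CTA E ρ C c) : CT E ρ C c (ind (fun _ => True)) := by
  refine (h.fg (g := fun _ _ => 1) (g0 := 1) (by simp) (by simp)).congr fun n => ?_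
  rw [ind_pos trivial]
  by_cases hn : ∃ k, H k n
  · obtain ⟨k, hk⟩ := hn
    rw [Fg_H hk]
  · rw [Fg_not hn]

theorem Mn_true : Mn (ind (fun _ => True)) 1 := by
  have e : ind (fun _ : ℕ => True) = fun _ => (1 : ℝ) := by
    funext n; exact ind_pos trivial
  rw [e]; exact (MnS_const id 1 : MnS id (fun _ => (1:ℝ)) 1)

/-- the density of the class -/
theorem CTA.dens {E : ℕ → Prop} {ρ C c : ℝ} (h : CTA E ρ C c) (hρ0 : 0 ≤ ρ) (hρ1 : ρ ≤ 1) (hc : 0 < c) :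
    MnS id (ind E) ρ := by
  have h1 := cls_set hρ0 hρ1 hc h.one Mn_true
  rw [mul_one] at h1
  have e : ind (fun n => E n ∧ True) = ind E := by
    funext n; exact ind_congr (by simp)
  rw [← e]; exact h1

theorem CTA.dfin {E : ℕ → Prop} {ρ C c : ℝ} (h : CTA E ρ C c) (hρ0 : 0 ≤ ρ) (hρ1 : ρ ≤ 1) (hc : 0 < c) {δ : ℝ}
    (hfin : Mn (ind (fun n => True ∧ ∃ k, H k n)) δ) : MnS id (ind (fun n => E n ∧ ∃ k, H k n)) (ρ * δ) := by
  have h1 := cls_set hρ0 hρ1 hc h.fin hfin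
  have e : ind (fun n => E n ∧ (True ∧ ∃ k, H k n)) = ind (fun n => E n ∧ ∃ k, H k n) := by
    funext n; exact ind_congr (by simp)
  rw [← e]; exact h1

theorem CTA.law {E : ℕ → Prop} {ρ C c : ℝ} (h : CTA E ρ C c) (hρ0 : 0 ≤ ρ) (hρ1 : ρ ≤ 1) (hc : 0 < c)
    {val : ℕ → ℕ → ℝ} {cls : ℕ → ℕ → Prop}
    {A b : ℝ} (hA : 0 ≤ A) (hb : 0 < b) {dd : ℝ → ℝ} (hd : Continuous dd)
    (hlaw : ∀ x, Mn (ind (fun n => True ∧ Lv val cls (th A b x) n)) (dd x)) (x : ℝ) :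
    MnS id (ind (fun n => E n ∧ Lv val cls (th A b x) n)) (ρ * dd x) := by
  have h1 := cls_law hρ0 hρ1 hc (fun t => h.lv val cls t) hA hb hd hlaw x
  have e : ind (fun n => (E n ∧ True) ∧ Lv val cls (th A b x) n) = ind (fun n => E n ∧ Lv val cls (th A b x) n) := by
    funext n; exact ind_congr (by simp)
  rw [← e]; exact h1

theorem CTA.Law {E : ℕ → Prop} {ρ C c : ℝ} (h : CTA E ρ C c) (hρ0 : 0 ≤ ρ) (hρ1 : ρ ≤ 1) (hc : 0 < c)
    {val : ℕ → ℕ → ℝ} {A b δ : ℝ} (hA : 0 ≤ A) (hb : 0 < b) (hfin : Mn (ind (fun n => True ∧ ∃ k, H k n)) δ)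
    (hlaw : ∀ x, Mn (ind (fun n => True ∧ Lv val (fun _ _ => True) (th A b x) n)) (δ * Phi x)) :
    Pool.Agent.Y965.PL.Law id E val A b (ρ * δ) ρ := by
  refine ⟨h.dens hρ0 hρ1 hc, h.dfin hρ0 hρ1 hc hfin, fun x => ?_⟩
  have h1 := h.law hρ0 hρ1 hc hA hb (Phi_continuous.const_mul δ) hlaw x
  rw [mul_assoc]; exact h1

/-- the law without residue classes -/
theorem nat1_law {δ : ℝ} (hδ : Nat1 δ) (x : ℝ) :
    Mn (ind (fun n => True ∧ Lv valK (fun _ _ => True) (th (2 / Real.log (4 / 3)) bK x) n)) (δ * Phi x) := by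
  have h1 := hδ.lawK 1 0 0 le_rfl x
  rw [Nat.cast_one, one_pow, div_one] at h1
  have e : ind (fun n => True ∧ Lv valK (clsK 1 0 0) (th (2 / Real.log (4 / 3)) bK x) n) =
      ind (fun n => True ∧ Lv valK (fun _ _ => True) (th (2 / Real.log (4 / 3)) bK x) n) := by
    funext n
    apply ind_congr
    refine and_congr_right fun _ => exists_congr fun k => and_congr_right fun _ => and_congr_right fun _ => ?_
    unfold clsK
    simp [Int.ModEq]
  rw [← e]; exact h1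

/-! ### thresholds -/

/-- the last integer of an initial segment -/
theorem seg {P : ℕ → Prop} (hP : ∀ n n', n ≤ n' → P n' → P n) (X : ℕ) :
    ∃ u ≤ X, ∀ n, 1 ≤ n → n ≤ X → (P n ↔ n ≤ u) := by
  classical
  refine ⟨Nat.findGreatest (fun n => n = 0 ∨ P n) X, Nat.findGreatest_le X, fun n h1 h2 => ⟨fun h => ?_, fun h => ?_⟩⟩
  · exact Nat.le_findGreatest h2 (Or.inr h)
  · have h3 := Nat.findGreatest_spec (P := fun n => n = 0 ∨ P n) (Nat.zero_le X) (Or.inl rfl)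
    rcases h3 with h3 | h3
    · omega
    · exact hP _ _ h h3

theorem sum_seg {P : ℕ → Prop} {X u : ℕ} (hu : u ≤ X) (h : ∀ n, 1 ≤ n → n ≤ X → (P n ↔ n ≤ u)) (F : ℕ → ℝ) :
    ∑ n ∈ Icc 1 X, F n * ind P n = ∑ n ∈ Icc 1 u, F n := by
  classical
  have h1 : Icc 1 u ⊆ Icc 1 X := Icc_subset_Icc_right hu
  rw [← sum_subset h1 (f := fun n => F n * ind P n)]
  · apply sum_congr rfl
    intro n hn
    rw [mem_Icc] at hn
    rw [ind_pos ((h n hn.1 (hn.2.trans hu)).2 hn.2), mul_one]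
  · intro n hn hn'
    rw [mem_Icc] at hn hn'
    rw [ind_neg (fun hP => hn' ⟨hn.1, (h n hn.1 hn.2).1 hP⟩), mul_zero]

/-- an initial segment -/
theorem CT.seg {E : ℕ → Prop} {ρ C c : ℝ} {F : ℕ → ℝ} (h : CT E ρ C c F) (hC : 0 ≤ C) (hc : c ≤ 1) {P : ℕ → Prop}
    (hP : ∀ n n', n ≤ n' → P n' → P n) {X : ℕ} (hX : 1 ≤ X) :
    |∑ n ∈ Icc 1 X, ind E n * (F n * ind P n) - ρ * ∑ n ∈ Icc 1 X, F n * ind P n| ≤ C * (X : ℝ) ^ (1 - c) := by
  obtain ⟨u, hu, hu'⟩ := DC.seg hP X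
  have e1 : ∑ n ∈ Icc 1 X, ind E n * (F n * ind P n) = ∑ n ∈ Icc 1 u, ind E n * F n := by
    rw [← sum_seg hu hu' (fun n => ind E n * F n)]
    apply sum_congr rfl
    intro n _; ring
  rw [e1, sum_seg hu hu' F]
  rcases Nat.eq_zero_or_pos u with h0 | h0
  · subst h0
    have : Icc 1 0 = (∅ : Finset ℕ) := by simp
    rw [this, sum_empty, sum_empty, mul_zero, sub_zero, abs_zero]
    positivity
  · refine (h.tr u h0).trans ?_
    apply mul_le_mul_of_nonneg_left _ hC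
    exact Real.rpow_le_rpow (by positivity) (by exact_mod_cast hu) (by linarith)

/-- a final segment -/
theorem CT.seg' {E : ℕ → Prop} {ρ C c : ℝ} {F : ℕ → ℝ} (h : CT E ρ C c F) (hC : 0 ≤ C) (hc : c ≤ 1) {P : ℕ → Prop}
    (hP : ∀ n n', n ≤ n' → P n → P n') {X : ℕ} (hX : 1 ≤ X) :
    |∑ n ∈ Icc 1 X, ind E n * (F n * ind P n) - ρ * ∑ n ∈ Icc 1 X, F n * ind P n| ≤ 2 * C * (X : ℝ) ^ (1 - c) := by
  have h1 := h.seg hC hc (P := fun n => ¬ P n) (fun n n' hn h2 h3 => h2 (hP n n' hn h3)) hX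
  have h2 := h.tr X hX
  have e0 : ∀ n, ind P n = 1 - ind (fun n => ¬ P n) n := by
    intro n
    by_cases hn : P n
    · rw [ind_pos hn, ind_neg (P := fun n => ¬ P n) (fun h => h hn), sub_zero]
    · rw [ind_neg hn, ind_pos (P := fun n => ¬ P n) hn, sub_self]
  have e1 : ∑ n ∈ Icc 1 X, ind E n * (F n * ind P n) =
      ∑ n ∈ Icc 1 X, ind E n * F n - ∑ n ∈ Icc 1 X, ind E n * (F n * ind (fun n => ¬ P n) n) := by
    rw [← sum_sub_distrib]
    apply sum_congr rfl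
    intro n _
    rw [e0 n]; ring
  have e2 : ∑ n ∈ Icc 1 X, F n * ind P n = ∑ n ∈ Icc 1 X, F n - ∑ n ∈ Icc 1 X, F n * ind (fun n => ¬ P n) n := by
    rw [← sum_sub_distrib]
    apply sum_congr rfl
    intro n _
    rw [e0 n]; ring
  rw [e1, e2]
  have e3 : ∑ n ∈ Icc 1 X, ind E n * F n - ∑ n ∈ Icc 1 X, ind E n * (F n * ind (fun n => ¬ P n) n) -
      ρ * (∑ n ∈ Icc 1 X, F n - ∑ n ∈ Icc 1 X, F n * ind (fun n => ¬ P n) n) =
      (∑ n ∈ Icc 1 X, ind E n * F n - ρ * ∑ n ∈ Icc 1 X, F n) -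
      (∑ n ∈ Icc 1 X, ind E n * (F n * ind (fun n => ¬ P n) n) - ρ * ∑ n ∈ Icc 1 X, F n * ind (fun n => ¬ P n) n) := by ring
  rw [e3]
  refine (abs_sub _ _).trans ?_
  linarith

open Classical in
/-- one level -/
theorem CTA.lev {E : ℕ → Prop} {ρ C c : ℝ} (h : CTA E ρ C c) (t : ℕ) {g : ℕ → ℝ} (hg : ∀ o, |g o| ≤ 1) :
    CT E ρ C c (fun n => ind (H t) n * g (odn t n)) := by
  refine (h.fg (g := fun k o => if k = t then g o else 0) (g0 := 0) ?_ (by simp)).congr fun n => ?_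
  · intro k o
    split_ifs
    · exact hg o
    · simp
  · by_cases hn : ∃ k, H k n
    · obtain ⟨k, hk⟩ := hn
      rw [Fg_H hk]
      by_cases hkt : k = t
      · subst hkt
        rw [if_pos rfl, ind_pos hk, one_mul]
      · rw [if_neg hkt, ind_neg (fun h2 => hkt (H_unique hk h2)), zero_mul]
    · rw [Fg_not hn, ind_neg (fun h2 => hn ⟨t, h2⟩), zero_mul]

open Classical in
/-- THRESHOLDS: the integers with total stopping time `t < T` which satisfy a condition `Q t` that defines a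
final segment -/
theorem CTA.thr {E : ℕ → Prop} {ρ C c : ℝ} (h : CTA E ρ C c) (hC : 0 ≤ C) (hc : c ≤ 1) {Q : ℕ → ℕ → Prop}
    (hQ : ∀ t n n', n ≤ n' → Q t n → Q t n') (T : ℕ) {X : ℕ} (hX : 1 ≤ X) :
    |∑ n ∈ Icc 1 X, ind E n * ind (fun n => ∃ t < T, H t n ∧ Q t n) n
      - ρ * ∑ n ∈ Icc 1 X, ind (fun n => ∃ t < T, H t n ∧ Q t n) n| ≤ T * (2 * C * (X : ℝ) ^ (1 - c)) := by
  have e0 : ∀ n, ind (fun n => ∃ t < T, H t n ∧ Q t n) n = ∑ t ∈ range T, (ind (H t) n * 1) * ind (Q t) n := by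
    intro n
    by_cases hn : ∃ t < T, H t n ∧ Q t n
    · rw [ind_pos (P := fun n => ∃ t < T, H t n ∧ Q t n) hn]
      obtain ⟨t, ht, h1, h2⟩ := hn
      rw [sum_eq_single t]
      · rw [ind_pos h1, ind_pos h2]; norm_num
      · intro t' _ hne
        rw [ind_neg (fun h3 => hne (H_unique h3 h1)), zero_mul, zero_mul]
      · intro h3
        exact absurd (mem_range.2 ht) h3
    · rw [ind_neg (P := fun n => ∃ t < T, H t n ∧ Q t n) hn]
      symm
      apply sum_eq_zero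
      intro t ht
      rw [mem_range] at ht
      by_cases h1 : H t n
      · rw [ind_neg (P := Q t) (fun h2 => hn ⟨t, ht, h1, h2⟩), mul_zero]
      · rw [ind_neg h1, zero_mul, zero_mul]
  have e1 : ∑ n ∈ Icc 1 X, ind E n * ind (fun n => ∃ t < T, H t n ∧ Q t n) n
      - ρ * ∑ n ∈ Icc 1 X, ind (fun n => ∃ t < T, H t n ∧ Q t n) n =
      ∑ t ∈ range T, (∑ n ∈ Icc 1 X, ind E n * ((ind (H t) n * 1) * ind (Q t) n)
        - ρ * ∑ n ∈ Icc 1 X, (ind (H t) n * 1) * ind (Q t) n) := by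
    rw [sum_sub_distrib, ← mul_sum]
    congr 1
    · rw [sum_comm]
      apply sum_congr rfl
      intro n _
      rw [e0 n, mul_sum]
    · congr 1
      rw [sum_comm]
      apply sum_congr rfl
      intro n _
      rw [e0 n]
  rw [e1]
  refine (abs_sum_le_sum_abs _ _).trans ?_
  refine (sum_le_sum fun t _ => (h.lev t (g := fun _ => 1) (by simp)).seg' hC hc (hQ t) hX).trans ?_
  rw [sum_const, card_range, nsmul_eq_mul]

end Pool.Agent.Run7.h439.DC
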